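import Pool.Agent.SixthPow.Reduce

set_option autoImplicit false

namespace Pool.Agent.SixthPow

theorem clause_prime (a b c d e f : ℕ) (ha : 0 < a) (he : 0 < e)
    (h : a ^ 6 + b ^ 6 + c ^ 6 + d ^ 6 + e ^ 6 = f ^ 6) :
    ∃ p : ℕ, p.Prime ∧ p % 3 = 1 ∧ Odd (padicValNat p (a ^ 6 + b ^ 6 + c ^ 6 + d ^ 6)) := by
  obtain ⟨e', t, he', ht, hcop, -, -, hg, hS⟩ :=
    reduce (a ^ 6 + b ^ 6 + c ^ 6 + d ^ 6) e f (by positivity) he h
  obtain ⟨p, hp, hp3, hodd⟩ := primeA e' t he' ht hcop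
  refine ⟨p, hp, hp3, ?_⟩
  rw [hS, val_red p _ _ hp hg (by positivity), Nat.odd_iff]
  rw [Nat.odd_iff] at hodd
  omega

/-- the common setting of the two pattern clauses. -/
theorem setting (a b c d e f : ℕ) (ha : 0 < a) (he : 0 < e)
    (h : a ^ 6 + b ^ 6 + c ^ 6 + d ^ 6 + e ^ 6 = f ^ 6)
    (hprim : ∀ k : ℕ, k ∣ a → k ∣ b → k ∣ c → k ∣ d → k ∣ e → k = 1) :
    ∃ g e' t : ℕ, 0 < e' ∧ 0 < t ∧ Nat.Coprime e' t ∧ e = g * e' ∧ f = g * (e' + t) ∧ 0 < g ∧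
      g = Nat.gcd e f ∧
      a ^ 6 + b ^ 6 + c ^ 6 + d ^ 6 = g ^ 6 *
        (t * (2 * e' + t) * ((e' + t) ^ 2 + (e' + t) * e' + e' ^ 2) * ((e' + t) * t + e' ^ 2)) ∧
      g % 2 = 1 ∧ ¬ 3 ∣ g ∧ (e' + t) % 2 = 1 ∧ ¬ 3 ∣ e' + t ∧ (e' % 2 = 1 ↔ e % 2 = 1) ∧
      (3 ∣ e' ↔ 3 ∣ e) ∧
      (e' % 2 = 1 → 64 ∣ (t * (2 * e' + t) * ((e' + t) ^ 2 + (e' + t) * e' + e' ^ 2) * ((e' + t) * t + e' ^ 2))) ∧
      (¬ 3 ∣ e' → 729 ∣ (t * (2 * e' + t) * ((e' + t) ^ 2 + (e' + t) * e' + e' ^ 2) * ((e' + t) * t + e' ^ 2))) := by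
  obtain ⟨e', t, he', ht, hcop, hee, hff, hg, hS⟩ :=
    reduce (a ^ 6 + b ^ 6 + c ^ 6 + d ^ 6) e f (by positivity) he h
  obtain ⟨hf2, hpar⟩ := parity_facts a b c d e f h hprim
  obtain ⟨hf3, hpar3⟩ := three_facts a b c d e f h hprim
  generalize hgd : Nat.gcd e f = g at *
  have hg2 : g % 2 = 1 := by
    by_contra hge
    have : 2 ∣ f := by rw [hff]; exact Dvd.dvd.mul_right (by omega) _
    omega
  have hg3 : ¬ 3 ∣ g := by
    intro h3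
    have : 3 ∣ f := by rw [hff]; exact Dvd.dvd.mul_right h3 _
    omega
  have hf'2 : (e' + t) % 2 = 1 := by
    by_contra hge
    have : 2 ∣ f := by rw [hff]; exact Dvd.dvd.mul_left (by omega) _
    omega
  have hf'3 : ¬ 3 ∣ e' + t := by
    intro h3
    have : 3 ∣ f := by rw [hff]; exact Dvd.dvd.mul_left h3 _
    omega
  have hco2 : Nat.Coprime 2 g := Nat.coprime_two_left.2 (Nat.odd_iff.2 hg2)
  have hco3 : Nat.Coprime 3 g := (Nat.Prime.coprime_iff_not_dvd Nat.prime_three).2 hg3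
  have hpe : e' % 2 = 1 ↔ e % 2 = 1 := by
    rw [hee, Nat.mul_mod, hg2, one_mul, Nat.mod_mod]
  have hpe3 : 3 ∣ e' ↔ 3 ∣ e := by
    constructor
    · intro h3; rw [hee]; exact Dvd.dvd.mul_left h3 _
    · intro h3; rw [hee] at h3; exact hco3.dvd_of_dvd_mul_left h3
  refine ⟨g, e', t, he', ht, hcop, hee, hff, hg, rfl, hS, hg2, hg3, hf'2, hf'3, hpe, hpe3, ?_, ?_⟩
  · intro he2
    obtain ⟨h1, h2, h3, h4⟩ := hpar (hpe.1 he2)
    have h5 := dvd_sum6 2 a b c d (by omega) (by omega) (by omega) (by omega)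
    rw [hS] at h5
    have h6 : Nat.Coprime (2 ^ 6) (g ^ 6) := hco2.pow 6 6
    have h7 := h6.dvd_of_dvd_mul_left h5
    norm_num at h7
    exact h7
  · intro he3
    have he3' : e % 3 ≠ 0 := by
      intro h0
      exact he3 (hpe3.2 (Nat.dvd_of_mod_eq_zero h0))
    obtain ⟨h1, h2, h3, h4⟩ := hpar3 he3'
    have h5 := dvd_sum6 3 a b c d (by omega) (by omega) (by omega) (by omega)
    rw [hS] at h5
    have h6 : Nat.Coprime (3 ^ 6) (g ^ 6) := hco3.pow 6 6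
    have h7 := h6.dvd_of_dvd_mul_left h5
    norm_num at h7
    exact h7

theorem clause_two (a b c d e f : ℕ) (ha : 0 < a) (he : 0 < e)
    (h : a ^ 6 + b ^ 6 + c ^ 6 + d ^ 6 + e ^ 6 = f ^ 6)
    (hprim : ∀ k : ℕ, k ∣ a → k ∣ b → k ∣ c → k ∣ d → k ∣ e → k = 1)
    (hsum : ∃ x y : ℕ, a ^ 6 + b ^ 6 + c ^ 6 + d ^ 6 = x ^ 2 + y ^ 2) :
    (f / Nat.gcd e f) % 4 = 1 ∧
      ((Nat.Coprime e 6 ∧ (6 ^ 5 ∣ f - e ∨ 6 ^ 5 ∣ f + e)) ∨ 12 ∣ e) := by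
  obtain ⟨g, e', t, he', ht, hcop, hee, hff, hg, hgd, hS, hg2, hg3, hf'2, hf'3, hpe, hpe3, h64, h729⟩ :=
    setting a b c d e f ha he h hprim
  have hval := (Nat.eq_sq_add_sq_iff (n := a ^ 6 + b ^ 6 + c ^ 6 + d ^ 6)).1 hsum
  have hS0 : a ^ 6 + b ^ 6 + c ^ 6 + d ^ 6 ≠ 0 := by positivity
  have hN0 : t * (2 * e' + t) * ((e' + t) ^ 2 + (e' + t) * e' + e' ^ 2) * ((e' + t) * t + e' ^ 2) ≠ 0 := by
    positivity
  have hN : ∀ q : ℕ, q.Prime → q % 4 = 3 → q ≠ 3 → Even (padicValNat q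
      (t * (2 * e' + t) * ((e' + t) ^ 2 + (e' + t) * e' + e' ^ 2) * ((e' + t) * t + e' ^ 2))) := by
    intro q hq hq4 _
    apply val_red_even q g _ hq hg hN0
    rw [← hS]
    by_cases hd : q ∣ a ^ 6 + b ^ 6 + c ^ 6 + d ^ 6
    · exact hval q (Nat.mem_primeFactors.2 ⟨hq, hd, hS0⟩) hq4
    · rw [padicValNat.eq_zero_of_not_dvd hd]; exact Even.zero
  obtain ⟨h1, h2⟩ := patternB e' t he' ht hcop hf'2 hf'3 hN h64 h729
  have hdiv : f / Nat.gcd e f = e' + t := by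
    rw [← hgd, hff]; exact Nat.mul_div_cancel_left _ hg
  refine ⟨by rw [hdiv]; exact h1, ?_⟩
  rcases h2 with ⟨g1, g2, g3⟩ | g1
  · left
    constructor
    · have e1 : (6 : ℕ) = 2 * 3 := by norm_num
      rw [e1]
      refine Nat.Coprime.mul_right ?_ ?_
      · exact (Nat.coprime_two_left.2 (Nat.odd_iff.2 (hpe.1 g1))).symm
      · exact ((Nat.Prime.coprime_iff_not_dvd Nat.prime_three).2 (fun h3 => g2 (hpe3.2 h3))).symm
    · have e6 : (6 : ℕ) ^ 5 = 7776 := by norm_num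
      rw [e6]
      rcases g3 with g3 | g3
      · left
        have : f - e = g * t := by rw [hff, hee, mul_add]; omega
        rw [this]
        exact Dvd.dvd.mul_left g3 _
      · right
        have : f + e = g * (2 * e' + t) := by rw [hff, hee]; ring
        rw [this]
        exact Dvd.dvd.mul_left g3 _
  · right
    rw [hee]
    exact Dvd.dvd.mul_left g1 _

theorem clause_prop (a b c d e f : ℕ) (ha : 0 < a) (he : 0 < e)
    (h : a ^ 6 + b ^ 6 + c ^ 6 + d ^ 6 + e ^ 6 = f ^ 6)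
    (hprim : ∀ k : ℕ, k ∣ a → k ∣ b → k ∣ c → k ∣ d → k ∣ e → k = 1)
    (hp : a * d = b * c) :
    f % 4 = 1 ∧ ((Nat.Coprime e 6 ∧ (6 ^ 5 ∣ f - e ∨ 6 ^ 5 ∣ f + e)) ∨ 12 ∣ e) := by
  have h2 := clause_two a b c d e f ha he h hprim (sum_sq_prop a b c d hp)
  refine ⟨?_, h2.2⟩
  obtain ⟨g, e', t, he', ht, hcop, hee, hff, hg, hgd, hS, hg2, hg3, hf'2, hf'3, hpe, hpe3, h64, h729⟩ :=
    setting a b c d e f ha he h hprim
  have hdiv : f / Nat.gcd e f = e' + t := by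
    rw [← hgd, hff]; exact Nat.mul_div_cancel_left _ hg
  have h1 : (e' + t) % 4 = 1 := by rw [← hdiv]; exact h2.1
  have hg4 : g % 4 = 1 := by
    apply one_mod_four g hg2 hg3
    intro q hq hq4 _
    have hnd : ¬ q ∣ g := by
      intro hqg
      have hqS : q ∣ a ^ 6 + b ^ 6 + c ^ 6 + d ^ 6 := by
        rw [hS]
        exact Dvd.dvd.mul_right (dvd_pow hqg (by norm_num)) _
      obtain ⟨k1, k2, k3, k4⟩ := prime_prop q a b c d hq hq4 hp hqS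
      have := hprim q k1 k2 k3 k4 (by rw [hee]; exact Dvd.dvd.mul_right hqg _)
      rw [this] at hq
      exact Nat.not_prime_one hq
    rw [padicValNat.eq_zero_of_not_dvd hnd]
    exact Even.zero
  rw [hff, Nat.mul_mod, hg4, h1]

theorem clause_loesch (a b c d e f : ℕ) (ha : 0 < a) (he : 0 < e)
    (h : a ^ 6 + b ^ 6 + c ^ 6 + d ^ 6 + e ^ 6 = f ^ 6)
    (hprim : ∀ k : ℕ, k ∣ a → k ∣ b → k ∣ c → k ∣ d → k ∣ e → k = 1)
    (hsum : ∃ x y : ℤ, ((a ^ 6 + b ^ 6 + c ^ 6 + d ^ 6 : ℕ) : ℤ) = x ^ 2 + x * y + y ^ 2) :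
    (f / Nat.gcd e f) % 3 = 1 ↔ (2 ∣ e ↔ 3 ∣ e) := by
  obtain ⟨g, e', t, he', ht, hcop, hee, hff, hg, hgd, hS, hg2, hg3, hf'2, hf'3, hpe, hpe3, h64, h729⟩ :=
    setting a b c d e f ha he h hprim
  obtain ⟨x, y, hxy⟩ := hsum
  have hS0 : a ^ 6 + b ^ 6 + c ^ 6 + d ^ 6 ≠ 0 := by positivity
  have hN0 : t * (2 * e' + t) * ((e' + t) ^ 2 + (e' + t) * e' + e' ^ 2) * ((e' + t) * t + e' ^ 2) ≠ 0 := by
    positivity
  have hN : ∀ q : ℕ, q.Prime → q % 3 = 2 → Even (padicValNat q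
      (t * (2 * e' + t) * ((e' + t) ^ 2 + (e' + t) * e' + e' ^ 2) * ((e' + t) * t + e' ^ 2))) := by
    intro q hq hq3
    apply val_red_even q g _ hq hg hN0
    rw [← hS]
    exact loesch_even q hq hq3 _ x y (by rw [← hxy, Int.natAbs_natCast]) hS0
  have h1 := patternC e' t he' ht hcop hf'2 hf'3 hN
  have hdiv : f / Nat.gcd e f = e' + t := by
    rw [← hgd, hff]; exact Nat.mul_div_cancel_left _ hg
  rw [hdiv, h1]
  have hpe2 : (2 ∣ e' ↔ 2 ∣ e) := by omega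
  rw [hpe2, hpe3]

theorem clause_equal (a d e f : ℕ) (ha : 0 < a) (he : 0 < e)
    (h : a ^ 6 + a ^ 6 + a ^ 6 + d ^ 6 + e ^ 6 = f ^ 6)
    (hprim : ∀ k : ℕ, k ∣ a → k ∣ a → k ∣ a → k ∣ d → k ∣ e → k = 1) :
    f % 3 = 1 ↔ (2 ∣ e ↔ 3 ∣ e) := by
  have hform : ((a ^ 6 + a ^ 6 + a ^ 6 + d ^ 6 : ℕ) : ℤ) =
      ((d : ℤ) ^ 3 - (a : ℤ) ^ 3) ^ 2 + ((d : ℤ) ^ 3 - (a : ℤ) ^ 3) * (2 * (a : ℤ) ^ 3)
        + (2 * (a : ℤ) ^ 3) ^ 2 := by push_cast; ring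
  have h2 := clause_loesch a a a d e f ha he h hprim ⟨_, _, hform⟩
  obtain ⟨g, e', t, he', ht, hcop, hee, hff, hg, hgd, hS, hg2, hg3, hf'2, hf'3, hpe, hpe3, h64, h729⟩ :=
    setting a a a d e f ha he h hprim
  have hdiv : f / Nat.gcd e f = e' + t := by
    rw [← hgd, hff]; exact Nat.mul_div_cancel_left _ hg
  rw [hdiv] at h2
  have hg1 : g % 3 = 1 := by
    apply one_mod_three g hg.ne' hg3
    intro q hq hq3
    have hnd : ¬ q ∣ g := by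
      intro hqg
      have hq2 : q ≠ 2 := by rintro rfl; omega
      have hqS : (q : ℤ) ∣ ((a ^ 6 + a ^ 6 + a ^ 6 + d ^ 6 : ℕ) : ℤ) := by
        rw [hS]
        exact Int.natCast_dvd_natCast.2 (Dvd.dvd.mul_right (dvd_pow hqg (by norm_num)) _)
      rw [hform] at hqS
      rcases prime_loesch q hq (by rintro rfl; omega) _ _ hqS with ⟨k1, k2⟩ | k
      · have hqp : Prime (q : ℤ) := Nat.prime_iff_prime_int.1 hq
        have ka : (q : ℤ) ∣ (a : ℤ) := by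
          rcases hqp.dvd_or_dvd k2 with k3 | k3
          · exfalso
            have : q ∣ 2 := by exact_mod_cast k3
            exact hq2 ((Nat.prime_dvd_prime_iff_eq hq Nat.prime_two).1 this)
          · exact hqp.dvd_of_dvd_pow k3
        have kd : (q : ℤ) ∣ (d : ℤ) := by
          have : (q : ℤ) ∣ (d : ℤ) ^ 3 := by
            have e1 : (d : ℤ) ^ 3 = ((d : ℤ) ^ 3 - (a : ℤ) ^ 3) + (a : ℤ) ^ 3 := by ring
            rw [e1]
            exact dvd_add k1 (dvd_pow ka (by norm_num))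
          exact hqp.dvd_of_dvd_pow this
        have ka' : q ∣ a := by exact_mod_cast ka
        have kd' : q ∣ d := by exact_mod_cast kd
        have := hprim q ka' ka' ka' kd' (by rw [hee]; exact Dvd.dvd.mul_right hqg _)
        rw [this] at hq
        exact Nat.not_prime_one hq
      · omega
    rw [padicValNat.eq_zero_of_not_dvd hnd]
    exact Even.zero
  rw [← h2, hff, Nat.mul_mod, hg1, one_mul, Nat.mod_mod]

end Pool.Agent.SixthPow
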