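import Mathlib

set_option autoImplicit false

namespace Pool.Agent.SixthPow

theorem odd_sq8 (d : ℤ) (h : d % 2 = 1) : ∃ k, d ^ 2 = 8 * k + 1 := by
  obtain ⟨j, hj⟩ : ∃ j, d = 2 * j + 1 := ⟨d / 2, by omega⟩
  obtain ⟨k, hk⟩ : (2 : ℤ) ∣ j * (j + 1) := (Int.even_mul_succ_self j).two_dvd
  exact ⟨k, by rw [hj]; linear_combination 4 * hk⟩

theorem four_numbers (x y m n : ℤ) (h : x * y = m * n) (hx : x ≠ 0) :
    ∃ a b c d : ℤ, x = a * b ∧ y = c * d ∧ m = a * c ∧ n = b * d ∧ IsCoprime b c := by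
  have hg : 0 < Int.gcd x m := Int.gcd_pos_of_ne_zero_left _ hx
  obtain ⟨b, hb⟩ : ((Int.gcd x m : ℕ) : ℤ) ∣ x := Int.gcd_dvd_left ..
  obtain ⟨c, hc⟩ : ((Int.gcd x m : ℕ) : ℤ) ∣ m := Int.gcd_dvd_right ..
  have ha0 : ((Int.gcd x m : ℕ) : ℤ) ≠ 0 := by exact_mod_cast hg.ne'
  have hbc : IsCoprime b c := by
    have hbez := Int.gcd_eq_gcd_ab x m
    refine ⟨Int.gcdA x m, Int.gcdB x m, ?_⟩
    apply mul_left_cancel₀ ha0
    have h1 : ((Int.gcd x m : ℕ) : ℤ) * (Int.gcdA x m * b + Int.gcdB x m * c)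
        = (((Int.gcd x m : ℕ) : ℤ) * b) * Int.gcdA x m + (((Int.gcd x m : ℕ) : ℤ) * c) * Int.gcdB x m := by ring
    rw [h1, ← hb, ← hc, mul_one]
    exact hbez.symm
  set a : ℤ := ((Int.gcd x m : ℕ) : ℤ) with hadef
  have h2 : b * y = c * n := by
    apply mul_left_cancel₀ ha0
    calc a * (b * y) = (a * b) * y := by ring
      _ = x * y := by rw [← hb]
      _ = m * n := h
      _ = (a * c) * n := by rw [← hc]
      _ = a * (c * n) := by ring
  have hb0 : b ≠ 0 := by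
    rintro rfl
    apply hx
    rw [hb, mul_zero]
  obtain ⟨d, hd⟩ : b ∣ n := hbc.dvd_of_dvd_mul_left ⟨y, h2.symm⟩
  refine ⟨a, b, c, d, hb, ?_, hc, hd, hbc⟩
  apply mul_left_cancel₀ hb0
  rw [h2, hd]; ring

theorem coreH (a b c d : ℤ) (h1 : b ^ 2 + a ^ 2 = d ^ 2) (h2 : c ^ 2 + 4 * a ^ 2 = d ^ 2)
    (hd : d % 2 = 1) (hc : c % 2 = 1) (had : IsCoprime a d) (ha : a ≠ 0) :
    ∃ U W u w : ℤ, U ^ 2 + W ^ 2 = u ^ 2 + w ^ 2 ∧ U * W = 2 * (u * w) ∧ IsCoprime U W ∧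
      IsCoprime u w ∧ U * W ≠ 0 ∧ U ^ 2 + W ^ 2 = |d| := by
  have hae : a % 2 = 0 := by
    by_contra h
    obtain ⟨k1, hk1⟩ := odd_sq8 a (by omega)
    obtain ⟨k2, hk2⟩ := odd_sq8 c hc
    obtain ⟨k3, hk3⟩ := odd_sq8 d hd
    omega
  have hb : b % 2 = 1 := by
    by_contra h
    obtain ⟨b', hb'⟩ : ∃ b', b = 2 * b' := ⟨b / 2, by omega⟩
    obtain ⟨a', ha'⟩ : ∃ a', a = 2 * a' := ⟨a / 2, by omega⟩
    obtain ⟨k3, hk3⟩ := odd_sq8 d hd
    rw [hb', ha', hk3] at h1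
    ring_nf at h1
    omega
  have hd0 : 0 < |d| := by
    rw [abs_pos]; rintro rfl; simp at hd
  have hdd : |d| * |d| = d ^ 2 := by rw [abs_mul_abs_self]; ring
  have hgab : Int.gcd b a = 1 := by
    rw [← Int.isCoprime_iff_gcd_eq_one]
    have : IsCoprime (d ^ 2) a := had.symm.pow_left
    rw [← h1] at this
    have h3 : IsCoprime (b ^ 2) a := by
      have h4 : b ^ 2 + a ^ 2 = b ^ 2 + a * a := by ring
      rw [h4] at this
      exact (IsCoprime.add_mul_left_left_iff).1 this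
    exact (IsCoprime.pow_left_iff (by norm_num)).1 h3
  have hgca : Int.gcd c (2 * a) = 1 := by
    rw [← Int.isCoprime_iff_gcd_eq_one]
    have hd2 : IsCoprime d (2 * a) := by
      refine IsCoprime.mul_right ?_ had.symm
      rw [Int.isCoprime_iff_gcd_eq_one]
      have : ¬ ((2 : ℤ) ∣ d) := by omega
      have h5 := (Int.isCoprime_iff_gcd_eq_one.1 ((Prime.coprime_iff_not_dvd Int.prime_two).2 this))
      rw [Int.gcd_comm]; exact h5
    have : IsCoprime (d ^ 2) (2 * a) := hd2.pow_left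
    rw [← h2] at this
    have h3 : IsCoprime (c ^ 2) (2 * a) := by
      have h4 : c ^ 2 + 4 * a ^ 2 = c ^ 2 + (2 * a) * (2 * a) := by ring
      rw [h4] at this
      exact (IsCoprime.add_mul_left_left_iff).1 this
    exact (IsCoprime.pow_left_iff (by norm_num)).1 h3
  obtain ⟨u, w, hu1, hu2, hu3, hu4, -, -⟩ := PythagoreanTriple.coprime_classification'
    (x := b) (y := a) (z := |d|) (by unfold PythagoreanTriple; rw [hdd, ← h1]; ring) hgab hb hd0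
  obtain ⟨U, W, hU1, hU2, hU3, hU4, -, -⟩ := PythagoreanTriple.coprime_classification'
    (x := c) (y := 2 * a) (z := |d|) (by unfold PythagoreanTriple; rw [hdd, ← h2]; ring) hgca hc hd0
  have hUW : U * W = a := by linarith
  refine ⟨U, W, u, w, by rw [← hU3, ← hu3], by rw [hUW, hu2]; ring,
    Int.isCoprime_iff_gcd_eq_one.2 hU4, Int.isCoprime_iff_gcd_eq_one.2 hu4, by rw [hUW]; exact ha,
    hU3.symm⟩

theorem odd_of_coprime_even (x y : ℤ) (h : IsCoprime (2 * x) y) : y % 2 = 1 := by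
  by_contra hc
  have h2 : (2 : ℤ) ∣ y := by omega
  have h3 : (2 : ℤ) ∣ 1 := by
    obtain ⟨s, t, hst⟩ := h
    rw [← hst]
    exact dvd_add (Dvd.intro (s * x) (by ring)) (Dvd.dvd.mul_left h2 t)
  omega

theorem dvd_three_cases (k : ℤ) (h : k ∣ 3) : k = 1 ∨ k = -1 ∨ k = 3 ∨ k = -3 := by
  have h1 : k ≤ 3 := Int.le_of_dvd (by norm_num) h
  have h2 : -k ≤ 3 := Int.le_of_dvd (by norm_num) ((neg_dvd).2 h)
  obtain ⟨j, hj⟩ := h
  have h3 : -3 ≤ k := by linarith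
  interval_cases k <;> omega

theorem stepH (x y m n : ℤ) (h1 : (2 * x) ^ 2 + y ^ 2 = m ^ 2 + n ^ 2) (h2 : x * y = m * n)
    (hxy : IsCoprime (2 * x) y) (h0 : x * y ≠ 0) :
    ∃ U W u w : ℤ, U ^ 2 + W ^ 2 = u ^ 2 + w ^ 2 ∧ U * W = 2 * (u * w) ∧ IsCoprime U W ∧
      IsCoprime u w ∧ U * W ≠ 0 ∧ U ^ 2 + W ^ 2 < (2 * x) ^ 2 + y ^ 2 := by
  have hx : x ≠ 0 := left_ne_zero_of_mul h0
  have hy : y ≠ 0 := right_ne_zero_of_mul h0
  have hyo := odd_of_coprime_even x y hxy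
  obtain ⟨a, b, c, d, rfl, rfl, rfl, rfl, hbc⟩ := four_numbers x y m n h2 hx
  have ha : a ≠ 0 := left_ne_zero_of_mul hx
  have hb : b ≠ 0 := right_ne_zero_of_mul hx
  have hc : c ≠ 0 := left_ne_zero_of_mul hy
  have hd : d ≠ 0 := right_ne_zero_of_mul hy
  have hco : c % 2 = 1 := by
    by_contra h
    obtain ⟨c', hc'⟩ : ∃ c', c = 2 * c' := ⟨c / 2, by omega⟩
    rw [hc', mul_assoc] at hyo
    omega
  have hdo : d % 2 = 1 := by
    by_contra h
    obtain ⟨d', hd'⟩ : ∃ d', d = 2 * d' := ⟨d / 2, by omega⟩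
    have : c * d = 2 * (c * d') := by rw [hd']; ring
    rw [this] at hyo
    omega
  have had : IsCoprime a d := by
    have h3 : IsCoprime a (c * d) := by
      have h4 : 2 * (a * b) = a * (2 * b) := by ring
      rw [h4] at hxy
      exact hxy.of_mul_left_left
    exact h3.of_mul_right_right
  have hkey : c ^ 2 * (d ^ 2 - a ^ 2) = b ^ 2 * (d ^ 2 - 4 * a ^ 2) := by linear_combination h1
  have hbc2 : IsCoprime (b ^ 2) (c ^ 2) := hbc.pow
  obtain ⟨k, hk⟩ : b ^ 2 ∣ d ^ 2 - a ^ 2 := hbc2.dvd_of_dvd_mul_left ⟨_, hkey⟩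
  have hk2 : d ^ 2 - 4 * a ^ 2 = c ^ 2 * k := by
    apply mul_left_cancel₀ (pow_ne_zero 2 hb)
    rw [← hkey, hk]; ring
  have hk3 : k ∣ 3 := by
    obtain ⟨s, t, hst⟩ : IsCoprime (a ^ 2) (d ^ 2) := had.pow
    have e1 : (3 : ℤ) = k * (s * (b ^ 2 - c ^ 2) + t * (4 * b ^ 2 - c ^ 2)) := by
      have e2 : k * (b ^ 2 - c ^ 2) = 3 * a ^ 2 := by linear_combination hk2 - hk
      have e3 : k * (4 * b ^ 2 - c ^ 2) = 3 * d ^ 2 := by linear_combination hk2 - 4 * hk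
      linear_combination -3 * hst - s * e2 - t * e3
    exact ⟨_, e1⟩
  obtain ⟨kc, hkc⟩ := odd_sq8 c hco
  obtain ⟨kd, hkd⟩ := odd_sq8 d hdo
  have hsz : ∀ t : ℤ, (t = c ∨ t = d) → |t| < (2 * (a * b)) ^ 2 + (c * d) ^ 2 := by
    intro t ht
    have ha1 : 0 < (2 * (a * b)) ^ 2 := by positivity
    have hc1 : 1 ≤ |c| := Int.one_le_abs hc
    have hd1 : 1 ≤ |d| := Int.one_le_abs hd
    have : (c * d) ^ 2 = |c| ^ 2 * |d| ^ 2 := by rw [sq_abs, sq_abs]; ring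
    rw [this]
    rcases ht with rfl | rfl
    · nlinarith [mul_le_mul hc1 hc1 (by norm_num) (by positivity), mul_le_mul hd1 hd1 (by norm_num) (by positivity), sq_nonneg (|t| - 1), sq_nonneg (|d| - 1)]
    · nlinarith [mul_le_mul hc1 hc1 (by norm_num) (by positivity), mul_le_mul hd1 hd1 (by norm_num) (by positivity), sq_nonneg (|c| - 1), sq_nonneg (|t| - 1)]
  rcases dvd_three_cases k hk3 with rfl | rfl | rfl | rfl
  · obtain ⟨U, W, u, w, g1, g2, g3, g4, g5, g6⟩ := coreH a b c d (by linarith) (by linarith) hdo hco had ha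
    exact ⟨U, W, u, w, g1, g2, g3, g4, g5, by rw [g6]; exact hsz d (Or.inr rfl)⟩
  · exfalso; omega
  · exfalso; omega
  · have hac : IsCoprime b c := hbc
    have e1 : a ^ 2 + b ^ 2 = c ^ 2 := by nlinarith
    have e2 : d ^ 2 + 4 * b ^ 2 = c ^ 2 := by nlinarith
    obtain ⟨U, W, u, w, g1, g2, g3, g4, g5, g6⟩ := coreH b a d c (by linarith) (by linarith) hco hdo hbc hb
    exact ⟨U, W, u, w, g1, g2, g3, g4, g5, by rw [g6]; exact hsz c (Or.inl rfl)⟩

theorem sysH (N : ℕ) : ∀ x y m n : ℤ, x ^ 2 + y ^ 2 = m ^ 2 + n ^ 2 → x * y = 2 * (m * n) →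
    IsCoprime x y → x * y ≠ 0 → (x ^ 2 + y ^ 2).natAbs = N → False := by
  induction N using Nat.strong_induction_on with
  | _ N ih =>
    intro x y m n h1 h2 hxy h0 hN
    have hstep : ∀ x y : ℤ, x ^ 2 + y ^ 2 = m ^ 2 + n ^ 2 → x * y = 2 * (m * n) →
        IsCoprime x y → x * y ≠ 0 → (x ^ 2 + y ^ 2).natAbs = N → x % 2 = 0 → False := by
      intro x y h1 h2 hxy h0 hN hx
      obtain ⟨x', rfl⟩ : ∃ x', x = 2 * x' := ⟨x / 2, by omega⟩
      have h2' : x' * y = m * n := by linarith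
      have h0' : x' * y ≠ 0 := by
        intro h; apply h0; rw [mul_assoc, h, mul_zero]
      obtain ⟨U, W, u, w, g1, g2, g3, g4, g5, g6⟩ := stepH x' y m n h1 h2' hxy h0'
      have hpos : 0 ≤ U ^ 2 + W ^ 2 := by positivity
      exact ih _ (by rw [← hN]; omega) U W u w g1 g2 g3 g5 rfl
    by_cases hx : x % 2 = 0
    · exact hstep x y h1 h2 hxy h0 hN hx
    · by_cases hy : y % 2 = 0
      · exact hstep y x (by linarith) (by linarith) hxy.symm (by rwa [mul_comm]) (by rw [add_comm]; exact hN) hy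
      · have : (x * y) % 2 = 1 := by
          rw [Int.mul_emod]
          have hx1 : x % 2 = 1 := by omega
          have hy1 : y % 2 = 1 := by omega
          rw [hx1, hy1]; rfl
        rw [h2] at this
        omega

end Pool.Agent.SixthPow
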