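import Pool.Agent.SixthPow.DescH

set_option autoImplicit false

namespace Pool.Agent.SixthPow

theorem pyth_one (x y z : ℤ) (h : x ^ 4 + x ^ 2 * y ^ 2 + y ^ 4 = z ^ 2) (hxy : IsCoprime x y) :
    x * y = 0 := by
  by_contra h0
  have hx : x ≠ 0 := left_ne_zero_of_mul h0
  have hpar : z % 2 = 1 ∧ (x * y) % 2 = 0 := by
    rcases Int.emod_two_eq_zero_or_one x with hx2 | hx2 <;>
      rcases Int.emod_two_eq_zero_or_one y with hy2 | hy2
    · exfalso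
      have h2 : (2 : ℤ) ∣ 1 := by
        obtain ⟨s, t, hst⟩ := hxy
        rw [← hst]
        exact dvd_add (Dvd.dvd.mul_left (by omega) s) (Dvd.dvd.mul_left (by omega) t)
      omega
    · obtain ⟨x', rfl⟩ : ∃ x', x = 2 * x' := ⟨x / 2, by omega⟩
      obtain ⟨y', rfl⟩ : ∃ y', y = 2 * y' + 1 := ⟨y / 2, by omega⟩
      refine ⟨?_, by rw [mul_assoc]; omega⟩
      by_contra hz
      obtain ⟨z', rfl⟩ : ∃ z', z = 2 * z' := ⟨z / 2, by omega⟩
      ring_nf at h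
      omega
    · obtain ⟨x', rfl⟩ : ∃ x', x = 2 * x' + 1 := ⟨x / 2, by omega⟩
      obtain ⟨y', rfl⟩ : ∃ y', y = 2 * y' := ⟨y / 2, by omega⟩
      refine ⟨?_, by
        have : (2 * x' + 1) * (2 * y') = 2 * ((2 * x' + 1) * y') := by ring
        rw [this]; omega⟩
      by_contra hz
      obtain ⟨z', rfl⟩ : ∃ z', z = 2 * z' := ⟨z / 2, by omega⟩
      ring_nf at h
      omega
    · exfalso
      obtain ⟨k1, hk1⟩ := odd_sq8 x hx2
      obtain ⟨k2, hk2⟩ := odd_sq8 y hy2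
      have h4 : (8 * k1 + 1) ^ 2 + (8 * k1 + 1) * (8 * k2 + 1) + (8 * k2 + 1) ^ 2 = z ^ 2 := by
        rw [← hk1, ← hk2, ← h]; ring
      rcases Int.emod_two_eq_zero_or_one z with hz | hz
      · obtain ⟨z', rfl⟩ : ∃ z', z = 2 * z' := ⟨z / 2, by omega⟩
        ring_nf at h4
        omega
      · obtain ⟨k3, hk3⟩ := odd_sq8 z hz
        rw [hk3] at h4
        ring_nf at h4
        omega
  have hc1 : IsCoprime (x ^ 2 + y ^ 2) (x * y) := by
    refine IsCoprime.mul_right ?_ ?_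
    · have : x ^ 2 + y ^ 2 = y ^ 2 + x * x := by ring
      rw [this]
      exact (IsCoprime.add_mul_left_left_iff).2 hxy.symm.pow_left
    · have : x ^ 2 + y ^ 2 = x ^ 2 + y * y := by ring
      rw [this]
      exact (IsCoprime.add_mul_left_left_iff).2 hxy.pow_left
  have hc2 : IsCoprime z (x * y) := by
    have h3 : IsCoprime ((x ^ 2 + y ^ 2) ^ 2) (x * y) := hc1.pow_left
    have h4 : (x ^ 2 + y ^ 2) ^ 2 = z ^ 2 + (x * y) * (x * y) := by rw [← h]; ring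
    rw [h4] at h3
    exact (IsCoprime.pow_left_iff (by norm_num)).1 ((IsCoprime.add_mul_left_left_iff).1 h3)
  have hpos : 0 < x ^ 2 + y ^ 2 := by positivity
  obtain ⟨m, n, e1, e2, e3, e4, -, -⟩ := PythagoreanTriple.coprime_classification'
    (x := z) (y := x * y) (z := x ^ 2 + y ^ 2) (by unfold PythagoreanTriple; linear_combination -h)
    (Int.isCoprime_iff_gcd_eq_one.1 hc2) hpar.1 hpos
  exact sysH _ x y m n e3 (by rw [e2]; ring) hxy h0 rfl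

theorem pow_of_coprime_nonneg (a b c : ℤ) (h : IsCoprime a b) (ha : 0 ≤ a) (heq : a * b = c ^ 2) :
    ∃ t : ℤ, 0 ≤ t ∧ a = t ^ 2 := by
  obtain ⟨t, ht⟩ := Int.sq_of_gcd_eq_one (Int.isCoprime_iff_gcd_eq_one.1 h) heq
  rcases ht with ht | ht
  · exact ⟨|t|, abs_nonneg _, by rw [sq_abs]; exact ht⟩
  · have : t = 0 := by
      have : t ^ 2 = 0 := le_antisymm (by linarith) (sq_nonneg _)
      exact pow_eq_zero_iff (by norm_num) |>.1 this
    exact ⟨0, le_refl _, by rw [ht, this]; ring⟩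

theorem not_three_dvd_sq (p : ℤ) (h : ¬ (3 : ℤ) ∣ p) : p ^ 2 % 3 = 1 := by
  have : p % 3 = 1 ∨ p % 3 = 2 := by omega
  rcases this with h | h <;> rw [pow_two, Int.mul_emod, h] <;> rfl

/-- splitting `A² − p² = 12 s²` with `A > 0`, `A` coprime to `6p`: up to the sign of `p`,
`A = 3g² + h²`, `p = h² − 3g²`. -/
theorem split12 (p s A : ℤ) (hA : 0 < A) (h : A ^ 2 - p ^ 2 = 12 * s ^ 2) (hcop : IsCoprime A p)
    (hAo : A % 2 = 1) (hpo : p % 2 = 1) (hs : s ≠ 0) :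
    ∃ g k : ℤ, 0 ≤ g ∧ 0 ≤ k ∧ A = 3 * g ^ 2 + k ^ 2 ∧ (p = k ^ 2 - 3 * g ^ 2 ∨ p = 3 * g ^ 2 - k ^ 2) ∧
      g * k = |s| ∧ IsCoprime g k := by
  obtain ⟨M, hM⟩ : ∃ M, A - p = 2 * M := ⟨(A - p) / 2, by omega⟩
  obtain ⟨N, hN⟩ : ∃ N, A + p = 2 * N := ⟨(A + p) / 2, by omega⟩
  have hA' : A = M + N := by linarith
  have hp' : p = N - M := by linarith
  have hMN : M * N = 3 * s ^ 2 := by
    have : 4 * (M * N) = 12 * s ^ 2 := by rw [← h, hA', hp']; ring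
    linarith
  have hcMN : IsCoprime M N := by
    obtain ⟨u, v, huv⟩ := hcop
    refine ⟨u - v, u + v, ?_⟩
    rw [← huv, hA', hp']; ring
  have hs2 : 0 < s ^ 2 := by positivity
  have hMpos : 0 < M := by
    by_contra hneg
    have h1 : M ≤ 0 := by linarith
    have h2 : 0 < N := by linarith
    nlinarith
  have hNpos : 0 < N := by
    by_contra hneg
    have h1 : N ≤ 0 := by linarith
    nlinarith
  have h3 : (3 : ℤ) ∣ M * N := ⟨s ^ 2, hMN⟩
  have key : ∀ M N : ℤ, M * N = 3 * s ^ 2 → IsCoprime M N → 0 < M → 0 < N → (3 : ℤ) ∣ M →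
      ∃ g k : ℤ, 0 ≤ g ∧ 0 ≤ k ∧ M = 3 * g ^ 2 ∧ N = k ^ 2 ∧ g * k = |s| ∧ IsCoprime g k := by
    intro M N hMN hc hM hN h3
    obtain ⟨M', rfl⟩ := h3
    have h4 : M' * N = s ^ 2 := by linarith
    have hM' : 0 ≤ M' := by linarith
    have hc' : IsCoprime M' N := hc.of_mul_left_right
    obtain ⟨g, hg0, hg⟩ := pow_of_coprime_nonneg M' N s hc' hM' h4
    obtain ⟨k, hk0, hk⟩ := pow_of_coprime_nonneg N M' s hc'.symm hN.le (by rw [mul_comm]; exact h4)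
    refine ⟨g, k, hg0, hk0, by rw [hg], hk, ?_, ?_⟩
    · have h5 : (g * k) ^ 2 = s ^ 2 := by rw [← h4, hg, hk]; ring
      have h6 := (sq_eq_sq_iff_abs_eq_abs _ _).1 h5
      rw [abs_of_nonneg (mul_nonneg hg0 hk0)] at h6
      exact h6
    · rw [hg, hk] at hc'
      exact (IsCoprime.pow_iff (by norm_num) (by norm_num)).1 hc'
  rcases Int.prime_three.dvd_or_dvd h3 with h3 | h3
  · obtain ⟨g, k, g1, g2, g3, g4, g5, g6⟩ := key M N hMN hcMN hMpos hNpos h3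
    exact ⟨g, k, g1, g2, by rw [hA', g3, g4], Or.inl (by rw [hp', g3, g4]), g5, g6⟩
  · obtain ⟨g, k, g1, g2, g3, g4, g5, g6⟩ := key N M (by rw [mul_comm]; exact hMN) hcMN.symm hNpos hMpos h3
    exact ⟨g, k, g1, g2, by rw [hA', g3, g4]; ring, Or.inr (by rw [hp', g3, g4]), g5, g6⟩

/-- splitting `B² − p² = 108 s²`. -/
theorem split108 (p s B : ℤ) (hB : 0 < B) (h : B ^ 2 - p ^ 2 = 108 * s ^ 2) (hcop : IsCoprime B p)
    (hBo : B % 2 = 1) (hpo : p % 2 = 1) (hs : s ≠ 0) :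
    ∃ G K : ℤ, 0 ≤ G ∧ 0 ≤ K ∧ B = 27 * G ^ 2 + K ^ 2 ∧ (p = K ^ 2 - 27 * G ^ 2 ∨ p = 27 * G ^ 2 - K ^ 2) ∧
      G * K = |s| ∧ IsCoprime G K := by
  obtain ⟨M, hM⟩ : ∃ M, B - p = 2 * M := ⟨(B - p) / 2, by omega⟩
  obtain ⟨N, hN⟩ : ∃ N, B + p = 2 * N := ⟨(B + p) / 2, by omega⟩
  have hB' : B = M + N := by linarith
  have hp' : p = N - M := by linarith
  have hMN : M * N = 27 * s ^ 2 := by
    have : 4 * (M * N) = 108 * s ^ 2 := by rw [← h, hB', hp']; ring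
    linarith
  have hcMN : IsCoprime M N := by
    obtain ⟨u, v, huv⟩ := hcop
    refine ⟨u - v, u + v, ?_⟩
    rw [← huv, hB', hp']; ring
  have hs2 : 0 < s ^ 2 := by positivity
  have hMpos : 0 < M := by
    by_contra hneg
    have h1 : M ≤ 0 := by linarith
    have h2 : 0 < N := by linarith
    nlinarith
  have hNpos : 0 < N := by
    by_contra hneg
    have h1 : N ≤ 0 := by linarith
    nlinarith
  have h3 : (3 : ℤ) ∣ M * N := ⟨9 * s ^ 2, by rw [hMN]; ring⟩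
  have key : ∀ M N : ℤ, M * N = 27 * s ^ 2 → IsCoprime M N → 0 < M → 0 < N → (3 : ℤ) ∣ M →
      ∃ g k : ℤ, 0 ≤ g ∧ 0 ≤ k ∧ M = 27 * g ^ 2 ∧ N = k ^ 2 ∧ g * k = |s| ∧ IsCoprime g k := by
    intro M N hMN hc hM hN h3
    have h3N : IsCoprime (3 : ℤ) N := by
      obtain ⟨M', rfl⟩ := h3
      exact hc.of_mul_left_left
    have h27 : (27 : ℤ) ∣ M := by
      have : IsCoprime (3 ^ 3 : ℤ) N := h3N.pow_left
      have h5 : (3 ^ 3 : ℤ) ∣ M * N := ⟨s ^ 2, by rw [hMN]; norm_num⟩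
      have h6 := this.dvd_of_dvd_mul_right h5
      norm_num at h6
      exact h6
    obtain ⟨M', rfl⟩ := h27
    have h4 : M' * N = s ^ 2 := by linarith
    have hM' : 0 ≤ M' := by linarith
    have hc' : IsCoprime M' N := hc.of_mul_left_right
    obtain ⟨g, hg0, hg⟩ := pow_of_coprime_nonneg M' N s hc' hM' h4
    obtain ⟨k, hk0, hk⟩ := pow_of_coprime_nonneg N M' s hc'.symm hN.le (by rw [mul_comm]; exact h4)
    refine ⟨g, k, hg0, hk0, by rw [hg], hk, ?_, ?_⟩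
    · have h5 : (g * k) ^ 2 = s ^ 2 := by rw [← h4, hg, hk]; ring
      have h6 := (sq_eq_sq_iff_abs_eq_abs _ _).1 h5
      rw [abs_of_nonneg (mul_nonneg hg0 hk0)] at h6
      exact h6
    · rw [hg, hk] at hc'
      exact (IsCoprime.pow_iff (by norm_num) (by norm_num)).1 hc'
  rcases Int.prime_three.dvd_or_dvd h3 with h3 | h3
  · obtain ⟨g, k, g1, g2, g3, g4, g5, g6⟩ := key M N hMN hcMN hMpos hNpos h3
    exact ⟨g, k, g1, g2, by rw [hB', g3, g4], Or.inl (by rw [hp', g3, g4]), g5, g6⟩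
  · obtain ⟨g, k, g1, g2, g3, g4, g5, g6⟩ := key N M (by rw [mul_comm]; exact hMN) hcMN.symm hNpos hMpos h3
    exact ⟨g, k, g1, g2, by rw [hB', g3, g4]; ring, Or.inr (by rw [hp', g3, g4]), g5, g6⟩

end Pool.Agent.SixthPow
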