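import Pool.Agent.SixthPow.Quartic

set_option autoImplicit false

namespace Pool.Agent.SixthPow


/-- coprime nonnegative integers whose product is a fourth power are fourth powers. -/
theorem fourth_of_coprime (A B X : ℤ) (h : IsCoprime A B) (hA : 0 ≤ A) (hB : 0 ≤ B)
    (heq : A * B = X ^ 4) : ∃ s r : ℤ, 0 ≤ s ∧ 0 ≤ r ∧ A = s ^ 4 ∧ B = r ^ 4 ∧ s * r = |X| ∧ IsCoprime s r := by
  have h2 : A * B = (X ^ 2) ^ 2 := by rw [heq]; ring
  obtain ⟨s0, hs0, hs⟩ := pow_of_coprime_nonneg A B (X ^ 2) h hA h2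
  obtain ⟨r0, hr0, hr⟩ := pow_of_coprime_nonneg B A (X ^ 2) h.symm hB (by rw [mul_comm]; exact h2)
  have hc0 : IsCoprime s0 r0 := by
    rw [hs, hr] at h
    exact (IsCoprime.pow_iff (by norm_num) (by norm_num)).1 h
  have h3 : s0 * r0 = X ^ 2 := by
    have h4 : (s0 * r0) ^ 2 = (X ^ 2) ^ 2 := by rw [← h2, hs, hr]; ring
    have h5 := (sq_eq_sq_iff_abs_eq_abs _ _).1 h4
    rw [abs_of_nonneg (mul_nonneg hs0 hr0), abs_of_nonneg (sq_nonneg X)] at h5
    exact h5
  obtain ⟨s, hs1, hs2⟩ := pow_of_coprime_nonneg s0 r0 X hc0 hs0 h3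
  obtain ⟨r, hr1, hr2⟩ := pow_of_coprime_nonneg r0 s0 X hc0.symm hr0 (by rw [mul_comm]; exact h3)
  refine ⟨s, r, hs1, hr1, by rw [hs, hs2]; ring, by rw [hr, hr2]; ring, ?_, ?_⟩
  · have h4 : (s * r) ^ 2 = X ^ 2 := by rw [← h3, hs2, hr2]; ring
    have h5 := (sq_eq_sq_iff_abs_eq_abs _ _).1 h4
    rw [abs_of_nonneg (mul_nonneg hs1 hr1)] at h5
    exact h5
  · rw [hs2, hr2] at hc0
    exact (IsCoprime.pow_iff (by norm_num) (by norm_num)).1 hc0

/-- `C, D` positive coprime with `CD = 3 s⁴`. -/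
theorem split3 (C D s : ℤ) (hC : 0 < C) (hD : 0 < D) (hcop : IsCoprime C D) (h : C * D = 3 * s ^ 4) :
    ∃ u v : ℤ, C + D = 3 * u ^ 4 + v ^ 4 ∧ |u| * |v| = |s| ∧ IsCoprime u v := by
  have key : ∀ C D : ℤ, 0 < C → 0 < D → IsCoprime C D → C * D = 3 * s ^ 4 → (3 : ℤ) ∣ C →
      ∃ u v : ℤ, C + D = 3 * u ^ 4 + v ^ 4 ∧ |u| * |v| = |s| ∧ IsCoprime u v := by
    intro C D hC hD hcop h h3
    obtain ⟨C', rfl⟩ := h3
    have h4 : C' * D = s ^ 4 := by linarith
    obtain ⟨u, v, hu, hv, h5, h6, h7, h8⟩ := fourth_of_coprime C' D s hcop.of_mul_left_right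
      (by linarith) hD.le h4
    exact ⟨u, v, by rw [h5, h6], by rw [abs_of_nonneg hu, abs_of_nonneg hv, h7], h8⟩
  have h3 : (3 : ℤ) ∣ C * D := ⟨_, h⟩
  rcases Int.prime_three.dvd_or_dvd h3 with h3 | h3
  · exact key C D hC hD hcop h h3
  · obtain ⟨u, v, h1, h2, h4⟩ := key D C hD hC hcop.symm (by rw [mul_comm]; exact h) h3
    exact ⟨u, v, by rw [add_comm]; exact h1, h2, h4⟩

theorem coprime_of_sqfree (A B k X w : ℤ) (hk : Squarefree k) (h : A * B = k * X ^ 4)
    (h0 : A ≠ 0) (hw : ∀ p : ℤ, Prime p → p ∣ X → p ∣ A → p ∣ B → p ∣ w) (hXw : IsCoprime X w) :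
    IsCoprime A B := by
  apply isCoprime_of_prime_dvd (fun h => h0 h.1)
  intro p hp hA hB
  have hpp : p * p ∣ k * X ^ 4 := by rw [← h]; exact mul_dvd_mul hA hB
  have hpX : p ∣ X := by
    by_contra hpX
    have hc : IsCoprime p X := (Prime.coprime_iff_not_dvd hp).2 hpX
    have hc2 : IsCoprime (p * p) (X ^ 4) := (hc.mul_left hc).pow_right
    exact hp.not_isUnit (hk p (hc2.dvd_of_dvd_mul_right hpp))
  have hpw := hw p hp hpX hA hB
  obtain ⟨s, t, hst⟩ := hXw
  apply hp.not_isUnit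
  apply isUnit_of_dvd_one
  rw [← hst]
  exact dvd_add (Dvd.dvd.mul_left hpX s) (Dvd.dvd.mul_left hpw t)

theorem pos_pair (A B : ℤ) (h : 0 < A * B) (hs : 0 < A + B) : 0 < A ∧ 0 < B := by
  rcases pos_and_pos_or_neg_and_neg_of_mul_pos h with h1 | h1
  · exact h1
  · omega

theorem sq_sub_pos (r s : ℤ) (h : s ^ 4 < r ^ 4) : 0 < r ^ 2 - s ^ 2 := by
  by_contra hneg
  have h6 : r ^ 2 ≤ s ^ 2 := by linarith
  have h8 := mul_le_mul h6 h6 (sq_nonneg r) (sq_nonneg s)
  have e1 : r ^ 2 * r ^ 2 = r ^ 4 := by ring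
  have e2 : s ^ 2 * s ^ 2 = s ^ 4 := by ring
  rw [e1, e2] at h8
  exact absurd h (not_lt.2 h8)

theorem sysR (N : ℕ) : ∀ X Y Z : ℤ, Z ^ 2 = 3 * X ^ 4 + X ^ 2 * Y ^ 2 + Y ^ 4 → IsCoprime X Y →
    X ≠ 0 → X.natAbs = N → False := by
  induction N using Nat.strong_induction_on with
  | _ N ih =>
    intro X Y Z h hXY hX hN
    -- X is even, Y is odd
    have hpar : X % 2 = 0 ∧ Y % 2 = 1 ∧ Z % 2 = 1 := by
      have h2 : ¬ (X % 2 = 0 ∧ Y % 2 = 0) := by
        rintro ⟨h1, h2⟩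
        have h2 : (2 : ℤ) ∣ 1 := by
          obtain ⟨s, t, hst⟩ := hXY
          rw [← hst]
          exact dvd_add (Dvd.dvd.mul_left (by omega) s) (Dvd.dvd.mul_left (by omega) t)
        omega
      rcases Int.emod_two_eq_zero_or_one X with hx | hx
      · have hy : Y % 2 = 1 := by omega
        refine ⟨hx, hy, ?_⟩
        obtain ⟨x, rfl⟩ : ∃ x, X = 2 * x := ⟨X / 2, by omega⟩
        obtain ⟨y, rfl⟩ : ∃ y, Y = 2 * y + 1 := ⟨Y / 2, by omega⟩
        by_contra hz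
        obtain ⟨z, rfl⟩ : ∃ z, Z = 2 * z := ⟨Z / 2, by omega⟩
        ring_nf at h
        omega
      · exfalso
        obtain ⟨x, rfl⟩ : ∃ x, X = 2 * x + 1 := ⟨X / 2, by omega⟩
        rcases Int.emod_two_eq_zero_or_one Y with hy | hy
        · obtain ⟨y, rfl⟩ : ∃ y, Y = 2 * y := ⟨Y / 2, by omega⟩
          rcases Int.emod_two_eq_zero_or_one Z with hz | hz
          · obtain ⟨z, rfl⟩ : ∃ z, Z = 2 * z := ⟨Z / 2, by omega⟩
            ring_nf at h
            omega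
          · obtain ⟨z, rfl⟩ : ∃ z, Z = 2 * z + 1 := ⟨Z / 2, by omega⟩
            ring_nf at h
            omega
        · obtain ⟨kx, hkx⟩ := odd_sq8 (2 * x + 1) (by omega)
          obtain ⟨ky, hky⟩ := odd_sq8 Y hy
          have h5 : Z ^ 2 = 3 * (8 * kx + 1) ^ 2 + (8 * kx + 1) * (8 * ky + 1) + (8 * ky + 1) ^ 2 := by
            rw [h, ← hkx, ← hky]; ring
          rcases Int.emod_two_eq_zero_or_one Z with hz | hz
          · obtain ⟨z, rfl⟩ : ∃ z, Z = 2 * z := ⟨Z / 2, by omega⟩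
            ring_nf at h5
            omega
          · obtain ⟨kz, hkz⟩ := odd_sq8 Z hz
            rw [hkz] at h5
            ring_nf at h5
            omega
    obtain ⟨hXe, hYo, hZo⟩ := hpar
    obtain ⟨x, rfl⟩ : ∃ x, X = 2 * x := ⟨X / 2, by omega⟩
    have hx0 : x ≠ 0 := by rintro rfl; exact hX (by ring)
    have hxY : IsCoprime x Y := hXY.of_mul_left_right
    have hZabs : |Z| % 2 = 1 := by
      rcases abs_choice Z with h | h <;> rw [h]
      · exact hZo
      · omega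
    have hZpos : 0 < |Z| := by rw [abs_pos]; rintro rfl; simp at hZo
    obtain ⟨kY, hkY⟩ := odd_sq8 Y hYo
    obtain ⟨A, hA⟩ : ∃ A, |Z| - (Y ^ 2 + 2 * x ^ 2) = 2 * A := ⟨(|Z| - (Y ^ 2 + 2 * x ^ 2)) / 2, by omega⟩
    obtain ⟨B, hB⟩ : ∃ B, |Z| + (Y ^ 2 + 2 * x ^ 2) = 2 * B := ⟨(|Z| + (Y ^ 2 + 2 * x ^ 2)) / 2, by omega⟩
    have hZZ : |Z| ^ 2 = Z ^ 2 := sq_abs Z
    have hAB : A * B = 11 * x ^ 4 := by
      have : 4 * (A * B) = 44 * x ^ 4 := by
        have e1 : 4 * (A * B) = (2 * A) * (2 * B) := by ring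
        rw [e1, ← hA, ← hB]
        linear_combination hZZ + h
      linarith
    have hBA : B - A = Y ^ 2 + 2 * x ^ 2 := by linarith
    have hAB' : A + B = |Z| := by linarith
    have hx4 : 0 < x ^ 4 := by positivity
    have hApos : 0 < A := (pos_pair A B (by rw [hAB]; positivity) (by rw [hAB']; exact hZpos)).1
    have hBpos : 0 < B := by
      have : 0 ≤ Y ^ 2 + 2 * x ^ 2 := by positivity
      linarith
    have h11 : Prime (11 : ℤ) := Nat.prime_iff_prime_int.1 (by norm_num)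
    have hcAB : IsCoprime A B := by
      apply coprime_of_sqfree A B 11 x (Y ^ 2) h11.squarefree hAB hApos.ne' _ hxY.pow_right
      intro p hp hpx hpA hpB
      have : Y ^ 2 = (B - A) - 2 * x ^ 2 := by rw [hBA]; ring
      rw [this]
      exact dvd_sub (dvd_sub hpB hpA) (Dvd.dvd.mul_left (dvd_pow hpx (by norm_num)) 2)
    have h11d : (11 : ℤ) ∣ A * B := ⟨_, hAB⟩
    rcases h11.dvd_or_dvd h11d with hd | hd
    · -- A = 11 s⁴, B = r⁴
      obtain ⟨A', rfl⟩ := hd
      have h4 : A' * B = x ^ 4 := by linarith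
      obtain ⟨s, r, hs0, hr0, hs, hr, hsr, hcsr⟩ := fourth_of_coprime A' B x hcAB.of_mul_left_right
        (by linarith) hBpos.le h4
      have hx2 : x ^ 2 = s ^ 2 * r ^ 2 := by rw [← sq_abs x, ← hsr]; ring
      have e1 : r ^ 4 - 11 * s ^ 4 = Y ^ 2 + 2 * (s ^ 2 * r ^ 2) := by
        rw [← hx2, ← hBA, hs, hr]
      have hs0' : s ≠ 0 := by
        rintro rfl
        rw [zero_mul] at hsr
        exact hx0 (abs_eq_zero.1 hsr.symm)
      have hr0' : r ≠ 0 := by
        rintro rfl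
        rw [mul_zero] at hsr
        exact hx0 (abs_eq_zero.1 hsr.symm)
      have hsre : s % 2 = 0 ∧ r % 2 = 1 := by
        have e2 : Y ^ 2 = r ^ 4 - 11 * s ^ 4 - 2 * (s ^ 2 * r ^ 2) := by linarith
        rcases Int.emod_two_eq_zero_or_one s with h1 | h1 <;>
          rcases Int.emod_two_eq_zero_or_one r with h2 | h2
        · exfalso
          have h2 : (2 : ℤ) ∣ 1 := by
            obtain ⟨a, b, hst⟩ := hcsr
            rw [← hst]
            exact dvd_add (Dvd.dvd.mul_left (by omega) a) (Dvd.dvd.mul_left (by omega) b)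
          omega
        · exact ⟨h1, h2⟩
        · exfalso
          obtain ⟨r', rfl⟩ : ∃ r', r = 2 * r' := ⟨r / 2, by omega⟩
          obtain ⟨ks, hks⟩ := odd_sq8 s h1
          have e3 : 8 * kY + 1 = 16 * r' ^ 4 - 11 * (8 * ks + 1) ^ 2 - 8 * ((8 * ks + 1) * r' ^ 2) := by
            rw [← hkY, ← hks, e2]; ring
          ring_nf at e3
          omega
        · exfalso
          obtain ⟨kr, hkr⟩ := odd_sq8 r h2
          obtain ⟨ks, hks⟩ := odd_sq8 s h1
          have e3 : 8 * kY + 1 = (8 * kr + 1) ^ 2 - 11 * (8 * ks + 1) ^ 2 - 2 * ((8 * ks + 1) * (8 * kr + 1)) := by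
            rw [← hkY, ← hks, ← hkr, e2]; ring
          ring_nf at e3
          omega
      have hrs2 : 0 < r ^ 2 - s ^ 2 := by
        have hs4 : 0 < s ^ 4 := by positivity
        have hY2 : 0 ≤ Y ^ 2 := sq_nonneg _
        have hsr2 : 0 ≤ s ^ 2 * r ^ 2 := by positivity
        have h5 : s ^ 4 < r ^ 4 := by linarith
        exact sq_sub_pos r s h5
      have hYr : (r ^ 2 - s ^ 2) ^ 2 - Y ^ 2 = 12 * s ^ 4 := by linear_combination e1
      obtain ⟨kr, hkr⟩ := odd_sq8 r hsre.2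
      obtain ⟨s', hs'⟩ : ∃ s', s = 2 * s' := ⟨s / 2, by omega⟩
      have hs2e : s ^ 2 = 4 * s' ^ 2 := by rw [hs']; ring
      obtain ⟨C, hC⟩ : ∃ C, r ^ 2 - s ^ 2 - Y = 2 * C := ⟨(r ^ 2 - s ^ 2 - Y) / 2, by omega⟩
      obtain ⟨D, hD⟩ : ∃ D, r ^ 2 - s ^ 2 + Y = 2 * D := ⟨(r ^ 2 - s ^ 2 + Y) / 2, by omega⟩
      have hCD : C * D = 3 * s ^ 4 := by
        have : 4 * (C * D) = 12 * s ^ 4 := by
          have e1 : 4 * (C * D) = (2 * C) * (2 * D) := by ring
          rw [e1, ← hC, ← hD]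
          linear_combination hYr
        linarith
      have hCD' : C + D = r ^ 2 - s ^ 2 := by linarith
      have hs4 : 0 < s ^ 4 := by positivity
      have hCDpos := pos_pair C D (by rw [hCD]; positivity) (by rw [hCD']; exact hrs2)
      have hCpos : 0 < C := hCDpos.1
      have hDpos : 0 < D := hCDpos.2
      have hcCD : IsCoprime C D := by
        apply coprime_of_sqfree C D 3 s (r ^ 2) Int.prime_three.squarefree hCD hCpos.ne' _ hcsr.pow_right
        intro p hp hps hpC hpD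
        have : r ^ 2 = (C + D) + s ^ 2 := by rw [hCD']; ring
        rw [this]
        exact dvd_add (dvd_add hpC hpD) (dvd_pow hps (by norm_num))
      obtain ⟨u, v, huv1, huv2, huv3⟩ := split3 C D s hCpos hDpos hcCD hCD
      have hs2 : s ^ 2 = u ^ 2 * v ^ 2 := by
        rw [← sq_abs s, ← huv2, mul_pow, sq_abs, sq_abs]
      have hnew : r ^ 2 = 3 * u ^ 4 + u ^ 2 * v ^ 2 + v ^ 4 := by
        have : r ^ 2 = (C + D) + s ^ 2 := by rw [hCD']; ring
        rw [this, huv1, hs2]; ring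
      have hu0 : u ≠ 0 := by
        rintro rfl
        rw [abs_zero, zero_mul] at huv2
        exact hs0' (abs_eq_zero.1 huv2.symm)
      have hv0 : v ≠ 0 := by
        rintro rfl
        rw [abs_zero, mul_zero] at huv2
        exact hs0' (abs_eq_zero.1 huv2.symm)
      have hlt : u.natAbs < N := by
        have hv1 : 1 ≤ |v| := Int.one_le_abs hv0
        have h5 : |u| ≤ |s| := by
          rw [← huv2]; exact le_mul_of_one_le_right (abs_nonneg u) hv1
        have hr1 : 1 ≤ |r| := Int.one_le_abs hr0'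
        have h6 : |s| ≤ |x| := by
          rw [← hsr, ← abs_of_nonneg (mul_nonneg hs0 hr0), abs_mul]
          exact le_mul_of_one_le_right (abs_nonneg s) hr1
        have hx1 : 1 ≤ |x| := Int.one_le_abs hx0
        rw [← hN]
        have h7 : (u.natAbs : ℤ) < ((2 * x).natAbs : ℤ) := by
          rw [Int.natCast_natAbs, Int.natCast_natAbs, abs_mul]
          have : |(2 : ℤ)| = 2 := by norm_num
          rw [this]
          linarith
        exact_mod_cast h7
      exact ih _ hlt u v r hnew huv3 hu0 rfl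
    · -- B = 11 s⁴, A = r⁴ : impossible modulo 8
      exfalso
      obtain ⟨B', rfl⟩ := hd
      have h4 : B' * A = x ^ 4 := by linarith
      obtain ⟨s, r, hs0, hr0, hs, hr, hsr, hcsr⟩ := fourth_of_coprime B' A x
        hcAB.symm.of_mul_left_right (by linarith) hApos.le h4
      have hx2 : x ^ 2 = s ^ 2 * r ^ 2 := by rw [← sq_abs x, ← hsr]; ring
      have e2 : Y ^ 2 = 11 * s ^ 4 - r ^ 4 - 2 * (s ^ 2 * r ^ 2) := by
        rw [← hx2, ← hs, ← hr]; linarith
      rcases Int.emod_two_eq_zero_or_one s with h1 | h1 <;>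
        rcases Int.emod_two_eq_zero_or_one r with h2 | h2
      · have h2 : (2 : ℤ) ∣ 1 := by
          obtain ⟨a, b, hst⟩ := hcsr
          rw [← hst]
          exact dvd_add (Dvd.dvd.mul_left (by omega) a) (Dvd.dvd.mul_left (by omega) b)
        omega
      · obtain ⟨s', rfl⟩ : ∃ s', s = 2 * s' := ⟨s / 2, by omega⟩
        obtain ⟨kr, hkr⟩ := odd_sq8 r h2
        have e3 : 8 * kY + 1 = 176 * s' ^ 4 - (8 * kr + 1) ^ 2 - 8 * (s' ^ 2 * (8 * kr + 1)) := by
          rw [← hkY, ← hkr, e2]; ring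
        ring_nf at e3
        omega
      · obtain ⟨r', rfl⟩ : ∃ r', r = 2 * r' := ⟨r / 2, by omega⟩
        obtain ⟨ks, hks⟩ := odd_sq8 s h1
        have e3 : 8 * kY + 1 = 11 * (8 * ks + 1) ^ 2 - 16 * r' ^ 4 - 8 * ((8 * ks + 1) * r' ^ 2) := by
          rw [← hkY, ← hks, e2]; ring
        ring_nf at e3
        omega
      · obtain ⟨kr, hkr⟩ := odd_sq8 r h2
        obtain ⟨ks, hks⟩ := odd_sq8 s h1
        have e3 : 8 * kY + 1 = 11 * (8 * ks + 1) ^ 2 - (8 * kr + 1) ^ 2 - 2 * ((8 * ks + 1) * (8 * kr + 1)) := by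
          rw [← hkY, ← hks, ← hkr, e2]; ring
        ring_nf at e3
        omega

end Pool.Agent.SixthPow
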