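import Pool.Agent.SixthPow.Patterns

set_option autoImplicit false

namespace Pool.Agent.SixthPow

theorem loesch_even (q : ℕ) (hq : q.Prime) (hq3 : q % 3 = 2) (n : ℕ) :
    ∀ u v : ℤ, (u ^ 2 + u * v + v ^ 2).natAbs = n → n ≠ 0 → Even (padicValNat q n) := by
  have : Fact q.Prime := ⟨hq⟩
  induction n using Nat.strong_induction_on with
  | _ n ih =>
    intro u v hn hn0
    by_cases hd : q ∣ n
    · have h1 : (q : ℤ) ∣ u ^ 2 + u * v + v ^ 2 := by
        rw [← Int.natCast_dvd_natCast, ← hn, Int.natCast_natAbs, dvd_abs] at hd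
        exact hd
      rcases prime_loesch q hq (by rintro rfl; omega) u v h1 with ⟨⟨u', rfl⟩, ⟨v', rfl⟩⟩ | h2
      · have e1 : (((q : ℤ) * u') ^ 2 + (q : ℤ) * u' * ((q : ℤ) * v') + ((q : ℤ) * v') ^ 2).natAbs
            = q ^ 2 * (u' ^ 2 + u' * v' + v' ^ 2).natAbs := by
          have : ((q : ℤ) * u') ^ 2 + (q : ℤ) * u' * ((q : ℤ) * v') + ((q : ℤ) * v') ^ 2
              = (q : ℤ) ^ 2 * (u' ^ 2 + u' * v' + v' ^ 2) := by ring
          rw [this, Int.natAbs_mul, Int.natAbs_pow, Int.natAbs_natCast]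
        rw [e1] at hn
        set n' := (u' ^ 2 + u' * v' + v' ^ 2).natAbs with hn'
        have hn'0 : n' ≠ 0 := by
          intro h0; rw [h0, mul_zero] at hn; exact hn0 hn.symm
        have hlt : n' < n := by
          rw [← hn]
          have h2 := hq.two_le
          have h4 : 4 ≤ q ^ 2 := by nlinarith
          have h5 : 4 * n' ≤ q ^ 2 * n' := Nat.mul_le_mul_right _ h4
          omega
        have := ih n' hlt u' v' hn'.symm hn'0
        rw [← hn, padicValNat.mul (pow_ne_zero 2 hq.ne_zero) hn'0, padicValNat.pow,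
          padicValNat.self hq.one_lt]
        exact Even.add (by norm_num) this
      · omega
    · rw [padicValNat.eq_zero_of_not_dvd hd]
      exact Even.zero

theorem list_prod_mod_three (l : List ℕ) (h : ∀ x ∈ l, x % 3 = 1) : l.prod % 3 = 1 := by
  induction l with
  | nil => simp
  | cons a l ih =>
    rw [List.prod_cons, Nat.mul_mod, h a (by simp), ih (fun x hx => h x (by simp [hx]))]

theorem one_mod_three (M : ℕ) (hM0 : M ≠ 0) (h3 : ¬ 3 ∣ M)
    (h : ∀ q : ℕ, q.Prime → q % 3 = 2 → Even (padicValNat q M)) : M % 3 = 1 := by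
  obtain ⟨a, b, hab, hsf⟩ := Nat.sq_mul_squarefree M
  have ha0 : a ≠ 0 := by rintro rfl; rw [mul_zero] at hab; exact hM0 hab.symm
  have hb0 : b ≠ 0 := by rintro rfl; rw [zero_pow (by norm_num), zero_mul] at hab; exact hM0 hab.symm
  have ha : a % 3 = 1 := by
    rw [← Nat.prod_primeFactorsList ha0]
    apply list_prod_mod_three
    intro p hp
    have hpp := Nat.prime_of_mem_primeFactorsList hp
    have hpa := Nat.dvd_of_mem_primeFactorsList hp
    have : Fact p.Prime := ⟨hpp⟩
    by_contra hp1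
    have hp3 : p ≠ 3 := by
      rintro rfl
      exact h3 (by rw [← hab]; exact Dvd.dvd.mul_left hpa _)
    have hp0 : p % 3 ≠ 0 := by
      intro h0
      have : 3 ∣ p := Nat.dvd_of_mod_eq_zero h0
      exact hp3 ((Nat.prime_dvd_prime_iff_eq Nat.prime_three hpp).1 this).symm
    have hev := h p hpp (by omega)
    rw [← hab, padicValNat.mul (pow_ne_zero 2 hb0) ha0, padicValNat.pow] at hev
    have ha1 : padicValNat p a = 1 := by
      have h3 : 1 ≤ padicValNat p a := one_le_padicValNat_of_dvd ha0 hpa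
      have h4 : padicValNat p a < 2 := by
        by_contra h5
        have h6 : p ^ 2 ∣ a := (padicValNat_dvd_iff_le ha0).2 (by omega)
        rw [pow_two] at h6
        exact hpp.one_lt.ne' (Nat.isUnit_iff.1 (hsf p h6))
      omega
    rw [ha1] at hev
    obtain ⟨r, hr⟩ := hev
    omega
  have hb : ¬ 3 ∣ b := by
    intro h
    exact h3 (by rw [← hab]; exact Dvd.dvd.mul_right (dvd_pow h (by norm_num)) _)
  have hb2 : b ^ 2 % 3 = 1 := by
    have : b % 3 = 1 ∨ b % 3 = 2 := by omega
    rcases this with h | h <;> rw [Nat.pow_mod, h]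
  rw [← hab, Nat.mul_mod, ha, hb2]

theorem odd_vals_two (e t : ℕ) (he2 : e % 2 = 1) (ht2 : t % 2 = 0) (ht : 0 < t) (F : ℕ) (hF : F % 2 = 1)
    (h : Even (padicValNat 2 (t * (2 * e + t) * F))) :
    Odd (padicValNat 2 t) ∧ Odd (padicValNat 2 (2 * e + t)) := by
  have : Fact (Nat.Prime 2) := ⟨Nat.prime_two⟩
  have h1 : t ≠ 0 := ht.ne'
  have h2 : 2 * e + t ≠ 0 := by omega
  have hF0 : F ≠ 0 := by rintro rfl; simp at hF
  rw [padicValNat.mul (mul_ne_zero h1 h2) hF0, padicValNat.mul h1 h2,
    padicValNat.eq_zero_of_not_dvd (n := F) (by omega), add_zero] at h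
  have hone : ∀ M : ℕ, M % 4 = 2 → padicValNat 2 M = 1 := by
    intro M hM
    obtain ⟨H, rfl⟩ : ∃ H, M = 2 * H := ⟨M / 2, by omega⟩
    have hH0 : H ≠ 0 := by rintro rfl; simp at hM
    rw [padicValNat.mul (by norm_num) hH0, padicValNat.self (by norm_num),
      padicValNat.eq_zero_of_not_dvd (by omega)]
  have hcase : t % 4 = 2 ∨ (2 * e + t) % 4 = 2 := by omega
  rcases hcase with hc | hc
  · rw [hone t hc] at h ⊢
    refine ⟨by norm_num, ?_⟩
    rw [Nat.even_iff] at h
    rw [Nat.odd_iff]
    omega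
  · rw [hone _ hc] at h ⊢
    refine ⟨?_, by norm_num⟩
    rw [Nat.even_iff] at h
    rw [Nat.odd_iff]
    omega

theorem three_cases' (e t : ℕ) (h3e : ¬ 3 ∣ e) (hf3 : ¬ 3 ∣ e + t) : 3 ∣ t ∨ 3 ∣ 2 * e + t := by
  have h1 : e % 3 = 1 ∨ e % 3 = 2 := by omega
  rcases h1 with h1 | h1 <;> omega

/-- Theorem C for a coprime pair `e < f = e + t`. -/
theorem patternC (e t : ℕ) (he : 0 < e) (ht : 0 < t) (hc : Nat.Coprime e t)
    (hf2 : (e + t) % 2 = 1) (hf3 : ¬ 3 ∣ e + t)
    (hN : ∀ q : ℕ, q.Prime → q % 3 = 2 → Even (padicValNat q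
      (t * (2 * e + t) * ((e + t) ^ 2 + (e + t) * e + e ^ 2) * ((e + t) * t + e ^ 2)))) :
    (e + t) % 3 = 1 ↔ (2 ∣ e ↔ 3 ∣ e) := by
  have ho : (((e + t) ^ 2 + (e + t) * e + e ^ 2) * ((e + t) * t + e ^ 2)) % 2 = 1 := by
    have he : (e % 2 = 0 ∧ t % 2 = 1) ∨ (e % 2 = 1 ∧ t % 2 = 0) := by omega
    have h3 : ((e + t) ^ 2 + (e + t) * e + e ^ 2) % 2 = 1 ∧ ((e + t) * t + e ^ 2) % 2 = 1 := by
      rcases he with ⟨he, ht⟩ | ⟨he, ht⟩
      · obtain ⟨a, rfl⟩ : ∃ a, e = 2 * a := ⟨e / 2, by omega⟩
        obtain ⟨b, rfl⟩ : ∃ b, t = 2 * b + 1 := ⟨t / 2, by omega⟩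
        constructor <;> (ring_nf; omega)
      · obtain ⟨a, rfl⟩ : ∃ a, e = 2 * a + 1 := ⟨e / 2, by omega⟩
        obtain ⟨b, rfl⟩ : ∃ b, t = 2 * b := ⟨t / 2, by omega⟩
        constructor <;> (ring_nf; omega)
    rw [Nat.mul_mod, h3.1, h3.2]
  have h20 : 2 * e + t ≠ 0 := by positivity
  have hE := fun q (hq : q.Prime) (hq4 : q % 3 = 2) (hq2 : q ≠ 2) =>
    even_vals e t q he ht hc hq hq2 (by rintro rfl; omega) (hN q hq hq4)
  -- the residue of `M = t` or `M = 2e + t` when prime to 3
  have key : ∀ M : ℕ, (M = t ∨ M = 2 * e + t) → ¬ 3 ∣ M →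
      (e % 2 = 0 → M % 3 = 1) ∧ (e % 2 = 1 → M % 3 = 2) := by
    intro M hM h3M
    have hM0 : M ≠ 0 := by rcases hM with rfl | rfl <;> omega
    have hEM : ∀ q : ℕ, q.Prime → q % 3 = 2 → q ≠ 2 → Even (padicValNat q M) := by
      intro q hq hq3 hq2
      rcases hM with rfl | rfl
      · exact (hE q hq hq3 hq2).1
      · exact (hE q hq hq3 hq2).2.1
    constructor
    · intro he2
      have hMo : M % 2 = 1 := by rcases hM with rfl | rfl <;> omega
      apply one_mod_three M hM0 h3M
      intro q hq hq3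
      by_cases hq2 : q = 2
      · subst hq2
        rw [padicValNat.eq_zero_of_not_dvd (by omega)]
        exact Even.zero
      · exact hEM q hq hq3 hq2
    · intro he2
      have hodd := odd_vals_two e t he2 (by omega) ht _ ho (by
        have := hN 2 Nat.prime_two (by norm_num)
        rw [mul_assoc (t * (2 * e + t))] at this
        exact this)
      have hMo : Odd (padicValNat 2 M) := by
        rcases hM with rfl | rfl
        · exact hodd.1
        · exact hodd.2
      have h2M : (2 * M) % 3 = 1 := by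
        apply one_mod_three (2 * M) (by omega)
        · intro h
          rcases (Nat.prime_three.dvd_mul).1 h with h | h
          · omega
          · exact h3M h
        · intro q hq hq3
          have : Fact q.Prime := ⟨hq⟩
          by_cases hq2 : q = 2
          · subst hq2
            rw [padicValNat.mul (by norm_num) hM0, padicValNat.self (by norm_num)]
            rw [Nat.even_iff]
            rw [Nat.odd_iff] at hMo
            omega
          · rw [padicValNat.mul (by norm_num) hM0, padicValNat.eq_zero_of_not_dvd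
              (fun h => hq2 ((Nat.prime_dvd_prime_iff_eq hq Nat.prime_two).1 h)), zero_add]
            exact hEM q hq hq3 hq2
      omega
  have hpar : e % 2 = 0 ∨ e % 2 = 1 := by omega
  by_cases h3e : 3 ∣ e
  · have h3t : ¬ 3 ∣ t := fun h => hf3 (dvd_add h3e h)
    have k1 := key t (Or.inl rfl) h3t
    rcases hpar with hp | hp
    · have := k1.1 hp
      have h2e : 2 ∣ e := by omega
      constructor
      · intro _; exact ⟨fun _ => h3e, fun _ => h2e⟩
      · intro _; omega
    · have := k1.2 hp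
      have h2e : ¬ 2 ∣ e := by omega
      constructor
      · intro h; omega
      · intro h; exact absurd (h.2 h3e) h2e
  · have h3cases : 3 ∣ t ∨ 3 ∣ 2 * e + t := three_cases' e t h3e hf3
    rcases h3cases with h3t | h3t
    · have h32 : ¬ 3 ∣ 2 * e + t := by omega
      have k1 := key (2 * e + t) (Or.inr rfl) h32
      rcases hpar with hp | hp
      · have := k1.1 hp
        have h2e : 2 ∣ e := by omega
        constructor
        · intro h; omega
        · intro h; exact absurd (h.1 h2e) h3e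
      · have := k1.2 hp
        have h2e : ¬ 2 ∣ e := by omega
        constructor
        · intro _; exact ⟨fun h => absurd h h2e, fun h => absurd h h3e⟩
        · intro _; omega
    · have h31 : ¬ 3 ∣ t := by
        intro h
        have h1 : e % 3 = 1 ∨ e % 3 = 2 := by omega
        rcases h1 with h1 | h1 <;> omega
      have k1 := key t (Or.inl rfl) h31
      rcases hpar with hp | hp
      · have h5 := k1.1 hp
        have h2e : 2 ∣ e := by omega
        constructor
        · intro h
          have h1 : e % 3 = 1 ∨ e % 3 = 2 := by omega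
          rcases h1 with h1 | h1 <;> omega
        · intro h; exact absurd (h.1 h2e) h3e
      · have h5 := k1.2 hp
        have h2e : ¬ 2 ∣ e := by omega
        constructor
        · intro _; exact ⟨fun h => absurd h h2e, fun h => absurd h h3e⟩
        · intro _
          have h1 : e % 3 = 1 ∨ e % 3 = 2 := by omega
          rcases h1 with h1 | h1 <;> omega

end Pool.Agent.SixthPow
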