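import Pool.Agent.SixthPow.Primes
import Pool.Agent.SixthPow.PatternC

set_option autoImplicit false

namespace Pool.Agent.SixthPow

theorem all_primes_one_mod_three (m : ℕ) (hm : m ≠ 0) (h : ∀ p : ℕ, p.Prime → p ∣ m → p % 3 = 1) :
    m % 3 = 1 := by
  rw [← Nat.prod_primeFactorsList hm]
  exact list_prod_mod_three _ (fun p hp =>
    h p (Nat.prime_of_mem_primeFactorsList hp) (Nat.dvd_of_mem_primeFactorsList hp))

theorem odd_sq8_nat (b : ℕ) (h : b % 2 = 1) : b ^ 2 % 8 = 1 := by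
  have : b % 8 = 1 ∨ b % 8 = 3 ∨ b % 8 = 5 ∨ b % 8 = 7 := by omega
  rcases this with h | h | h | h <;> rw [Nat.pow_mod, h]

/-- The refined form of Theorem A for a coprime pair `e < f = e + t` with `f` prime to 6. -/
theorem shapeA (e t : ℕ) (he : 0 < e) (ht : 0 < t) (hc : Nat.Coprime e t)
    (hf2 : (e + t) % 2 = 1) (hf3 : ¬ 3 ∣ e + t) :
    ∃ m : ℕ, 1 < m ∧ Squarefree m ∧
      (∀ p : ℕ, p.Prime → p ∣ m → p % 3 = 1 ∧ Odd (padicValNat p
        (t * (2 * e + t) * ((e + t) ^ 2 + (e + t) * e + e ^ 2) * ((e + t) * t + e ^ 2)))) ∧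
      (e % 2 = 1 → ¬ 3 ∣ e → m % 24 = 1) ∧ (e % 2 = 1 → 3 ∣ e → m % 24 = 19) ∧
      (e % 4 = 0 → 3 ∣ e → m % 24 = 1) ∧ (e % 4 = 2 → 3 ∣ e → m % 24 = 13) ∧
      (e % 4 = 0 → ¬ 3 ∣ e → m % 24 = 19) ∧ (e % 4 = 2 → ¬ 3 ∣ e → m % 24 = 7) ∧
      (3 ∣ e → ∃ b : ℕ, ((e + t) ^ 2 + (e + t) * e + e ^ 2) * ((e + t) * t + e ^ 2) = m * b ^ 2) ∧
      (¬ 3 ∣ e → ∃ b : ℕ,
        ((e + t) ^ 2 + (e + t) * e + e ^ 2) * ((e + t) * t + e ^ 2) = 3 * (m * b ^ 2)) := by
  set F3 : ℕ := (e + t) ^ 2 + (e + t) * e + e ^ 2 with hF3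
  set F4 : ℕ := (e + t) * t + e ^ 2 with hF4
  have hF3pos : F3 ≠ 0 := by positivity
  have hF4pos : F4 ≠ 0 := by positivity
  have hQ0 : F3 * F4 ≠ 0 := mul_ne_zero hF3pos hF4pos
  have hQeq : F3 * F4 = (e + t) ^ 4 + (e + t) ^ 2 * e ^ 2 + e ^ 4 := by rw [hF3, hF4]; ring
  -- primes dividing F3*F4
  have hp : ∀ p : ℕ, p.Prime → p ≠ 3 → p ∣ F3 * F4 → p % 3 = 1 ∧ ¬ p ∣ t * (2 * e + t) := by
    intro p hp hp3 hd
    have hnot : ¬ ((p ∣ e) ∧ (p ∣ t)) := by
      rintro ⟨h1, h2⟩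
      have := Nat.dvd_gcd h1 h2
      rw [hc] at this
      exact hp.one_lt.ne' (Nat.dvd_one.1 this)
    have : Fact p.Prime := ⟨hp⟩
    have hez : ∀ x : ℕ, ((x : ZMod p) = 0 ↔ p ∣ x) := fun x => ZMod.natCast_eq_zero_iff x p
    have hzQ : ((F3 : ZMod p)) * (F4 : ZMod p) = 0 := by
      have := (hez (F3 * F4)).2 hd
      push_cast at this
      exact this
    have h3ne : (3 : ZMod p) ≠ 0 := by
      intro h3
      have h3' : ((3 : ℕ) : ZMod p) = 0 := by push_cast; exact h3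
      exact hp3 ((Nat.prime_dvd_prime_iff_eq hp Nat.prime_three).1 ((hez 3).1 h3'))
    have hnotz : ¬ ((e : ZMod p) = 0 ∧ (t : ZMod p) = 0) := by
      rw [hez, hez]; exact hnot
    have hcast3 : (F3 : ZMod p) = (e + t) ^ 2 + (e + t) * e + e ^ 2 := by rw [hF3]; push_cast; ring
    have hcast4 : (F4 : ZMod p) = (e + t) * t + e ^ 2 := by rw [hF4]; push_cast; ring
    constructor
    · rcases (hp.dvd_mul).1 hd with h | h
      · have h1 : (p : ℤ) ∣ ((e : ℤ) + t) ^ 2 + ((e : ℤ) + t) * e + (e : ℤ) ^ 2 := by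
          have : ((F3 : ℕ) : ℤ) = ((e : ℤ) + t) ^ 2 + ((e : ℤ) + t) * e + (e : ℤ) ^ 2 := by
            rw [hF3]; push_cast; ring
          rw [← this]; exact_mod_cast h
        rcases prime_loesch p hp hp3 _ _ h1 with ⟨ha, hb⟩ | h2
        · exfalso
          have hb' : p ∣ e := by exact_mod_cast hb
          have ha' : p ∣ e + t := by exact_mod_cast ha
          exact hnot ⟨hb', (Nat.dvd_add_right hb').1 ha'⟩
        · exact h2
      · have h1 : (p : ℤ) ∣ ((e : ℤ) + t) ^ 2 + ((e : ℤ) + t) * (-e) + (-(e : ℤ)) ^ 2 := by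
          have : ((F4 : ℕ) : ℤ) = ((e : ℤ) + t) ^ 2 + ((e : ℤ) + t) * (-e) + (-(e : ℤ)) ^ 2 := by
            rw [hF4]; push_cast; ring
          rw [← this]; exact_mod_cast h
        rcases prime_loesch p hp hp3 _ _ h1 with ⟨ha, hb⟩ | h2
        · exfalso
          have hb' : p ∣ e := by
            have := (dvd_neg).1 hb
            exact_mod_cast this
          have ha' : p ∣ e + t := by exact_mod_cast ha
          exact hnot ⟨hb', (Nat.dvd_add_right hb').1 ha'⟩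
        · exact h2
    · intro h12
      have hz12 : (t : ZMod p) * (2 * e + t) = 0 := by
        have := (hez (t * (2 * e + t))).2 h12
        push_cast at this
        exact this
      apply hnotz
      rw [hcast3, hcast4] at hzQ
      have h3e : (3 : ZMod p) * (e : ZMod p) ^ 4 = 0 := by
        rcases mul_eq_zero.1 hz12 with h | h
        · rw [h] at hzQ
          linear_combination hzQ
        · have ht' : (t : ZMod p) = -2 * e := by linear_combination h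
          rw [ht'] at hzQ
          linear_combination hzQ
      have he0 : (e : ZMod p) = 0 :=
        pow_eq_zero_iff (by norm_num) |>.1 ((mul_eq_zero.1 h3e).resolve_left h3ne)
      refine ⟨he0, ?_⟩
      rw [he0] at hzQ
      have : (t : ZMod p) ^ 4 = 0 := by linear_combination hzQ
      exact pow_eq_zero_iff (by norm_num) |>.1 this
  obtain ⟨a, b, hab, hsf⟩ := Nat.sq_mul_squarefree (F3 * F4)
  have ha0 : a ≠ 0 := by rintro rfl; rw [mul_zero] at hab; exact hQ0 hab.symm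
  have hb0 : b ≠ 0 := by rintro rfl; rw [zero_pow (by norm_num), zero_mul] at hab; exact hQ0 hab.symm
  -- parity of the pieces
  have hQodd : (F3 * F4) % 2 = 1 := by
    have h3 : F3 % 2 = 1 ∧ F4 % 2 = 1 := by
      have he : (e % 2 = 0 ∧ t % 2 = 1) ∨ (e % 2 = 1 ∧ t % 2 = 0) := by omega
      rw [hF3, hF4]
      rcases he with ⟨he, ht⟩ | ⟨he, ht⟩
      · obtain ⟨a, rfl⟩ : ∃ a, e = 2 * a := ⟨e / 2, by omega⟩
        obtain ⟨b, rfl⟩ : ∃ b, t = 2 * b + 1 := ⟨t / 2, by omega⟩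
        constructor <;> (ring_nf; omega)
      · obtain ⟨a, rfl⟩ : ∃ a, e = 2 * a + 1 := ⟨e / 2, by omega⟩
        obtain ⟨b, rfl⟩ : ∃ b, t = 2 * b := ⟨t / 2, by omega⟩
        constructor <;> (ring_nf; omega)
    rw [Nat.mul_mod, h3.1, h3.2]
  have hbodd : b % 2 = 1 := by
    by_contra h
    have : 2 ∣ F3 * F4 := by
      rw [← hab]
      exact Dvd.dvd.mul_right (dvd_pow (by omega) (by norm_num)) _
    omega
  have hb8 := odd_sq8_nat b hbodd
  have hf8 := odd_sq8_nat (e + t) hf2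
  -- the residue of Q modulo 8
  have hQ8 : (e % 2 = 1 → (F3 * F4) % 8 = 3) ∧ (e % 4 = 0 → (F3 * F4) % 8 = 1) ∧
      (e % 4 = 2 → (F3 * F4) % 8 = 5) := by
    rw [hQeq]
    have e1 : (e + t) ^ 4 + (e + t) ^ 2 * e ^ 2 + e ^ 4 =
        (e + t) ^ 2 * (e + t) ^ 2 + (e + t) ^ 2 * e ^ 2 + e ^ 2 * e ^ 2 := by ring
    rw [e1]
    refine ⟨?_, ?_, ?_⟩
    · intro h
      have := odd_sq8_nat e h
      simp [Nat.add_mod, Nat.mul_mod, hf8, this]
    · intro h
      have : e ^ 2 % 8 = 0 := by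
        have : e % 8 = 0 ∨ e % 8 = 4 := by omega
        rcases this with h | h <;> rw [Nat.pow_mod, h]
      simp [Nat.add_mod, Nat.mul_mod, hf8, this]
    · intro h
      have : e ^ 2 % 8 = 4 := by
        have : e % 8 = 2 ∨ e % 8 = 6 := by omega
        rcases this with h | h <;> rw [Nat.pow_mod, h]
      simp [Nat.add_mod, Nat.mul_mod, hf8, this]
  -- divisibility of Q by 3 and 9
  have hf3' : (e + t) ^ 2 % 3 = 1 := by
    have : (e + t) % 3 = 1 ∨ (e + t) % 3 = 2 := by omega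
    rcases this with h | h <;> rw [Nat.pow_mod, h]
  have hQ3 : 3 ∣ e → ¬ 3 ∣ F3 * F4 := by
    rintro ⟨k, hk⟩ h
    have e1 : F3 * F4 = (e + t) ^ 2 * (e + t) ^ 2 + 3 * (3 * (e + t) ^ 2 * k ^ 2 + 27 * k ^ 4) := by
      rw [hQeq, hk]; ring
    have h2 : ((e + t) ^ 2 * (e + t) ^ 2) % 3 = 1 := by rw [Nat.mul_mod, hf3']
    omega
  have hQ3' : ¬ 3 ∣ e → ∃ G, F3 * F4 = 3 * G ∧ ¬ 3 ∣ G := by
    intro h3e
    have h9 : ∀ x : ℕ, ¬ 3 ∣ x → x ^ 2 % 9 = 1 ∨ x ^ 2 % 9 = 4 ∨ x ^ 2 % 9 = 7 := by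
      intro x hx
      have : x % 9 = 1 ∨ x % 9 = 2 ∨ x % 9 = 4 ∨ x % 9 = 5 ∨ x % 9 = 7 ∨ x % 9 = 8 := by omega
      rcases this with h | h | h | h | h | h <;> rw [Nat.pow_mod, h] <;> norm_num
    have e1 : F3 * F4 = (e + t) ^ 2 * (e + t) ^ 2 + (e + t) ^ 2 * e ^ 2 + e ^ 2 * e ^ 2 := by
      rw [hQeq]; ring
    have h39 : (F3 * F4) % 9 = 3 := by
      rw [e1]
      rcases h9 _ hf3 with h | h | h <;> rcases h9 _ h3e with h' | h' | h' <;>
        simp [Nat.add_mod, Nat.mul_mod, h, h']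
    refine ⟨F3 * F4 / 3, by omega, by omega⟩
  -- the primes of `a`
  have hprime : ∀ p : ℕ, p.Prime → p ≠ 3 → p ∣ a → p % 3 = 1 ∧ Odd (padicValNat p
      (t * (2 * e + t) * F3 * F4)) := by
    intro p hpp hp3 hpa
    have hpQ : p ∣ F3 * F4 := by rw [← hab]; exact Dvd.dvd.mul_left hpa _
    obtain ⟨h1, h2⟩ := hp p hpp hp3 hpQ
    have : Fact p.Prime := ⟨hpp⟩
    refine ⟨h1, ?_⟩
    have ht12 : t * (2 * e + t) ≠ 0 := by positivity
    have e1 : t * (2 * e + t) * F3 * F4 = (t * (2 * e + t)) * (F3 * F4) := by ring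
    rw [e1, padicValNat.mul ht12 hQ0, padicValNat.eq_zero_of_not_dvd h2, zero_add, ← hab,
      padicValNat.mul (pow_ne_zero 2 hb0) ha0, padicValNat.pow]
    have ha1 : padicValNat p a = 1 := by
      have h3 : 1 ≤ padicValNat p a := one_le_padicValNat_of_dvd ha0 hpa
      have h4 : padicValNat p a < 2 := by
        by_contra h5
        have h6 : p ^ 2 ∣ a := (padicValNat_dvd_iff_le ha0).2 (by omega)
        rw [pow_two] at h6
        exact hpp.one_lt.ne' (Nat.isUnit_iff.1 (hsf p h6))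
      omega
    rw [ha1]
    exact ⟨padicValNat p b, by ring⟩
  have hcop : IsCoprime ((e : ℤ) + t) (e : ℤ) := by
    have h1 : IsCoprime (e : ℤ) (t : ℤ) := Nat.isCoprime_iff_coprime.2 hc
    obtain ⟨s, r, hsr⟩ := h1
    exact ⟨r, s - r, by rw [← hsr]; ring⟩
  have hQint : ((e : ℤ) + t) ^ 4 + ((e : ℤ) + t) ^ 2 * (e : ℤ) ^ 2 + (e : ℤ) ^ 4
      = ((F3 * F4 : ℕ) : ℤ) := by
    rw [hF3, hF4]; push_cast; ring
  have hepos : (0 : ℤ) < e := by exact_mod_cast he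
  have htpos : (0 : ℤ) < t := by exact_mod_cast ht
  have hne1 : a ≠ 1 := by
    rintro rfl
    have h1 : ((e : ℤ) + t) ^ 4 + ((e : ℤ) + t) ^ 2 * (e : ℤ) ^ 2 + (e : ℤ) ^ 4 = (b : ℤ) ^ 2 := by
      rw [hQint, ← hab]; push_cast; ring
    have h2 := pyth_one _ _ _ h1 hcop
    have : (0 : ℤ) < ((e : ℤ) + t) * e := by positivity
    omega
  have hne3 : a ≠ 3 := by
    rintro rfl
    have h1 : ((e : ℤ) + t) ^ 4 + ((e : ℤ) + t) ^ 2 * (e : ℤ) ^ 2 + (e : ℤ) ^ 4 = 3 * (b : ℤ) ^ 2 := by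
      rw [hQint, ← hab]; push_cast; ring
    have h2 := pyth_three _ _ _ h1 hcop
    nlinarith
  by_cases h3e : 3 ∣ e
  · -- 3 does not divide Q; m = a
    have h3a : ¬ 3 ∣ a := by
      intro h
      exact hQ3 h3e (by rw [← hab]; exact Dvd.dvd.mul_left h _)
    have hall : ∀ p : ℕ, p.Prime → p ∣ a → p % 3 = 1 ∧ Odd (padicValNat p
        (t * (2 * e + t) * F3 * F4)) := fun p hpp hpa =>
      hprime p hpp (by rintro rfl; exact h3a hpa) hpa
    have hm3 : a % 3 = 1 := all_primes_one_mod_three a ha0 (fun p hpp hpa => (hall p hpp hpa).1)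
    have hm8 : (F3 * F4) % 8 = a % 8 := by
      rw [← hab, Nat.mul_mod, hb8, one_mul, Nat.mod_mod]
    refine ⟨a, by omega, hsf, hall, ?_, ?_, ?_, ?_, ?_, ?_, ?_, ?_⟩
    · intro _ h; exact absurd h3e h
    · intro h _; have := hQ8.1 h; omega
    · intro h _; have := hQ8.2.1 h; omega
    · intro h _; have := hQ8.2.2 h; omega
    · intro _ h; exact absurd h3e h
    · intro _ h; exact absurd h3e h
    · intro _; exact ⟨b, by rw [← hab]; ring⟩
    · intro h; exact absurd h3e h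
  · -- 3 divides Q exactly once; a = 3 m
    obtain ⟨G, hG, h3G⟩ := hQ3' h3e
    have h3b : ¬ 3 ∣ b := by
      rintro ⟨k, hk⟩
      apply h3G
      have h9 : 3 * G = 3 * (3 * (k ^ 2 * a)) := by rw [← hG, ← hab, hk]; ring
      exact ⟨k ^ 2 * a, by omega⟩
    have h3a : 3 ∣ a := by
      have h1 : 3 ∣ b ^ 2 * a := by rw [hab, hG]; exact Dvd.intro _ rfl
      rcases (Nat.prime_three.dvd_mul).1 h1 with h | h
      · exact absurd (Nat.prime_three.dvd_of_dvd_pow h) h3b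
      · exact h
    obtain ⟨m, rfl⟩ := h3a
    have hm0 : m ≠ 0 := by rintro rfl; exact ha0 rfl
    have h3m : ¬ 3 ∣ m := by
      rintro ⟨k, hk⟩
      have h9 : 3 * 3 ∣ 3 * m := ⟨k, by rw [hk]; ring⟩
      have := Nat.isUnit_iff.1 (hsf 3 h9)
      omega
    have hall : ∀ p : ℕ, p.Prime → p ∣ m → p % 3 = 1 ∧ Odd (padicValNat p
        (t * (2 * e + t) * F3 * F4)) := fun p hpp hpa =>
      hprime p hpp (by rintro rfl; exact h3m hpa) (Dvd.dvd.mul_left hpa _)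
    have hm3 : m % 3 = 1 := all_primes_one_mod_three m hm0 (fun p hpp hpa => (hall p hpp hpa).1)
    have hm8 : (F3 * F4) % 8 = (3 * m) % 8 := by
      rw [← hab, Nat.mul_mod, hb8, one_mul, Nat.mod_mod]
    have hmne : m ≠ 1 := by rintro rfl; exact hne3 rfl
    refine ⟨m, by omega, hsf.squarefree_of_dvd (Dvd.intro_left _ rfl), hall, ?_, ?_, ?_, ?_, ?_, ?_,
      ?_, ?_⟩
    · intro h _; have := hQ8.1 h; omega
    · intro _ h; exact absurd h h3e
    · intro _ h; exact absurd h h3e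
    · intro _ h; exact absurd h h3e
    · intro h _; have := hQ8.2.1 h; omega
    · intro h _; have := hQ8.2.2 h; omega
    · intro h; exact absurd h h3e
    · intro _; exact ⟨b, by rw [← hab]; ring⟩

end Pool.Agent.SixthPow
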