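import Pool.Agent.SixthPow.Fourth2
import Pool.Agent.SixthPow.ShapeA

set_option autoImplicit false

namespace Pool.Agent.SixthPow

/-- the odd square residues of the two factors modulo 8 when `e` is even. -/
theorem factors_mod8 (f e : ℤ) (hf : f % 2 = 1) :
    (e % 8 = 4 → (f ^ 2 + f * e + e ^ 2) % 8 = 5 ∧ (f ^ 2 - f * e + e ^ 2) % 8 = 5) ∧
    (e % 4 = 2 → ((f ^ 2 + f * e + e ^ 2) % 8 = 3 ∧ (f ^ 2 - f * e + e ^ 2) % 8 = 7) ∨
      ((f ^ 2 + f * e + e ^ 2) % 8 = 7 ∧ (f ^ 2 - f * e + e ^ 2) % 8 = 3)) := by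
  obtain ⟨kf, hkf⟩ := odd_sq8 f hf
  obtain ⟨f', hf'⟩ : ∃ f', f = 2 * f' + 1 := ⟨f / 2, by omega⟩
  constructor
  · intro h
    obtain ⟨e', rfl⟩ : ∃ e', e = 8 * e' + 4 := ⟨e / 8, by omega⟩
    have e1 : f ^ 2 + f * (8 * e' + 4) + (8 * e' + 4) ^ 2 =
        8 * (kf + f * e' + f' + 8 * e' ^ 2 + 8 * e' + 2) + 5 := by
      rw [hkf, hf']; ring
    have e2 : f ^ 2 - f * (8 * e' + 4) + (8 * e' + 4) ^ 2 =
        8 * (kf - f * e' - f' + 8 * e' ^ 2 + 8 * e' + 1) + 5 := by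
      rw [hkf, hf']; ring
    constructor
    · rw [e1]; omega
    · rw [e2]; omega
  · intro h
    obtain ⟨e', rfl⟩ : ∃ e', e = 4 * e' + 2 := ⟨e / 4, by omega⟩
    have e1 : f ^ 2 + f * (4 * e' + 2) + (4 * e' + 2) ^ 2 =
        8 * (kf + f' * e' + 2 * e' ^ 2 + 2 * e') + 4 * (f' + e') + 7 := by
      rw [hkf, hf']; ring
    have e2 : f ^ 2 - f * (4 * e' + 2) + (4 * e' + 2) ^ 2 =
        8 * (kf - f' * e' + 2 * e' ^ 2 + 2 * e') - 4 * (f' + e') + 3 := by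
      rw [hkf, hf']; ring
    rw [e1, e2]
    omega

theorem mul_sq_mod8_ne (p : ℕ) (A v : ℤ) (h : A = v ^ 2) (hA : A % 2 = 1) : A % 8 = 1 := by
  have hv : v % 2 = 1 := by
    by_contra hv
    obtain ⟨v', hv'⟩ : ∃ v', v = 2 * v' := ⟨v / 2, by omega⟩
    have : A = 2 * (2 * v' ^ 2) := by rw [h, hv']; ring
    omega
  obtain ⟨k, hk⟩ := odd_sq8 v hv
  rw [h, hk]; omega

/-- coprimality of the two quadratic factors. -/
theorem factors_coprime (f e : ℤ) (hc : IsCoprime f e) (hodd : (f ^ 2 + f * e + e ^ 2) % 2 = 1) :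
    IsCoprime (f ^ 2 + f * e + e ^ 2) (f ^ 2 - f * e + e ^ 2) := by
  have h1 : IsCoprime (f ^ 2 + f * e + e ^ 2) f := by
    have e1 : f ^ 2 + f * e + e ^ 2 = e ^ 2 + f * (f + e) := by ring
    rw [e1]; exact (IsCoprime.add_mul_left_left_iff).2 hc.symm.pow_left
  have h2 : IsCoprime (f ^ 2 + f * e + e ^ 2) e := by
    have e1 : f ^ 2 + f * e + e ^ 2 = f ^ 2 + e * (f + e) := by ring
    rw [e1]; exact (IsCoprime.add_mul_left_left_iff).2 hc.pow_left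
  have h3 : IsCoprime (f ^ 2 + f * e + e ^ 2) (-2) := by
    have : IsCoprime (f ^ 2 + f * e + e ^ 2) (2 : ℤ) :=
      ((Prime.coprime_iff_not_dvd Int.prime_two).2 (by omega)).symm
    exact this.neg_right
  have h4 : IsCoprime (f ^ 2 + f * e + e ^ 2) (-2 * (f * e)) := h3.mul_right (h1.mul_right h2)
  have e1 : f ^ 2 - f * e + e ^ 2 = -2 * (f * e) + (f ^ 2 + f * e + e ^ 2) * 1 := by ring
  rw [e1]
  exact (IsCoprime.add_mul_left_right_iff).2 h4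

theorem factors_pos (f e : ℤ) (hf : f ≠ 0) :
    0 < f ^ 2 + f * e + e ^ 2 ∧ 0 < f ^ 2 - f * e + e ^ 2 := by
  have h1 : 0 < f ^ 2 := by positivity
  constructor
  · nlinarith [sq_nonneg (2 * e + f)]
  · nlinarith [sq_nonneg (2 * e - f)]

theorem factors_odd (f e : ℤ) (hf : f % 2 = 1) :
    (f ^ 2 + f * e + e ^ 2) % 2 = 1 ∧ (f ^ 2 - f * e + e ^ 2) % 2 = 1 := by
  obtain ⟨f', hf'⟩ : ∃ f', f = 2 * f' + 1 := ⟨f / 2, by omega⟩
  obtain ⟨k, hk⟩ := (Int.even_mul_succ_self e).two_dvd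
  have e1 : f ^ 2 + f * e + e ^ 2 = 2 * (2 * f' ^ 2 + 2 * f' + f' * e + k) + 1 := by
    rw [hf']; linear_combination hk
  have e2 : f ^ 2 - f * e + e ^ 2 = 2 * (2 * f' ^ 2 + 2 * f' - f' * e + k - e) + 1 := by
    rw [hf']; linear_combination hk
  constructor <;> omega

/-- a prime `m` in the shape theorem excludes `e ≡ 6 mod 12`. -/
theorem not_prime_six (p : ℕ) (hp : p.Prime) (f e b : ℤ) (hf : f % 2 = 1) (hc : IsCoprime f e)
    (h : f ^ 4 + f ^ 2 * e ^ 2 + e ^ 4 = p * b ^ 2) : e % 8 ≠ 4 ∧ e % 4 ≠ 2 := by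
  have hf0 : f ≠ 0 := by rintro rfl; simp at hf
  obtain ⟨ho1, ho2⟩ := factors_odd f e hf
  obtain ⟨hA, hB⟩ := factors_pos f e hf0
  have hAB : (f ^ 2 + f * e + e ^ 2) * (f ^ 2 - f * e + e ^ 2) = p * b ^ 2 := by rw [← h]; ring
  obtain ⟨g1, g2⟩ := factors_mod8 f e hf
  rcases sq_split p hp _ _ b hA hB (factors_coprime f e hc ho1) hAB with ⟨v, w, h1, h2⟩ | ⟨v, w, h1, h2⟩
  · have h3 := mul_sq_mod8_ne p _ w h2 ho2
    constructor
    · intro h4; have := g1 h4; omega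
    · intro h4; have := g2 h4; omega
  · have h3 := mul_sq_mod8_ne p _ v h1 ho1
    constructor
    · intro h4; have := g1 h4; omega
    · intro h4; have := g2 h4; omega

/-- a prime `m` in the shape theorem with `3 ∤ e` excludes `e ≡ 4 mod 8`. -/
theorem not_prime_four (p : ℕ) (hp : p.Prime) (f e b : ℤ) (hf : f % 2 = 1) (hf3 : ¬ (3 : ℤ) ∣ f)
    (he3 : ¬ (3 : ℤ) ∣ e) (hc : IsCoprime f e)
    (h : f ^ 4 + f ^ 2 * e ^ 2 + e ^ 4 = 3 * (p * b ^ 2)) : e % 8 ≠ 4 := by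
  intro h4
  have hf0 : f ≠ 0 := by rintro rfl; simp at hf
  have key : ∀ e : ℤ, IsCoprime f e → (f ^ 4 + f ^ 2 * e ^ 2 + e ^ 4 = 3 * (p * b ^ 2)) →
      e % 8 = 4 → (3 : ℤ) ∣ f ^ 2 + f * e + e ^ 2 → False := by
    intro e hc h h4 h3
    obtain ⟨ho1, ho2⟩ := factors_odd f e hf
    obtain ⟨hA, hB⟩ := factors_pos f e hf0
    obtain ⟨g1, -⟩ := factors_mod8 f e hf
    obtain ⟨m1, m2⟩ := g1 h4
    have hcc := factors_coprime f e hc ho1
    obtain ⟨G, hG⟩ := h3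
    have hAB : G * (f ^ 2 - f * e + e ^ 2) = p * b ^ 2 := by
      have : 3 * (G * (f ^ 2 - f * e + e ^ 2)) = 3 * (p * b ^ 2) := by
        rw [← h, ← mul_assoc, ← hG]; ring
      linarith
    have hGpos : 0 < G := by
      rw [hG] at hA; linarith
    rw [hG] at hcc
    have hGodd : G % 2 = 1 := by rw [hG] at ho1; omega
    rcases sq_split p hp _ _ b hGpos hB hcc.of_mul_left_right hAB with ⟨v, w, h1, h2⟩ | ⟨v, w, h1, h2⟩
    · have h3 := mul_sq_mod8_ne p _ w h2 ho2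
      omega
    · have h3 := mul_sq_mod8_ne p _ v h1 hGodd
      rw [hG] at m1
      omega
  have hcase : f % 3 = e % 3 ∨ f % 3 = (-e) % 3 := by
    have h1 : f % 3 = 1 ∨ f % 3 = 2 := by omega
    have h2 : e % 3 = 1 ∨ e % 3 = 2 := by omega
    rcases h1 with h1 | h1 <;> rcases h2 with h2 | h2 <;> omega
  have hdiv : ∀ e : ℤ, f % 3 = e % 3 → (3 : ℤ) ∣ f ^ 2 + f * e + e ^ 2 := by
    intro e h
    obtain ⟨k, hk⟩ : ∃ k, f = e + 3 * k := ⟨(f - e) / 3, by omega⟩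
    exact ⟨e ^ 2 + 3 * e * k + 3 * k ^ 2, by rw [hk]; ring⟩
  rcases hcase with h5 | h5
  · exact key e hc h h4 (hdiv e h5)
  · exact key (-e) hc.neg_right (by rw [← h]; ring) (by omega) (hdiv (-e) h5)

end Pool.Agent.SixthPow
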