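import Pool.Agent.SixthPow.Clauses
import Pool.Agent.SixthPow.ShapeA
import Pool.Agent.SixthPow.DescR
import Pool.Agent.SixthPow.PrimeM

set_option autoImplicit false

namespace Pool.Agent.SixthPow

/-- two equal terms whose square is the product of two of the other terms: impossible. -/
theorem clause_pair (a b d e f : ℕ) (ha : 0 < a) (he : 0 < e)
    (h : a ^ 6 + b ^ 6 + b ^ 6 + d ^ 6 + e ^ 6 = f ^ 6) (hp : b ^ 2 = a * d) : False := by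
  obtain ⟨p, hpp, -, hodd⟩ := clause_prime a b b d e f ha he h
  have hsq : a ^ 6 + b ^ 6 + b ^ 6 + d ^ 6 = (a ^ 3 + d ^ 3) ^ 2 := by
    have h6 : b ^ 6 = a ^ 3 * d ^ 3 := by
      calc b ^ 6 = (b ^ 2) ^ 3 := by ring
        _ = a ^ 3 * d ^ 3 := by rw [hp]; ring
    rw [h6]; ring
  have : Fact p.Prime := ⟨hpp⟩
  rw [hsq, padicValNat.pow, Nat.odd_iff] at hodd
  omega

/-- three equal terms `a`, and `d² = a e` for the other two: impossible. -/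
theorem clause_triple (a d e f : ℕ) (ha : 0 < a) (he : 0 < e) (hd : 0 < d)
    (h : a ^ 6 + a ^ 6 + a ^ 6 + d ^ 6 + e ^ 6 = f ^ 6) (hp : d ^ 2 = a * e) : False := by
  obtain ⟨g, a', e', hg, hcop, rfl, rfl⟩ := Nat.exists_coprime' (m := a) (n := e)
    (Nat.gcd_pos_of_pos_left _ ha)
  have ha' : 0 < a' := by
    rcases Nat.eq_zero_or_pos a' with h0 | h0
    · rw [h0] at ha; simp at ha
    · exact h0
  have he' : 0 < e' := by
    rcases Nat.eq_zero_or_pos e' with h0 | h0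
    · rw [h0] at he; simp at he
    · exact h0
  have hgd : g ∣ d := by
    have : g ^ 2 ∣ d ^ 2 := ⟨a' * e', by rw [hp]; ring⟩
    exact (Nat.pow_dvd_pow_iff (by norm_num)).1 this
  obtain ⟨d', rfl⟩ := hgd
  have hd' : d' ^ 2 = a' * e' := by
    have : g ^ 2 * d' ^ 2 = g ^ 2 * (a' * e') := by
      calc g ^ 2 * d' ^ 2 = (g * d') ^ 2 := by ring
        _ = a' * g * (e' * g) := hp
        _ = g ^ 2 * (a' * e') := by ring
    exact Nat.eq_of_mul_eq_mul_left (by positivity) this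
  have hcopZ : IsCoprime (a' : ℤ) (e' : ℤ) := Nat.isCoprime_iff_coprime.2 hcop
  have hcZ : (a' : ℤ) * (e' : ℤ) = (d' : ℤ) ^ 2 := by exact_mod_cast hd'.symm
  obtain ⟨u, hu0, hu⟩ := pow_of_coprime_nonneg _ _ _ hcopZ (by positivity) hcZ
  obtain ⟨v, hv0, hv⟩ := pow_of_coprime_nonneg _ _ _ hcopZ.symm (by positivity)
    (by rw [mul_comm]; exact hcZ)
  have hune : u ≠ 0 := by
    rintro rfl
    have : (a' : ℤ) = 0 := by rw [hu]; ring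
    have : a' = 0 := by exact_mod_cast this
    omega
  have huv : IsCoprime u v := by
    rw [hu, hv] at hcopZ
    exact (IsCoprime.pow_iff (by norm_num) (by norm_num)).1 hcopZ
  have hgf : g ∣ f := by
    have h6 : g ^ 6 ∣ f ^ 6 := by
      rw [← h]
      exact ⟨a' ^ 6 + a' ^ 6 + a' ^ 6 + d' ^ 6 + e' ^ 6, by ring⟩
    exact (Nat.pow_dvd_pow_iff (by norm_num)).1 h6
  obtain ⟨f', rfl⟩ := hgf
  have hred : a' ^ 6 + a' ^ 6 + a' ^ 6 + d' ^ 6 + e' ^ 6 = f' ^ 6 := by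
    have : g ^ 6 * (a' ^ 6 + a' ^ 6 + a' ^ 6 + d' ^ 6 + e' ^ 6) = g ^ 6 * f' ^ 6 := by
      calc g ^ 6 * (a' ^ 6 + a' ^ 6 + a' ^ 6 + d' ^ 6 + e' ^ 6)
          = (a' * g) ^ 6 + (a' * g) ^ 6 + (a' * g) ^ 6 + (g * d') ^ 6 + (e' * g) ^ 6 := by ring
        _ = (g * f') ^ 6 := h
        _ = g ^ 6 * f' ^ 6 := by ring
    exact Nat.eq_of_mul_eq_mul_left (by positivity) this
  have hZ : (a' : ℤ) ^ 6 + (a' : ℤ) ^ 6 + (a' : ℤ) ^ 6 + (d' : ℤ) ^ 6 + (e' : ℤ) ^ 6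
      = (f' : ℤ) ^ 6 := by exact_mod_cast hred
  have hd2 : ((d' : ℤ)) ^ 2 = u ^ 2 * v ^ 2 := by rw [← hcZ, hu, hv]
  have hd6 : (d' : ℤ) ^ 6 = u ^ 6 * v ^ 6 := by
    calc (d' : ℤ) ^ 6 = ((d' : ℤ) ^ 2) ^ 3 := by ring
      _ = u ^ 6 * v ^ 6 := by rw [hd2]; ring
  refine sysR _ (u ^ 3) (v ^ 3) ((f' : ℤ) ^ 3) ?_ huv.pow (pow_ne_zero 3 hune) rfl
  calc ((f' : ℤ) ^ 3) ^ 2 = (f' : ℤ) ^ 6 := by ring
    _ = (a' : ℤ) ^ 6 + (a' : ℤ) ^ 6 + (a' : ℤ) ^ 6 + (d' : ℤ) ^ 6 + (e' : ℤ) ^ 6 := hZ.symm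
    _ = 3 * (u ^ 3) ^ 4 + (u ^ 3) ^ 2 * (v ^ 3) ^ 2 + (v ^ 3) ^ 4 := by rw [hd6, hu, hv]; ring

theorem clause_shape (a b c d e f : ℕ) (ha : 0 < a) (he : 0 < e)
    (h : a ^ 6 + b ^ 6 + c ^ 6 + d ^ 6 + e ^ 6 = f ^ 6)
    (hprim : ∀ k : ℕ, k ∣ a → k ∣ b → k ∣ c → k ∣ d → k ∣ e → k = 1) :
    ∃ m : ℕ, 1 < m ∧ Squarefree m ∧
      (∀ p : ℕ, p.Prime → p ∣ m → p % 3 = 1 ∧
        Odd (padicValNat p (a ^ 6 + b ^ 6 + c ^ 6 + d ^ 6))) ∧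
      (Nat.Coprime e 6 → m % 24 = 1) ∧ (12 ∣ e → m % 24 = 1) ∧ (e % 12 = 6 → m % 24 = 13) ∧
      (e % 6 = 3 → m % 24 = 19) ∧ (¬ 3 ∣ e → e % 4 = 0 → m % 24 = 19) ∧
      (¬ 3 ∣ e → e % 4 = 2 → m % 24 = 7) ∧
      (m.Prime → e % 8 ≠ 4 ∧ e % 12 ≠ 6 ∧
        ((Nat.Coprime e 6 ∨ 12 ∣ e) → ∃ w : ZMod m, w ^ 4 = -3)) := by
  obtain ⟨g, e', t, he', ht, hcop, hee, hff, hg, hgd, hS, hg2, hg3, hf'2, hf'3, hpe, hpe3, -, -⟩ :=
    setting a b c d e f ha he h hprim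
  obtain ⟨m, hm1, hsf, hall, c1, c2, c3, c4, c5, c6, q1, q2⟩ := shapeA e' t he' ht hcop hf'2 hf'3
  have hN0 : t * (2 * e' + t) * ((e' + t) ^ 2 + (e' + t) * e' + e' ^ 2) * ((e' + t) * t + e' ^ 2) ≠ 0 := by
    positivity
  -- residues of e and e' modulo 4
  have h4 : (e' % 4 = 0 ↔ e % 4 = 0) ∧ (e' % 4 = 2 ↔ e % 4 = 2) := by
    have hg4 : g % 4 = 1 ∨ g % 4 = 3 := by omega
    have he4 : e' % 4 = 0 ∨ e' % 4 = 1 ∨ e' % 4 = 2 ∨ e' % 4 = 3 := by omega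
    have hmod : e % 4 = (g % 4) * (e' % 4) % 4 := by rw [hee, Nat.mul_mod]
    rcases hg4 with hg4 | hg4 <;> rcases he4 with h' | h' | h' | h' <;>
      rw [hg4, h'] at hmod <;> norm_num at hmod <;> omega
  -- integral form of the setting
  have hx2 : (((e' + t : ℕ) : ℤ)) % 2 = 1 := by omega
  have hx3 : ¬ (3 : ℤ) ∣ ((e' + t : ℕ) : ℤ) := by
    intro h3; exact hf'3 (by exact_mod_cast h3)
  have hxy : IsCoprime (((e' + t : ℕ) : ℤ)) ((e' : ℕ) : ℤ) := by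
    have h1 : IsCoprime (e' : ℤ) (t : ℤ) := Nat.isCoprime_iff_coprime.2 hcop
    obtain ⟨s, r, hsr⟩ := h1
    exact ⟨r, s - r, by rw [← hsr]; push_cast; ring⟩
  have hQ1 : 3 ∣ e → ∃ b : ℤ, (((e' + t : ℕ) : ℤ)) ^ 4 + (((e' + t : ℕ) : ℤ)) ^ 2 * (e' : ℤ) ^ 2
      + (e' : ℤ) ^ 4 = (m : ℤ) * b ^ 2 := by
    intro h3
    obtain ⟨b, hb⟩ := q1 (hpe3.2 h3)
    refine ⟨(b : ℤ), ?_⟩
    have : ((((e' + t) ^ 2 + (e' + t) * e' + e' ^ 2) * ((e' + t) * t + e' ^ 2) : ℕ) : ℤ) =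
      ((m * b ^ 2 : ℕ) : ℤ) := by rw [hb]
    push_cast at this ⊢
    linear_combination this
  have hQ2 : ¬ 3 ∣ e → ∃ b : ℤ, (((e' + t : ℕ) : ℤ)) ^ 4 + (((e' + t : ℕ) : ℤ)) ^ 2 * (e' : ℤ) ^ 2
      + (e' : ℤ) ^ 4 = 3 * ((m : ℤ) * b ^ 2) := by
    intro h3
    obtain ⟨b, hb⟩ := q2 (fun h => h3 (hpe3.1 h))
    refine ⟨(b : ℤ), ?_⟩
    have : ((((e' + t) ^ 2 + (e' + t) * e' + e' ^ 2) * ((e' + t) * t + e' ^ 2) : ℕ) : ℤ) =
      ((3 * (m * b ^ 2) : ℕ) : ℤ) := by rw [hb]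
    push_cast at this ⊢
    linear_combination this
  have h8 : e % 8 = 4 → e' % 8 = 4 := by
    intro h84
    have hg8 : g % 8 = 1 ∨ g % 8 = 3 ∨ g % 8 = 5 ∨ g % 8 = 7 := by omega
    have he8 : e' % 8 = 0 ∨ e' % 8 = 1 ∨ e' % 8 = 2 ∨ e' % 8 = 3 ∨ e' % 8 = 4 ∨ e' % 8 = 5 ∨
      e' % 8 = 6 ∨ e' % 8 = 7 := by omega
    have hmod : e % 8 = (g % 8) * (e' % 8) % 8 := by rw [hee, Nat.mul_mod]
    rw [h84] at hmod
    rcases hg8 with hg8 | hg8 | hg8 | hg8 <;>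
      rcases he8 with h' | h' | h' | h' | h' | h' | h' | h' <;>
        rw [hg8, h'] at hmod <;> omega
  have hcop6 : Nat.Coprime e 6 → e % 2 = 1 ∧ ¬ 3 ∣ e := by
    intro hco
    have h2 : Nat.Coprime e 2 := Nat.Coprime.coprime_dvd_right (by norm_num) hco
    have h3 : Nat.Coprime e 3 := Nat.Coprime.coprime_dvd_right (by norm_num) hco
    exact ⟨Nat.odd_iff.1 (Nat.coprime_two_right.1 h2),
      (Nat.Prime.coprime_iff_not_dvd Nat.prime_three).1 h3.symm⟩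
  refine ⟨m, hm1, hsf, ?_, ?_, ?_, ?_, ?_, ?_, ?_, ?_⟩
  · intro p hp hpm
    obtain ⟨h1, h2⟩ := hall p hp hpm
    refine ⟨h1, ?_⟩
    rw [hS, val_red p g _ hp hg hN0, Nat.odd_iff]
    rw [Nat.odd_iff] at h2
    omega
  · intro hco
    have h2 : Nat.Coprime e 2 := Nat.Coprime.coprime_dvd_right (by norm_num) hco
    have h3 : Nat.Coprime e 3 := Nat.Coprime.coprime_dvd_right (by norm_num) hco
    have h2' : e % 2 = 1 := Nat.odd_iff.1 (Nat.coprime_two_right.1 h2)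
    have h3' : ¬ 3 ∣ e := (Nat.Prime.coprime_iff_not_dvd Nat.prime_three).1 h3.symm
    exact c1 (hpe.2 h2') (fun h => h3' (hpe3.1 h))
  · intro h12
    exact c3 (h4.1.2 (by omega)) (hpe3.2 (by omega))
  · intro h12
    exact c4 (h4.2.2 (by omega)) (hpe3.2 (by omega))
  · intro h6
    exact c2 (hpe.2 (by omega)) (hpe3.2 (by omega))
  · intro h3 h40
    exact c5 (h4.1.2 h40) (fun h => h3 (hpe3.1 h))
  · intro h3 h42
    exact c6 (h4.2.2 h42) (fun h => h3 (hpe3.1 h))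
  · intro hmp
    refine ⟨?_, ?_, ?_⟩
    · intro h84
      have h84' := h8 h84
      by_cases h3e : 3 ∣ e
      · obtain ⟨b, hb⟩ := hQ1 h3e
        exact (not_prime_six m hmp _ _ b hx2 hxy hb).1 (by omega)
      · obtain ⟨b, hb⟩ := hQ2 h3e
        refine not_prime_four m hmp _ _ b hx2 hx3 ?_ hxy hb (by omega)
        intro h
        exact h3e (hpe3.1 (by exact_mod_cast h))
    · intro h12
      obtain ⟨b, hb⟩ := hQ1 (by omega)
      have h42 := h4.2.2 (by omega : e % 4 = 2)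
      exact (not_prime_six m hmp _ _ b hx2 hxy hb).2 (by omega)
    · intro hcase
      rcases hcase with hco | h12
      · obtain ⟨h2e, h3e⟩ := hcop6 hco
        obtain ⟨b, hb⟩ := hQ2 h3e
        have he'2 := hpe.2 h2e
        have hm24 := c1 he'2 (fun h => h3e (hpe3.1 h))
        refine fourth_beta m hmp (by omega) _ _ b hb hxy hx2 (by omega) ?_
        intro heq
        have h1 : (e' + t) ^ 2 = e' ^ 2 := by exact_mod_cast heq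
        nlinarith
      · obtain ⟨b, hb⟩ := hQ1 (by omega)
        have h40 := h4.1.2 (by omega : e % 4 = 0)
        have h3e' := hpe3.2 (by omega : 3 ∣ e)
        have hm24 := c3 h40 h3e'
        exact fourth_alpha m hmp (by omega) _ _ b hb hxy hx2 hx3 (by omega) (by omega) (by omega)

end Pool.Agent.SixthPow
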