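import Pool.Agent.SixthPow.SysK

set_option autoImplicit false

open scoped NumberTheorySymbols

namespace Pool.Agent.SixthPow

theorem isSquare_of_recip (p n : ℕ) (hp : p.Prime) (hp4 : p % 4 = 1) (hn : n % 2 = 1)
    (h : jacobiSym p n = 1) : IsSquare ((n : ℕ) : ZMod p) := by
  have : Fact p.Prime := ⟨hp⟩
  have h1 : jacobiSym (n : ℤ) p = 1 := by
    rw [← jacobiSym.quadratic_reciprocity_one_mod_four hp4 (Nat.odd_iff.2 hn)]
    exact h
  have := ZMod.isSquare_of_jacobiSym_eq_one h1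
  simpa using this

/-- from `p v² ≡ k s²` modulo `n`. -/
theorem jacobi_of_congr (p n : ℕ) (v k s : ℤ) (hn : n ≠ 0)
    (hc : IsCoprime (k * s ^ 2) (n : ℤ)) (h : (n : ℤ) ∣ p * v ^ 2 - k * s ^ 2) :
    jacobiSym p n = jacobiSym k n := by
  have hcong : ((p : ℤ) * v ^ 2) % n = (k * s ^ 2) % n := ((Int.modEq_iff_dvd).2 h).symm
  have h1 : jacobiSym ((p : ℤ) * v ^ 2) n = jacobiSym (k * s ^ 2) n := jacobiSym.mod_left' hcong
  have hcs : IsCoprime s (n : ℤ) := (IsCoprime.pow_left_iff (by norm_num)).1 hc.of_mul_left_right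
  have hcv : IsCoprime v (n : ℤ) := by
    have h2 : IsCoprime ((p : ℤ) * v ^ 2) (n : ℤ) := by
      obtain ⟨w, hw⟩ := h
      have : (p : ℤ) * v ^ 2 = k * s ^ 2 + (n : ℤ) * w := by linarith
      rw [this]
      exact (IsCoprime.add_mul_left_left_iff).2 hc
    exact (IsCoprime.pow_left_iff (by norm_num)).1 h2.of_mul_left_right
  rw [jacobiSym.mul_left, jacobiSym.mul_left,
    jacobiSym.sq_one' (Int.isCoprime_iff_gcd_eq_one.1 hcv),
    jacobiSym.sq_one' (Int.isCoprime_iff_gcd_eq_one.1 hcs), mul_one, mul_one] at h1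
  exact h1

theorem jacobi_three (n : ℕ) (h : n % 12 = 1 ∨ n % 12 = 11) : jacobiSym 3 n = 1 := by
  have hodd : Odd n := Nat.odd_iff.2 (by omega)
  rw [jacobiSym.mod_right 3 hodd]
  have e1 : 4 * (3 : ℤ).natAbs = 12 := by norm_num
  rw [e1]
  rcases h with h | h
  · rw [h]; exact jacobiSym.one_right 3
  · rw [h]; norm_num

theorem isSquare_int_of_natAbs (p : ℕ) (hp : p.Prime) (hp4 : p % 4 = 1) (T : ℤ)
    (h : IsSquare ((T.natAbs : ℕ) : ZMod p)) : IsSquare ((T : ℤ) : ZMod p) := by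
  have : Fact p.Prime := ⟨hp⟩
  have hTn := Int.natAbs_eq T
  generalize T.natAbs = n at h hTn
  rcases hTn with hT | hT
  · rw [hT, Int.cast_natCast]; exact h
  · rw [hT]
    have hm1 : IsSquare (-1 : ZMod p) := by
      rw [ZMod.exists_sq_eq_neg_one_iff]; omega
    have : ((-(n : ℤ) : ℤ) : ZMod p) = (-1) * ((n : ℕ) : ZMod p) := by
      rw [Int.cast_neg, Int.cast_natCast]; ring
    rw [this]
    exact hm1.mul h

/-- a natural number all of whose odd divisors are squares modulo `p` is a square modulo `p`. -/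
theorem isSquare_of_odd_part (p : ℕ) (hp : p.Prime) (hp8 : p % 8 = 1) (n : ℕ) :
    n ≠ 0 → (∀ o : ℕ, o ∣ n → o % 2 = 1 → IsSquare ((o : ℕ) : ZMod p)) →
      IsSquare ((n : ℕ) : ZMod p) := by
  have : Fact p.Prime := ⟨hp⟩
  induction n using Nat.strong_induction_on with
  | _ n ih =>
    intro hn h
    rcases Nat.mod_two_eq_zero_or_one n with h2 | h2
    · obtain ⟨k, hk⟩ : ∃ k, n = 2 * k := ⟨n / 2, by omega⟩
      have hk0 : k ≠ 0 := by rintro rfl; exact hn (by rw [hk])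
      have h3 := ih k (by omega) hk0 (fun o ho ho2 => h o (by rw [hk]; exact Dvd.dvd.mul_left ho 2) ho2)
      have htwo : IsSquare (2 : ZMod p) := by
        rw [ZMod.exists_sq_eq_two_iff (by rintro rfl; omega)]
        left; exact hp8
      have : ((n : ℕ) : ZMod p) = 2 * ((k : ℕ) : ZMod p) := by rw [hk]; push_cast; ring
      rw [this]
      exact htwo.mul h3
    · exact h n (dvd_refl n) h2

/-- the quartic condition. -/
theorem fourth_core (p : ℕ) (hp : p.Prime) (hp8 : p % 8 = 1) (U T v : ℤ)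
    (h : U ^ 2 + 3 * T ^ 2 = p * v ^ 2) (hc : IsCoprime U (3 * T)) (hT : T ≠ 0)
    (hU : U.natAbs % 12 = 1 ∨ U.natAbs % 12 = 11) : ∃ w : ZMod p, w ^ 4 = -3 := by
  have : Fact p.Prime := ⟨hp⟩
  have hp4 : p % 4 = 1 := by omega
  have hcUT : IsCoprime U T := hc.of_mul_right_right
  have hU0 : U.natAbs ≠ 0 := by rintro h0; rw [h0] at hU; omega
  -- U is a square modulo p
  have hUsq : IsSquare ((U : ℤ) : ZMod p) := by
    apply isSquare_int_of_natAbs p hp hp4
    apply isSquare_of_recip p _ hp hp4 (by omega)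
    rw [jacobi_of_congr p U.natAbs v 3 T hU0 ?_ ?_]
    · exact jacobi_three _ hU
    · have h1 : IsCoprime (3 * T ^ 2) U := by
        refine IsCoprime.mul_left hc.of_mul_right_left.symm hcUT.symm.pow_left
      rcases Int.natAbs_eq U with h2 | h2
      · rw [← h2]; exact h1
      · have : ((U.natAbs : ℕ) : ℤ) = -U := by omega
        rw [this]; exact h1.neg_right
    · rw [Int.natAbs_dvd]
      exact ⟨U, by linear_combination -h⟩
  have hTsq : IsSquare ((T : ℤ) : ZMod p) := by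
    apply isSquare_int_of_natAbs p hp hp4
    apply isSquare_of_odd_part p hp hp8 _ (Int.natAbs_ne_zero.2 hT)
    intro o ho ho2
    have hoT : (o : ℤ) ∣ T := Int.natCast_dvd.2 ho
    apply isSquare_of_recip p _ hp hp4 ho2
    rw [jacobi_of_congr p o v 1 U (by rintro rfl; simp at ho2) ?_ ?_]
    · exact jacobiSym.one_left _
    · rw [one_mul]
      exact (IsCoprime.pow_left (IsCoprime.of_isCoprime_of_dvd_right hcUT hoT))
    · have : (p : ℤ) * v ^ 2 - 1 * U ^ 2 = T * (3 * T) := by linear_combination -h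
      rw [this]
      exact Dvd.dvd.mul_right hoT _
  have hTz : ((T : ℤ) : ZMod p) ≠ 0 := by
    intro h0
    have h1 : (p : ℤ) ∣ T := (ZMod.intCast_zmod_eq_zero_iff_dvd _ _).1 h0
    have hpp : Prime (p : ℤ) := Nat.prime_iff_prime_int.1 hp
    have h2 : (p : ℤ) ∣ U ^ 2 := by
      have : U ^ 2 = p * v ^ 2 - 3 * T ^ 2 := by linarith
      rw [this]
      exact dvd_sub (Dvd.intro _ rfl) (Dvd.dvd.mul_left (dvd_pow h1 (by norm_num)) 3)
    have h3 := hpp.dvd_of_dvd_pow h2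
    exact hpp.not_isUnit (hcUT.isUnit_of_dvd' h3 h1)
  obtain ⟨s, hs⟩ := hUsq
  obtain ⟨t, ht⟩ := hTsq
  have ht0 : t ≠ 0 := by rintro rfl; exact hTz (by rw [ht]; ring)
  refine ⟨s / t, ?_⟩
  have hz : ((U : ℤ) : ZMod p) ^ 2 + 3 * ((T : ℤ) : ZMod p) ^ 2 = 0 := by
    have h1 : ((U ^ 2 + 3 * T ^ 2 : ℤ) : ZMod p) = ((p * v ^ 2 : ℤ) : ZMod p) := by rw [h]
    push_cast at h1
    rw [h1, ZMod.natCast_self, zero_mul]
  rw [hs, ht] at hz
  have ht4 : t ^ 4 ≠ 0 := pow_ne_zero 4 ht0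
  rw [div_pow, div_eq_iff ht4]
  linear_combination hz

end Pool.Agent.SixthPow
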