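import Pool.Agent.SixthPow.SysK

set_option autoImplicit false

namespace Pool.Agent.SixthPow

theorem aux_three (p q z : ℤ) (hpq : IsCoprime p q) (hpar : (p + q) % 2 = 1) (h3 : (3 : ℤ) ∣ q)
    (h : (3 * p ^ 2 + q ^ 2) * (p ^ 2 + 3 * q ^ 2) = 3 * z ^ 2) : q = 0 := by
  obtain ⟨r, rfl⟩ := h3
  have h3p : ¬ (3 : ℤ) ∣ p := by
    intro h3
    have h4 : (3 : ℤ) ∣ 1 := by
      obtain ⟨s, t, hst⟩ := hpq
      rw [← hst]
      exact dvd_add (Dvd.dvd.mul_left h3 s) (Dvd.dvd.mul_left (Dvd.intro _ rfl) t)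
    omega
  have hpr : IsCoprime p r := hpq.of_mul_right_right
  have hpar' : (p + r) % 2 = 1 := by omega
  have h' : (p ^ 2 + 3 * r ^ 2) * (p ^ 2 + 27 * r ^ 2) = z ^ 2 := by
    have : 3 * ((p ^ 2 + 3 * r ^ 2) * (p ^ 2 + 27 * r ^ 2)) = 3 * z ^ 2 := by rw [← h]; ring
    linarith
  have hu : (p ^ 2 + 3 * r ^ 2) % 2 = 1 := by
    obtain ⟨j, hj⟩ : ∃ j, p = 2 * j + 1 - r := ⟨(p + r) / 2, by omega⟩
    have : p ^ 2 + 3 * r ^ 2 = 2 * (2 * j ^ 2 + 2 * j - 2 * j * r - r + 2 * r ^ 2) + 1 := by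
      rw [hj]; ring
    omega
  have hu3 : ¬ (3 : ℤ) ∣ (p ^ 2 + 3 * r ^ 2) := by
    intro h4
    apply h3p
    apply Int.prime_three.dvd_of_dvd_pow (n := 2)
    have : p ^ 2 = (p ^ 2 + 3 * r ^ 2) - 3 * r ^ 2 := by ring
    rw [this]
    exact dvd_sub h4 (Dvd.intro _ rfl)
  have h12 : IsCoprime (12 : ℤ) (p ^ 2 + 3 * r ^ 2) := coprime_six _ hu hu3
  have h2 : IsCoprime (2 : ℤ) (p ^ 2 + 3 * r ^ 2) :=
    (Prime.coprime_iff_not_dvd Int.prime_two).2 (by omega)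
  have h24 : IsCoprime (2 * 12 : ℤ) (p ^ 2 + 3 * r ^ 2) := h2.mul_left h12
  have hcop : IsCoprime (p ^ 2 + 3 * r ^ 2) (p ^ 2 + 27 * r ^ 2) := by
    obtain ⟨s, t, hst⟩ : IsCoprime (p ^ 2) (r ^ 2) := hpr.pow
    obtain ⟨x, y, hxy⟩ := h24
    refine ⟨y + x * (27 * s - t), x * (t - 3 * s), ?_⟩
    linear_combination hxy + 24 * x * hst
  obtain ⟨A, -, hA⟩ := pow_of_coprime_nonneg _ _ z hcop (by positivity) h'
  obtain ⟨B, -, hB⟩ := pow_of_coprime_nonneg _ _ z hcop.symm (by positivity) (by rw [mul_comm]; exact h')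
  by_contra hr
  have hr0 : r ≠ 0 := by rintro rfl; exact hr (by ring)
  exact sysK _ p r A B hA hB hpr h3p hpar' hr0 rfl

theorem pyth_three (x y z : ℤ) (h : x ^ 4 + x ^ 2 * y ^ 2 + y ^ 4 = 3 * z ^ 2)
    (hxy : IsCoprime x y) : x ^ 2 = y ^ 2 := by
  have hodd : x % 2 = 1 ∧ y % 2 = 1 := by
    have hz : ∃ k, z ^ 2 = 4 * k ∨ z ^ 2 = 4 * k + 1 := by
      rcases Int.emod_two_eq_zero_or_one z with hz | hz
      · obtain ⟨z', rfl⟩ : ∃ z', z = 2 * z' := ⟨z / 2, by omega⟩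
        exact ⟨z' ^ 2, Or.inl (by ring)⟩
      · obtain ⟨k, hk⟩ := odd_sq8 z hz
        exact ⟨2 * k, Or.inr (by rw [hk]; ring)⟩
    obtain ⟨kz, hkz⟩ := hz
    rcases Int.emod_two_eq_zero_or_one x with hx2 | hx2 <;>
      rcases Int.emod_two_eq_zero_or_one y with hy2 | hy2
    · exfalso
      have h2 : (2 : ℤ) ∣ 1 := by
        obtain ⟨s, t, hst⟩ := hxy
        rw [← hst]
        exact dvd_add (Dvd.dvd.mul_left (by omega) s) (Dvd.dvd.mul_left (by omega) t)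
      omega
    · exfalso
      obtain ⟨x', rfl⟩ : ∃ x', x = 2 * x' := ⟨x / 2, by omega⟩
      obtain ⟨y', rfl⟩ : ∃ y', y = 2 * y' + 1 := ⟨y / 2, by omega⟩
      rcases hkz with hkz | hkz <;> rw [hkz] at h <;> ring_nf at h <;> omega
    · exfalso
      obtain ⟨x', rfl⟩ : ∃ x', x = 2 * x' + 1 := ⟨x / 2, by omega⟩
      obtain ⟨y', rfl⟩ : ∃ y', y = 2 * y' := ⟨y / 2, by omega⟩
      rcases hkz with hkz | hkz <;> rw [hkz] at h <;> ring_nf at h <;> omega
    · exact ⟨hx2, hy2⟩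
  obtain ⟨p, hp⟩ : ∃ p, x + y = 2 * p := ⟨(x + y) / 2, by omega⟩
  obtain ⟨q, hq⟩ : ∃ q, x - y = 2 * q := ⟨(x - y) / 2, by omega⟩
  have hx : x = p + q := by linarith
  have hy : y = p - q := by linarith
  have hpq : IsCoprime p q := by
    obtain ⟨s, t, hst⟩ := hxy
    exact ⟨s + t, s - t, by rw [← hst, hx, hy]; ring⟩
  have hpar : (p + q) % 2 = 1 := by rw [← hx]; exact hodd.1
  have h' : (3 * p ^ 2 + q ^ 2) * (p ^ 2 + 3 * q ^ 2) = 3 * z ^ 2 := by
    rw [← h, hx, hy]; ring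
  have h3 : (3 : ℤ) ∣ (3 * p ^ 2 + q ^ 2) * (p ^ 2 + 3 * q ^ 2) := ⟨_, h'⟩
  rcases Int.prime_three.dvd_or_dvd h3 with h3 | h3
  · have : (3 : ℤ) ∣ q := by
      apply Int.prime_three.dvd_of_dvd_pow (n := 2)
      have e : q ^ 2 = (3 * p ^ 2 + q ^ 2) - 3 * p ^ 2 := by ring
      rw [e]
      exact dvd_sub h3 (Dvd.intro _ rfl)
    have hq0 := aux_three p q z hpq hpar this h'
    rw [hx, hy, hq0]; ring
  · have : (3 : ℤ) ∣ p := by
      apply Int.prime_three.dvd_of_dvd_pow (n := 2)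
      have e : p ^ 2 = (p ^ 2 + 3 * q ^ 2) - 3 * q ^ 2 := by ring
      rw [e]
      exact dvd_sub h3 (Dvd.intro _ rfl)
    have hp0 := aux_three q p z hpq.symm (by rw [add_comm]; exact hpar) this
      (by rw [← h']; ring)
    rw [hx, hy, hp0]; ring

/-! ### System G -/

theorem dvd_five_cases (k : ℤ) (h : k ∣ 5) (hk : 0 < k) : k = 1 ∨ k = 5 := by
  have h1 : k ≤ 5 := Int.le_of_dvd (by norm_num) h
  obtain ⟨j, hj⟩ := h
  interval_cases k <;> omega

theorem coreG (X Y Z W : ℤ) (h1 : Z ^ 2 + Y ^ 2 = X ^ 2) (h2 : X ^ 2 + 4 * Y ^ 2 = W ^ 2)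
    (hX : X % 2 = 1) (hW : W % 2 = 1) (hXY : IsCoprime X Y) (hY : Y ≠ 0) :
    ∃ r s p q : ℤ, r ^ 2 - s ^ 2 = p ^ 2 + q ^ 2 ∧ r * s = 2 * (p * q) ∧ IsCoprime r s ∧
      IsCoprime p q ∧ r * s ≠ 0 ∧ r ^ 2 + s ^ 2 = |W| := by
  have hYe : Y % 2 = 0 := by
    by_contra h
    obtain ⟨k1, hk1⟩ := odd_sq8 Y (by omega)
    obtain ⟨k2, hk2⟩ := odd_sq8 X hX
    obtain ⟨k3, hk3⟩ := odd_sq8 W hW
    omega
  have hZ : Z % 2 = 1 := by
    by_contra h
    obtain ⟨b', hb'⟩ : ∃ b', Z = 2 * b' := ⟨Z / 2, by omega⟩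
    obtain ⟨a', ha'⟩ : ∃ a', Y = 2 * a' := ⟨Y / 2, by omega⟩
    obtain ⟨k3, hk3⟩ := odd_sq8 X hX
    rw [hb', ha', hk3] at h1
    ring_nf at h1
    omega
  have hX0 : 0 < |X| := by rw [abs_pos]; rintro rfl; simp at hX
  have hW0 : 0 < |W| := by rw [abs_pos]; rintro rfl; simp at hW
  have hXX : |X| * |X| = X ^ 2 := by rw [abs_mul_abs_self]; ring
  have hWW : |W| * |W| = W ^ 2 := by rw [abs_mul_abs_self]; ring
  have hX1 : |X| % 2 = 1 := by
    rcases abs_choice X with h | h <;> rw [h]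
    · exact hX
    · omega
  have hZY : IsCoprime Z Y := by
    have : IsCoprime (X ^ 2) Y := hXY.pow_left
    rw [← h1] at this
    have h4 : Z ^ 2 + Y ^ 2 = Z ^ 2 + Y * Y := by ring
    rw [h4] at this
    exact (IsCoprime.pow_left_iff (by norm_num)).1 ((IsCoprime.add_mul_left_left_iff).1 this)
  have hX2Y : IsCoprime |X| (2 * Y) := by
    have h5 : IsCoprime X (2 * Y) := by
      refine IsCoprime.mul_right ?_ hXY
      exact ((Prime.coprime_iff_not_dvd Int.prime_two).2 (by omega)).symm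
    rcases abs_choice X with h | h <;> rw [h]
    · exact h5
    · exact h5.neg_left
  obtain ⟨p, q, hp1, hp2, hp3, hp4, -, -⟩ := PythagoreanTriple.coprime_classification'
    (x := Z) (y := Y) (z := |X|) (by unfold PythagoreanTriple; rw [hXX, ← h1]; ring)
    (Int.isCoprime_iff_gcd_eq_one.1 hZY) hZ hX0
  obtain ⟨r, s, hr1, hr2, hr3, hr4, -, -⟩ := PythagoreanTriple.coprime_classification'
    (x := |X|) (y := 2 * Y) (z := |W|) (by unfold PythagoreanTriple; rw [hWW, hXX, ← h2]; ring)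
    (Int.isCoprime_iff_gcd_eq_one.1 hX2Y) hX1 hW0
  have hrs : r * s = Y := by linarith
  refine ⟨r, s, p, q, by rw [← hr1, ← hp3], by rw [hrs, hp2]; ring,
    Int.isCoprime_iff_gcd_eq_one.2 hr4, Int.isCoprime_iff_gcd_eq_one.2 hp4, by rw [hrs]; exact hY,
    hr3.symm⟩

theorem sysG (N : ℕ) : ∀ A B m n : ℤ, A ^ 2 - B ^ 2 = m ^ 2 + n ^ 2 → A * B = 2 * (m * n) →
    IsCoprime A B → IsCoprime m n → A * B ≠ 0 → (A ^ 2 + B ^ 2).natAbs = N → False := by
  induction N using Nat.strong_induction_on with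
  | _ N ih =>
    intro A B m n h1 h2 hAB hmn h0 hN
    have hpar : A % 2 = 1 ∧ B % 2 = 0 := by
      rcases Int.emod_two_eq_zero_or_one A with hx2 | hx2 <;>
        rcases Int.emod_two_eq_zero_or_one B with hy2 | hy2
      · exfalso
        have h2 : (2 : ℤ) ∣ 1 := by
          obtain ⟨s, t, hst⟩ := hAB
          rw [← hst]
          exact dvd_add (Dvd.dvd.mul_left (by omega) s) (Dvd.dvd.mul_left (by omega) t)
        omega
      · exfalso
        obtain ⟨A', rfl⟩ : ∃ A', A = 2 * A' := ⟨A / 2, by omega⟩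
        obtain ⟨kB, hkB⟩ := odd_sq8 B hy2
        have hsq : ∀ t : ℤ, ∃ k, t ^ 2 = 4 * k ∨ t ^ 2 = 4 * k + 1 := by
          intro z
          rcases Int.emod_two_eq_zero_or_one z with hz | hz
          · obtain ⟨z', rfl⟩ : ∃ z', z = 2 * z' := ⟨z / 2, by omega⟩
            exact ⟨z' ^ 2, Or.inl (by ring)⟩
          · obtain ⟨k, hk⟩ := odd_sq8 z hz
            exact ⟨2 * k, Or.inr (by rw [hk]; ring)⟩
        obtain ⟨k1, hk1⟩ := hsq m
        obtain ⟨k2, hk2⟩ := hsq n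
        rw [hkB] at h1
        ring_nf at h1
        omega
      · exact ⟨hx2, hy2⟩
      · exfalso
        have : (A * B) % 2 = 1 := by rw [Int.mul_emod, hx2, hy2]; rfl
        rw [h2] at this
        omega
    obtain ⟨hAo, hBe⟩ := hpar
    obtain ⟨B', rfl⟩ : ∃ B', B = 2 * B' := ⟨B / 2, by omega⟩
    have hA0 : A ≠ 0 := left_ne_zero_of_mul h0
    have hB0 : B' ≠ 0 := right_ne_zero_of_mul (right_ne_zero_of_mul h0)
    have h2' : A * B' = m * n := by linarith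
    obtain ⟨a, b, c, d, rfl, rfl, rfl, rfl, hbc⟩ := four_numbers A B' m n h2' hA0
    have ha : a ≠ 0 := left_ne_zero_of_mul hA0
    have hb : b ≠ 0 := right_ne_zero_of_mul hA0
    have hc : c ≠ 0 := left_ne_zero_of_mul hB0
    have hd : d ≠ 0 := right_ne_zero_of_mul hB0
    have had : IsCoprime a d := hAB.of_mul_left_left.of_mul_right_right.of_mul_right_right
    have hao : a % 2 = 1 := by
      by_contra h
      obtain ⟨a', ha'⟩ : ∃ a', a = 2 * a' := ⟨a / 2, by omega⟩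
      rw [ha', mul_assoc] at hAo
      omega
    have hbo : b % 2 = 1 := by
      by_contra h
      obtain ⟨b', hb'⟩ : ∃ b', b = 2 * b' := ⟨b / 2, by omega⟩
      have : a * b = 2 * (a * b') := by rw [hb']; ring
      rw [this] at hAo
      omega
    have hkey : d ^ 2 * (b ^ 2 + 4 * c ^ 2) = a ^ 2 * (b ^ 2 - c ^ 2) := by linear_combination -h1
    have had2 : IsCoprime (d ^ 2) (a ^ 2) := had.symm.pow
    obtain ⟨k, hk⟩ : d ^ 2 ∣ b ^ 2 - c ^ 2 := had2.dvd_of_dvd_mul_left ⟨_, hkey.symm⟩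
    have hk2 : b ^ 2 + 4 * c ^ 2 = a ^ 2 * k := by
      apply mul_left_cancel₀ (pow_ne_zero 2 hd)
      rw [hkey, hk]; ring
    have hkpos : 0 < k := by
      have h5 : 0 < b ^ 2 + 4 * c ^ 2 := by positivity
      rw [hk2] at h5
      exact (mul_pos_iff_of_pos_left (by positivity)).1 h5
    have hk5 : k ∣ 5 := by
      obtain ⟨s, t, hst⟩ : IsCoprime (b ^ 2) (c ^ 2) := hbc.pow
      have e1 : (5 : ℤ) = k * (s * (4 * d ^ 2 + a ^ 2) + t * (a ^ 2 - d ^ 2)) := by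
        have e2 : k * (4 * d ^ 2 + a ^ 2) = 5 * b ^ 2 := by linear_combination -hk2 - 4 * hk
        have e3 : k * (a ^ 2 - d ^ 2) = 5 * c ^ 2 := by linear_combination hk - hk2
        linear_combination -5 * hst - s * e2 - t * e3
      exact ⟨_, e1⟩
    have hfin : ∀ W : ℤ, (W = a ∨ W = b) → |W| < (a * b) ^ 2 + (2 * (c * d)) ^ 2 := by
      intro t ht
      have hc1 : 0 < (2 * (c * d)) ^ 2 := by positivity
      have ha1 : 1 ≤ |a| := Int.one_le_abs ha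
      have hb1 : 1 ≤ |b| := Int.one_le_abs hb
      have : (a * b) ^ 2 = |a| ^ 2 * |b| ^ 2 := by rw [sq_abs, sq_abs]; ring
      rw [this]
      rcases ht with rfl | rfl
      · nlinarith [mul_le_mul ha1 ha1 (by norm_num) (by positivity), mul_le_mul hb1 hb1 (by norm_num) (by positivity), sq_nonneg (|t| - 1), sq_nonneg (|b| - 1)]
      · nlinarith [mul_le_mul ha1 ha1 (by norm_num) (by positivity), mul_le_mul hb1 hb1 (by norm_num) (by positivity), sq_nonneg (|a| - 1), sq_nonneg (|t| - 1)]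
    have hclose : ∀ W : ℤ, (W = a ∨ W = b) → (∃ r s p q : ℤ, r ^ 2 - s ^ 2 = p ^ 2 + q ^ 2 ∧
        r * s = 2 * (p * q) ∧ IsCoprime r s ∧ IsCoprime p q ∧ r * s ≠ 0 ∧ r ^ 2 + s ^ 2 = |W|) →
        False := by
      rintro W hW ⟨r, s, p, q, g1, g2, g3, g4, g5, g6⟩
      have hlt := hfin W hW
      rw [← g6] at hlt
      have hpos : 0 ≤ r ^ 2 + s ^ 2 := by positivity
      exact ih _ (by rw [← hN]; omega) r s p q g1 g2 g3 g4 g5 rfl
    have hbd : IsCoprime b c := hbc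
    rcases dvd_five_cases k hk5 hkpos with rfl | rfl
    · -- b² = c² + d², a² = b² + 4c²
      exact hclose a (Or.inl rfl) (coreG b c d a (by linarith) (by linarith) hbo hao hbc hc)
    · -- a² = c² + d², b² = a² + 4d²
      exact hclose b (Or.inr rfl) (coreG a d c b (by nlinarith) (by nlinarith) hao hbo had hd)

end Pool.Agent.SixthPow
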