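import Pool.Agent.SixthPow.Fourth
import Pool.Agent.SixthPow.Quartic

set_option autoImplicit false

namespace Pool.Agent.SixthPow

theorem sq_split (p : ℕ) (hp : p.Prime) (A B z : ℤ) (hA : 0 < A) (hB : 0 < B)
    (hc : IsCoprime A B) (h : A * B = p * z ^ 2) :
    (∃ v w : ℤ, A = p * v ^ 2 ∧ B = w ^ 2) ∨ (∃ v w : ℤ, A = v ^ 2 ∧ B = p * w ^ 2) := by
  have hpp : Prime (p : ℤ) := Nat.prime_iff_prime_int.1 hp
  have hp0 : (p : ℤ) ≠ 0 := hpp.ne_zero
  have hppos : (0 : ℤ) < p := by exact_mod_cast hp.pos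
  have key : ∀ A B : ℤ, 0 < A → 0 < B → IsCoprime A B → A * B = p * z ^ 2 → (p : ℤ) ∣ A →
      ∃ v w : ℤ, A = p * v ^ 2 ∧ B = w ^ 2 := by
    intro A B hA hB hc h hd
    obtain ⟨A', rfl⟩ := hd
    have h4 : A' * B = z ^ 2 := by
      apply mul_left_cancel₀ hp0
      rw [← h]; ring
    have hA' : 0 ≤ A' := ((mul_pos_iff_of_pos_left hppos).1 hA).le
    obtain ⟨g, -, hg⟩ := pow_of_coprime_nonneg A' B z hc.of_mul_left_right hA' h4
    obtain ⟨k, -, hk⟩ := pow_of_coprime_nonneg B A' z hc.of_mul_left_right.symm hB.le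
      (by rw [mul_comm]; exact h4)
    exact ⟨g, k, by rw [hg], hk⟩
  have hd : (p : ℤ) ∣ A * B := ⟨_, h⟩
  rcases hpp.dvd_or_dvd hd with hd | hd
  · left; exact key A B hA hB hc h hd
  · right
    obtain ⟨v, w, h1, h2⟩ := key B A hB hA hc.symm (by rw [mul_comm]; exact h) hd
    exact ⟨w, v, h2, h1⟩

theorem sq_mod12_odd (k : ℤ) (h2 : k % 2 = 1) (h3 : ¬ (3 : ℤ) ∣ k) : ∃ j, k ^ 2 = 12 * j + 1 := by
  have : k % 6 = 1 ∨ k % 6 = 5 := by omega
  rcases this with h | h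
  · obtain ⟨i, rfl⟩ : ∃ i, k = 6 * i + 1 := ⟨k / 6, by omega⟩
    exact ⟨3 * i ^ 2 + i, by ring⟩
  · obtain ⟨i, rfl⟩ : ∃ i, k = 6 * i + 5 := ⟨k / 6, by omega⟩
    exact ⟨3 * i ^ 2 + 5 * i + 2, by ring⟩

theorem sq_mod12_even (k : ℤ) (h2 : k % 2 = 0) (h3 : ¬ (3 : ℤ) ∣ k) : ∃ j, k ^ 2 = 12 * j + 4 := by
  have : k % 6 = 2 ∨ k % 6 = 4 := by omega
  rcases this with h | h
  · obtain ⟨i, rfl⟩ : ∃ i, k = 6 * i + 2 := ⟨k / 6, by omega⟩
    exact ⟨3 * i ^ 2 + 2 * i, by ring⟩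
  · obtain ⟨i, rfl⟩ : ∃ i, k = 6 * i + 4 := ⟨k / 6, by omega⟩
    exact ⟨3 * i ^ 2 + 4 * i + 1, by ring⟩

/-- `k² − 3c g² ≡ 1` modulo `12` when exactly one of `g, k` is even, `3 ∤ k`, `c ≡ 1 mod 4`. -/
theorem res12 (g k c : ℤ) (hc : c % 4 = 1) (hev : (g * k) % 2 = 0) (hcop : IsCoprime g k)
    (h3 : ¬ (3 : ℤ) ∣ k) : (k ^ 2 - 3 * c * g ^ 2) % 12 = 1 := by
  obtain ⟨c', rfl⟩ : ∃ c', c = 4 * c' + 1 := ⟨c / 4, by omega⟩
  rcases Int.emod_two_eq_zero_or_one g with hg | hg <;>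
    rcases Int.emod_two_eq_zero_or_one k with hk | hk
  · exfalso
    have h2 : (2 : ℤ) ∣ 1 := by
      obtain ⟨s, t, hst⟩ := hcop
      rw [← hst]
      exact dvd_add (Dvd.dvd.mul_left (by omega) s) (Dvd.dvd.mul_left (by omega) t)
    omega
  · obtain ⟨j, hj⟩ := sq_mod12_odd k hk h3
    obtain ⟨i, rfl⟩ : ∃ i, g = 2 * i := ⟨g / 2, by omega⟩
    have : k ^ 2 - 3 * (4 * c' + 1) * (2 * i) ^ 2 = 12 * (j - (4 * c' + 1) * i ^ 2) + 1 := by
      rw [hj]; ring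
    omega
  · obtain ⟨j, hj⟩ := sq_mod12_even k hk h3
    obtain ⟨i, hi⟩ := odd_sq8 g hg
    have : k ^ 2 - 3 * (4 * c' + 1) * g ^ 2 = 12 * (j - 2 * i - c' * (8 * i + 1)) + 1 := by
      rw [hj, hi]; ring
    omega
  · exfalso
    rw [Int.mul_emod, hg, hk] at hev
    norm_num at hev

theorem natAbs_mod12 (n : ℤ) (h : n % 12 = 1 ∨ n % 12 = 11) :
    n.natAbs % 12 = 1 ∨ n.natAbs % 12 = 11 := by omega

/-- `w² = n² + 12 s²` with `s` even forces `n ≡ ±1` modulo `12`. -/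
theorem pm_of_12 (n s w : ℤ) (h : w ^ 2 = n ^ 2 + 12 * s ^ 2) (hn2 : n % 2 = 1)
    (hn3 : ¬ (3 : ℤ) ∣ n) (hs2 : s % 2 = 0) (hs0 : s ≠ 0) (hc : IsCoprime n s) :
    n % 12 = 1 ∨ n % 12 = 11 := by
  have hwo : w % 2 = 1 := by
    by_contra hwe
    obtain ⟨w', rfl⟩ : ∃ w', w = 2 * w' := ⟨w / 2, by omega⟩
    obtain ⟨k, hk⟩ := odd_sq8 n hn2
    rw [hk] at h
    ring_nf at h
    omega
  have hw0 : 0 < |w| := by rw [abs_pos]; rintro rfl; simp at hwo
  have hwabs : |w| % 2 = 1 := by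
    rcases abs_choice w with h | h <;> rw [h]
    · exact hwo
    · omega
  have h12 : IsCoprime (12 : ℤ) n := coprime_six n hn2 hn3
  have hwn : IsCoprime w n := by
    have e1 : IsCoprime (12 * s ^ 2) n := h12.mul_left hc.symm.pow_left
    have e2 : IsCoprime (12 * s ^ 2 + n * n) n := (IsCoprime.add_mul_left_left_iff).2 e1
    have e3 : 12 * s ^ 2 + n * n = w ^ 2 := by rw [h]; ring
    rw [e3] at e2
    exact (IsCoprime.pow_left_iff (by norm_num)).1 e2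
  have hwn' : IsCoprime |w| n := by
    rcases abs_choice w with h | h <;> rw [h]
    · exact hwn
    · exact hwn.neg_left
  obtain ⟨g, k, -, -, -, e2, e3, e4⟩ := split12 n s |w| hw0 (by rw [sq_abs]; linarith) hwn' hwabs hn2 hs0
  have hev : (g * k) % 2 = 0 := by
    rw [e3]
    rcases abs_choice s with h | h <;> rw [h] <;> omega
  have h3k : ¬ (3 : ℤ) ∣ k := by
    intro h
    apply hn3
    have hk2 : (3 : ℤ) ∣ k ^ 2 := dvd_pow h (by norm_num)
    rcases e2 with e2 | e2 <;> rw [e2]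
    · exact dvd_sub hk2 (Dvd.intro _ rfl)
    · exact dvd_sub (Dvd.intro _ rfl) hk2
  have hr := res12 g k 1 (by norm_num) hev e4 h3k
  rw [mul_one] at hr
  rcases e2 with e2 | e2 <;> omega

/-- `w² = n² + 108 s²` with `s` even forces `n ≡ ±1` modulo `12`. -/
theorem pm_of_108 (n s w : ℤ) (h : w ^ 2 = n ^ 2 + 108 * s ^ 2) (hn2 : n % 2 = 1)
    (hn3 : ¬ (3 : ℤ) ∣ n) (hs2 : s % 2 = 0) (hs0 : s ≠ 0) (hc : IsCoprime n s) :
    n % 12 = 1 ∨ n % 12 = 11 := by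
  have hwo : w % 2 = 1 := by
    by_contra hwe
    obtain ⟨w', rfl⟩ : ∃ w', w = 2 * w' := ⟨w / 2, by omega⟩
    obtain ⟨k, hk⟩ := odd_sq8 n hn2
    rw [hk] at h
    ring_nf at h
    omega
  have hw0 : 0 < |w| := by rw [abs_pos]; rintro rfl; simp at hwo
  have hwabs : |w| % 2 = 1 := by
    rcases abs_choice w with h | h <;> rw [h]
    · exact hwo
    · omega
  have h12 : IsCoprime (12 : ℤ) n := coprime_six n hn2 hn3
  have h9 : IsCoprime (9 : ℤ) n := by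
    have e3 : IsCoprime (3 : ℤ) n := (Prime.coprime_iff_not_dvd Int.prime_three).2 hn3
    have : (9 : ℤ) = 3 * 3 := by norm_num
    rw [this]; exact e3.mul_left e3
  have hwn : IsCoprime w n := by
    have e1 : IsCoprime (9 * (12 * s ^ 2)) n := h9.mul_left (h12.mul_left hc.symm.pow_left)
    have e2 : IsCoprime (9 * (12 * s ^ 2) + n * n) n := (IsCoprime.add_mul_left_left_iff).2 e1
    have e3 : 9 * (12 * s ^ 2) + n * n = w ^ 2 := by rw [h]; ring
    rw [e3] at e2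
    exact (IsCoprime.pow_left_iff (by norm_num)).1 e2
  have hwn' : IsCoprime |w| n := by
    rcases abs_choice w with h | h <;> rw [h]
    · exact hwn
    · exact hwn.neg_left
  obtain ⟨g, k, -, -, -, e2, e3, e4⟩ := split108 n s |w| hw0 (by rw [sq_abs]; linarith) hwn' hwabs hn2 hs0
  have hev : (g * k) % 2 = 0 := by
    rw [e3]
    rcases abs_choice s with h | h <;> rw [h] <;> omega
  have h3k : ¬ (3 : ℤ) ∣ k := by
    intro h
    apply hn3
    have hk2 : (3 : ℤ) ∣ k ^ 2 := dvd_pow h (by norm_num)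
    have hG2 : (3 : ℤ) ∣ 27 * g ^ 2 := ⟨9 * g ^ 2, by ring⟩
    rcases e2 with e2 | e2 <;> rw [e2]
    · exact dvd_sub hk2 hG2
    · exact dvd_sub hG2 hk2
  have hr := res12 g k 9 (by norm_num) hev e4 h3k
  have e27 : (3 : ℤ) * 9 = 27 := by norm_num
  rw [e27] at hr
  rcases e2 with e2 | e2 <;> omega

/-- case `6 | y`. -/
theorem fourth_alpha (p : ℕ) (hp : p.Prime) (hp8 : p % 8 = 1) (x y z : ℤ)
    (h : x ^ 4 + x ^ 2 * y ^ 2 + y ^ 4 = p * z ^ 2) (hxy : IsCoprime x y) (hx : x % 2 = 1)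
    (hx3 : ¬ (3 : ℤ) ∣ x) (hy : y % 2 = 0) (hy3 : (3 : ℤ) ∣ y) (hy0 : y ≠ 0) :
    ∃ w : ZMod p, w ^ 4 = -3 := by
  have key : ∀ y v w : ℤ, IsCoprime x y → y % 2 = 0 → (3 : ℤ) ∣ y → y ≠ 0 →
      x ^ 2 + x * y + y ^ 2 = p * v ^ 2 → x ^ 2 - x * y + y ^ 2 = w ^ 2 →
      ∃ w : ZMod p, w ^ 4 = -3 := by
    intro y v w hxy hy hy3 hy0 h1 h2
    obtain ⟨kx, hkx⟩ := odd_sq8 x hx
    obtain ⟨p', hp'⟩ : ∃ p' : ℤ, (p : ℤ) = 8 * p' + 1 := ⟨(p : ℤ) / 8, by omega⟩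
    have hvo : v % 2 = 1 := by
      by_contra hv
      obtain ⟨v', hv'⟩ : ∃ v', v = 2 * v' := ⟨v / 2, by omega⟩
      obtain ⟨y', hy'⟩ : ∃ y', y = 2 * y' := ⟨y / 2, by omega⟩
      have : 8 * kx + 1 + 2 * (x * y') + 2 * (2 * y' ^ 2) = 2 * (p * (2 * v' ^ 2)) := by
        rw [← hkx]
        calc x ^ 2 + 2 * (x * y') + 2 * (2 * y' ^ 2) = x ^ 2 + x * y + y ^ 2 := by rw [hy']; ring
          _ = p * v ^ 2 := h1
          _ = 2 * (p * (2 * v' ^ 2)) := by rw [hv']; ring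
      omega
    obtain ⟨kv, hkv⟩ := odd_sq8 v hvo
    have h8 : (8 : ℤ) ∣ y * (x + y) := by
      have e1 : y * (x + y) = (x ^ 2 + x * y + y ^ 2) - x ^ 2 := by ring
      rw [e1, h1, hkx, hkv, hp']
      exact ⟨8 * p' * kv + p' + kv - kx, by ring⟩
    have hc8 : IsCoprime (8 : ℤ) (x + y) := by
      have e1 : (8 : ℤ) = 2 ^ 3 := by norm_num
      rw [e1]
      exact ((Prime.coprime_iff_not_dvd Int.prime_two).2 (by omega)).pow_left
    obtain ⟨y3, hy3'⟩ : (8 : ℤ) ∣ y := hc8.dvd_of_dvd_mul_right h8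
    subst hy3'
    have h3y3 : (3 : ℤ) ∣ y3 := by omega
    have hy30 : y3 ≠ 0 := by rintro rfl; exact hy0 (by ring)
    have hxy3 : IsCoprime x y3 := hxy.of_mul_right_right
    -- n = x - 4 y3
    have hn : IsCoprime (x - 4 * y3) (2 * y3) := by
      refine IsCoprime.mul_right ?_ ?_
      · exact ((Prime.coprime_iff_not_dvd Int.prime_two).2 (by omega)).symm
      · have e1 : x - 4 * y3 = x + y3 * (-4) := by ring
        rw [e1]
        exact (IsCoprime.add_mul_left_left_iff).2 hxy3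
    have hpm := pm_of_12 (x - 4 * y3) (2 * y3) w (by rw [← h2]; ring) (by omega)
      (by intro h; exact hx3 (by omega)) (by omega) (by omega) hn
    have hU : (x + 4 * y3) % 12 = 1 ∨ (x + 4 * y3) % 12 = 11 := by omega
    refine fourth_core p hp hp8 (x + 4 * y3) (4 * y3) v (by rw [← h1]; ring) ?_ (by omega)
      (natAbs_mod12 _ hU)
    refine IsCoprime.mul_right ?_ (IsCoprime.mul_right ?_ ?_)
    · exact ((Prime.coprime_iff_not_dvd Int.prime_three).2 (by omega)).symm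
    · have e1 : (4 : ℤ) = 2 ^ 2 := by norm_num
      have h6 : IsCoprime (x + 4 * y3) (2 : ℤ) :=
        ((Prime.coprime_iff_not_dvd Int.prime_two).2 (by omega)).symm
      have h7 : IsCoprime (x + 4 * y3) ((2 : ℤ) ^ 2) := h6.pow_right
      rw [← e1] at h7
      exact h7
    · have e1 : x + 4 * y3 = x + y3 * 4 := by ring
      rw [e1]
      exact (IsCoprime.add_mul_left_left_iff).2 hxy3
  have hx0 : x ≠ 0 := by rintro rfl; simp at hx
  have hA : 0 < x ^ 2 + x * y + y ^ 2 := by nlinarith [sq_nonneg (x + y), sq_nonneg (x - y), sq_pos_of_ne_zero hx0 |> fun h => h, sq_nonneg y, sq_nonneg (2 * x + y), sq_nonneg (2 * y + x)]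
  have hB : 0 < x ^ 2 - x * y + y ^ 2 := by nlinarith [sq_nonneg (x + y), sq_nonneg (x - y), sq_pos_of_ne_zero hx0 |> fun h => h, sq_nonneg y, sq_nonneg (2 * x - y), sq_nonneg (2 * y - x)]
  have hAB : (x ^ 2 + x * y + y ^ 2) * (x ^ 2 - x * y + y ^ 2) = p * z ^ 2 := by rw [← h]; ring
  have hcop : IsCoprime (x ^ 2 + x * y + y ^ 2) (x ^ 2 - x * y + y ^ 2) := by
    -- the difference is 2xy, coprime to the first factor
    have h1 : IsCoprime (x ^ 2 + x * y + y ^ 2) x := by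
      have e1 : x ^ 2 + x * y + y ^ 2 = y ^ 2 + x * (x + y) := by ring
      rw [e1]; exact (IsCoprime.add_mul_left_left_iff).2 hxy.symm.pow_left
    have h2 : IsCoprime (x ^ 2 + x * y + y ^ 2) y := by
      have e1 : x ^ 2 + x * y + y ^ 2 = x ^ 2 + y * (x + y) := by ring
      rw [e1]; exact (IsCoprime.add_mul_left_left_iff).2 hxy.pow_left
    have h3 : IsCoprime (x ^ 2 + x * y + y ^ 2) (-2) := by
      have : IsCoprime (x ^ 2 + x * y + y ^ 2) (2 : ℤ) := by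
        apply ((Prime.coprime_iff_not_dvd Int.prime_two).2 _).symm
        intro hd
        obtain ⟨kx, hkx⟩ := odd_sq8 x hx
        obtain ⟨y', hy'⟩ : ∃ y', y = 2 * y' := ⟨y / 2, by omega⟩
        have e1 : x ^ 2 + x * y + y ^ 2 = 8 * kx + 1 + 2 * (x * y' + 2 * y' ^ 2) := by
          rw [← hkx, hy']; ring
        rw [e1] at hd
        omega
      exact this.neg_right
    have h4 : IsCoprime (x ^ 2 + x * y + y ^ 2) (-2 * (x * y)) := h3.mul_right (h1.mul_right h2)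
    have e1 : x ^ 2 - x * y + y ^ 2 = -2 * (x * y) + (x ^ 2 + x * y + y ^ 2) * 1 := by ring
    rw [e1]
    exact (IsCoprime.add_mul_left_right_iff).2 h4
  rcases sq_split p hp _ _ z hA hB hcop hAB with ⟨v, w, h1, h2⟩ | ⟨v, w, h1, h2⟩
  · exact key y v w hxy hy hy3 hy0 h1 h2
  · exact key (-y) w v hxy.neg_right (by omega) (by omega) (by omega) (by rw [← h2]; ring)
      (by rw [← h1]; ring)

/-- case `x, y` prime to `6`. -/
theorem fourth_beta (p : ℕ) (hp : p.Prime) (hp8 : p % 8 = 1) (x y z : ℤ)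
    (h : x ^ 4 + x ^ 2 * y ^ 2 + y ^ 4 = 3 * (p * z ^ 2)) (hxy : IsCoprime x y) (hx : x % 2 = 1)
    (hy : y % 2 = 1) (hne : x ^ 2 ≠ y ^ 2) :
    ∃ w : ZMod p, w ^ 4 = -3 := by
  have key : ∀ P S : ℤ, IsCoprime P S → (P + S) % 2 = 1 → (3 : ℤ) ∣ S → S ≠ 0 →
      (3 * P ^ 2 + S ^ 2) * (P ^ 2 + 3 * S ^ 2) = 3 * (p * z ^ 2) →
      ∃ w : ZMod p, w ^ 4 = -3 := by
    intro P S hPS hpar h3 hS0 h
    obtain ⟨R, rfl⟩ := h3
    have h3P : ¬ (3 : ℤ) ∣ P := by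
      intro h3
      have h4 : (3 : ℤ) ∣ 1 := by
        obtain ⟨s, t, hst⟩ := hPS
        rw [← hst]
        exact dvd_add (Dvd.dvd.mul_left h3 s) (Dvd.dvd.mul_left (Dvd.intro _ rfl) t)
      omega
    have hPR : IsCoprime P R := hPS.of_mul_right_right
    have hpar' : (P + R) % 2 = 1 := by omega
    have hR0 : R ≠ 0 := by rintro rfl; exact hS0 (by ring)
    have h' : (P ^ 2 + 3 * R ^ 2) * (P ^ 2 + 27 * R ^ 2) = p * z ^ 2 := by
      have : 3 * ((P ^ 2 + 3 * R ^ 2) * (P ^ 2 + 27 * R ^ 2)) = 3 * (p * z ^ 2) := by rw [← h]; ring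
      linarith
    have hu : (P ^ 2 + 3 * R ^ 2) % 2 = 1 := by
      obtain ⟨j, hj⟩ : ∃ j, P = 2 * j + 1 - R := ⟨(P + R) / 2, by omega⟩
      have : P ^ 2 + 3 * R ^ 2 = 2 * (2 * j ^ 2 + 2 * j - 2 * j * R - R + 2 * R ^ 2) + 1 := by
        rw [hj]; ring
      omega
    have hu3 : ¬ (3 : ℤ) ∣ (P ^ 2 + 3 * R ^ 2) := by
      intro h4
      apply h3P
      apply Int.prime_three.dvd_of_dvd_pow (n := 2)
      have : P ^ 2 = (P ^ 2 + 3 * R ^ 2) - 3 * R ^ 2 := by ring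
      rw [this]
      exact dvd_sub h4 (Dvd.intro _ rfl)
    have h12 : IsCoprime (12 : ℤ) (P ^ 2 + 3 * R ^ 2) := coprime_six _ hu hu3
    have h2 : IsCoprime (2 : ℤ) (P ^ 2 + 3 * R ^ 2) :=
      (Prime.coprime_iff_not_dvd Int.prime_two).2 (by omega)
    have h24 : IsCoprime (2 * 12 : ℤ) (P ^ 2 + 3 * R ^ 2) := h2.mul_left h12
    have hcop : IsCoprime (P ^ 2 + 3 * R ^ 2) (P ^ 2 + 27 * R ^ 2) := by
      obtain ⟨s, t, hst⟩ : IsCoprime (P ^ 2) (R ^ 2) := hPR.pow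
      obtain ⟨x, y, hxy⟩ := h24
      refine ⟨y + x * (27 * s - t), x * (t - 3 * s), ?_⟩
      linear_combination hxy + 24 * x * hst
    have hR2 : 0 < R ^ 2 := by positivity
    have hA : 0 < P ^ 2 + 3 * R ^ 2 := by positivity
    have hB : 0 < P ^ 2 + 27 * R ^ 2 := by positivity
    obtain ⟨p', hp'⟩ : ∃ p' : ℤ, (p : ℤ) = 8 * p' + 1 := ⟨(p : ℤ) / 8, by omega⟩
    -- P odd and 4 | R, from `P² + 3c R² = p v²`
    have par4 : ∀ c v : ℤ, c % 8 = 1 → P ^ 2 + 3 * c * R ^ 2 = p * v ^ 2 → P % 2 = 1 ∧ R % 4 = 0 := by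
      intro c v hc hv
      obtain ⟨c', rfl⟩ : ∃ c', c = 8 * c' + 1 := ⟨c / 8, by omega⟩
      rcases Int.emod_two_eq_zero_or_one P with hP | hP
      · exfalso
        have hRo : R % 2 = 1 := by omega
        obtain ⟨kR, hkR⟩ := odd_sq8 R hRo
        obtain ⟨P', hP'⟩ : ∃ P', P = 2 * P' := ⟨P / 2, by omega⟩
        rcases Int.emod_two_eq_zero_or_one v with hv2 | hv2
        · obtain ⟨v', hv'⟩ : ∃ v', v = 2 * v' := ⟨v / 2, by omega⟩
          have e1 : 4 * P' ^ 2 + 3 * (8 * c' + 1) * (8 * kR + 1) = 4 * (p * v' ^ 2) := by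
            rw [← hkR]
            calc 4 * P' ^ 2 + 3 * (8 * c' + 1) * R ^ 2 = P ^ 2 + 3 * (8 * c' + 1) * R ^ 2 := by
                  rw [hP']; ring
              _ = p * v ^ 2 := hv
              _ = 4 * (p * v' ^ 2) := by rw [hv']; ring
          have e2 : 3 * (8 * c' + 1) * (8 * kR + 1) = 8 * (3 * (8 * c' * kR + c' + kR)) + 3 := by ring
          rw [e2] at e1
          omega
        · obtain ⟨kv, hkv⟩ := odd_sq8 v hv2
          have e1 : 4 * P' ^ 2 + 3 * (8 * c' + 1) * (8 * kR + 1) = (8 * p' + 1) * (8 * kv + 1) := by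
            rw [← hkR, ← hkv, ← hp']
            calc 4 * P' ^ 2 + 3 * (8 * c' + 1) * R ^ 2 = P ^ 2 + 3 * (8 * c' + 1) * R ^ 2 := by
                  rw [hP']; ring
              _ = p * v ^ 2 := hv
          have e2 : 3 * (8 * c' + 1) * (8 * kR + 1) = 8 * (3 * (8 * c' * kR + c' + kR)) + 3 := by ring
          have e3 : (8 * p' + 1) * (8 * kv + 1) = 8 * (8 * p' * kv + p' + kv) + 1 := by ring
          rw [e2, e3] at e1
          omega
      · have hRe : R % 2 = 0 := by omega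
        obtain ⟨kP, hkP⟩ := odd_sq8 P hP
        obtain ⟨R', hR'⟩ : ∃ R', R = 2 * R' := ⟨R / 2, by omega⟩
        refine ⟨hP, ?_⟩
        by_contra hR4
        have hR'o : R' % 2 = 1 := by omega
        obtain ⟨kR, hkR⟩ := odd_sq8 R' hR'o
        have e0 : (8 * kP + 1) + 12 * (8 * c' + 1) * (8 * kR + 1) = p * v ^ 2 := by
          rw [← hkP, ← hkR, ← hv, hR']; ring
        have e2 : 12 * (8 * c' + 1) * (8 * kR + 1) = 8 * (12 * (8 * c' * kR + c' + kR) + 1) + 4 := by ring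
        rcases Int.emod_two_eq_zero_or_one v with hv2 | hv2
        · obtain ⟨v', hv'⟩ : ∃ v', v = 2 * v' := ⟨v / 2, by omega⟩
          have e3 : (p : ℤ) * v ^ 2 = 4 * (p * v' ^ 2) := by rw [hv']; ring
          rw [e2, e3] at e0
          omega
        · obtain ⟨kv, hkv⟩ := odd_sq8 v hv2
          have e3 : (p : ℤ) * v ^ 2 = 8 * (8 * p' * kv + p' + kv) + 1 := by rw [hkv, hp']; ring
          rw [e2, e3] at e0
          omega
    rcases sq_split p hp _ _ z hA hB hcop h' with ⟨v, w, h1, h2⟩ | ⟨v, w, h1, h2⟩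
    · -- P² + 3R² = p v², P² + 27 R² = w²
      obtain ⟨hPo, hR4⟩ := par4 1 v (by norm_num) (by rw [← h1]; ring)
      obtain ⟨s, hs⟩ : ∃ s, R = 2 * s := ⟨R / 2, by omega⟩
      have hPs : IsCoprime P s := by rw [hs] at hPR; exact hPR.of_mul_right_right
      have hpm := pm_of_108 P s w (by rw [← h2, hs]; ring) hPo h3P (by omega) (by omega) hPs
      exact fourth_core p hp hp8 P R v h1 (IsCoprime.mul_right
        ((Prime.coprime_iff_not_dvd Int.prime_three).2 h3P).symm hPR) hR0 (natAbs_mod12 _ hpm)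
    · obtain ⟨hPo, hR4⟩ := par4 9 w (by norm_num) (by rw [← h2]; ring)
      obtain ⟨s, hs⟩ : ∃ s, R = 2 * s := ⟨R / 2, by omega⟩
      have hPs : IsCoprime P s := by rw [hs] at hPR; exact hPR.of_mul_right_right
      have hpm := pm_of_12 P s v (by rw [← h1, hs]; ring) hPo h3P (by omega) (by omega) hPs
      have h3c : IsCoprime P (3 : ℤ) := ((Prime.coprime_iff_not_dvd Int.prime_three).2 h3P).symm
      exact fourth_core p hp hp8 P (3 * R) w (by rw [← h2]; ring)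
        (h3c.mul_right (h3c.mul_right hPR)) (by omega) (natAbs_mod12 _ hpm)
  obtain ⟨P, hP⟩ : ∃ P, x + y = 2 * P := ⟨(x + y) / 2, by omega⟩
  obtain ⟨S, hS⟩ : ∃ S, x - y = 2 * S := ⟨(x - y) / 2, by omega⟩
  have hx' : x = P + S := by linarith
  have hy' : y = P - S := by linarith
  have hPS : IsCoprime P S := by
    obtain ⟨s, t, hst⟩ := hxy
    exact ⟨s + t, s - t, by rw [← hst, hx', hy']; ring⟩
  have hpar : (P + S) % 2 = 1 := by rw [← hx']; exact hx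
  have h' : (3 * P ^ 2 + S ^ 2) * (P ^ 2 + 3 * S ^ 2) = 3 * (p * z ^ 2) := by
    rw [← h, hx', hy']; ring
  have hS0 : S ≠ 0 := by rintro rfl; exact hne (by rw [hx', hy']; ring)
  have hP0 : P ≠ 0 := by rintro rfl; exact hne (by rw [hx', hy']; ring)
  have h3 : (3 : ℤ) ∣ (3 * P ^ 2 + S ^ 2) * (P ^ 2 + 3 * S ^ 2) := ⟨_, h'⟩
  rcases Int.prime_three.dvd_or_dvd h3 with h3 | h3
  · have : (3 : ℤ) ∣ S := by
      apply Int.prime_three.dvd_of_dvd_pow (n := 2)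
      have e : S ^ 2 = (3 * P ^ 2 + S ^ 2) - 3 * P ^ 2 := by ring
      rw [e]
      exact dvd_sub h3 (Dvd.intro _ rfl)
    exact key P S hPS hpar this hS0 h'
  · have : (3 : ℤ) ∣ P := by
      apply Int.prime_three.dvd_of_dvd_pow (n := 2)
      have e : P ^ 2 = (P ^ 2 + 3 * S ^ 2) - 3 * S ^ 2 := by ring
      rw [e]
      exact dvd_sub h3 (Dvd.intro _ rfl)
    exact key S P hPS.symm (by rw [add_comm]; exact hpar) this hP0 (by rw [← h']; ring)

end Pool.Agent.SixthPow
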