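import Pool.Agent.SixthPow.Quartic

set_option autoImplicit false

namespace Pool.Agent.SixthPow

/-- five squares in geometric progression never add up to a square. -/
theorem gp_core (U V z : ℤ) (hU : U ≠ 0) (hV : V ≠ 0) (hUV : IsCoprime U V)
    (h : U ^ 8 + U ^ 6 * V ^ 2 + U ^ 4 * V ^ 4 + U ^ 2 * V ^ 6 + V ^ 8 = z ^ 2) : False := by
  have hc1 : IsCoprime (U ^ 2 + V ^ 2) (U * V) := by
    refine IsCoprime.mul_right ?_ ?_
    · have : U ^ 2 + V ^ 2 = V ^ 2 + U * U := by ring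
      rw [this]
      exact (IsCoprime.add_mul_left_left_iff).2 hUV.symm.pow_left
    · have : U ^ 2 + V ^ 2 = U ^ 2 + V * V := by ring
      rw [this]
      exact (IsCoprime.add_mul_left_left_iff).2 hUV.pow_left
  set A : ℤ := U ^ 2 + V ^ 2 with hA
  set B : ℤ := U * V with hB
  have hAne : A ≠ 0 := by positivity
  have hBne : B ≠ 0 := mul_ne_zero hU hV
  have hD : A ^ 2 - B ^ 2 = U ^ 4 + U ^ 2 * V ^ 2 + V ^ 4 := by rw [hA, hB]; ring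
  have hDpos : 0 < A ^ 2 - B ^ 2 := by rw [hD]; positivity
  have hz : z ^ 2 + (A * B) ^ 2 = (A ^ 2 - B ^ 2) ^ 2 := by rw [← h, hA, hB]; ring
  have hpar : (A * B) % 2 = 0 ∧ (A ^ 2 - B ^ 2) % 2 = 1 := by
    rcases Int.emod_two_eq_zero_or_one U with hu | hu <;>
      rcases Int.emod_two_eq_zero_or_one V with hv | hv
    · exfalso
      have h2 : (2 : ℤ) ∣ 1 := by
        obtain ⟨s, t, hst⟩ := hUV
        rw [← hst]
        exact dvd_add (Dvd.dvd.mul_left (by omega) s) (Dvd.dvd.mul_left (by omega) t)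
      omega
    · obtain ⟨x, hx⟩ : ∃ x, U = 2 * x := ⟨U / 2, by omega⟩
      obtain ⟨y, hy⟩ : ∃ y, V = 2 * y + 1 := ⟨V / 2, by omega⟩
      rw [hD]
      refine ⟨?_, ?_⟩
      · have : A * B = 2 * (A * (x * V)) := by rw [hB, hx]; ring
        omega
      · rw [hx, hy]; ring_nf; omega
    · obtain ⟨x, hx⟩ : ∃ x, U = 2 * x + 1 := ⟨U / 2, by omega⟩
      obtain ⟨y, hy⟩ : ∃ y, V = 2 * y := ⟨V / 2, by omega⟩
      rw [hD]
      refine ⟨?_, ?_⟩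
      · have : A * B = 2 * (A * (U * y)) := by rw [hB, hy]; ring
        omega
      · rw [hx, hy]; ring_nf; omega
    · obtain ⟨x, hx⟩ : ∃ x, U = 2 * x + 1 := ⟨U / 2, by omega⟩
      obtain ⟨y, hy⟩ : ∃ y, V = 2 * y + 1 := ⟨V / 2, by omega⟩
      rw [hD]
      refine ⟨?_, ?_⟩
      · have : A * B = 2 * ((2 * x ^ 2 + 2 * x + 2 * y ^ 2 + 2 * y + 1) * B) := by
          rw [hA, hx, hy]; ring
        omega
      · rw [hx, hy]; ring_nf; omega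
  have hzo : z % 2 = 1 := by
    by_contra hze
    obtain ⟨z', hz'⟩ : ∃ z', z = 2 * z' := ⟨z / 2, by omega⟩
    obtain ⟨k, hk⟩ := odd_sq8 _ hpar.2
    obtain ⟨w, hw⟩ : ∃ w, A * B = 2 * w := ⟨A * B / 2, by omega⟩
    rw [hk, hw, hz'] at hz
    ring_nf at hz
    omega
  have hcz : IsCoprime z (A * B) := by
    have h1 : IsCoprime (A ^ 2 - B ^ 2) (A * B) := by
      refine IsCoprime.mul_right ?_ ?_
      · have e1 : A ^ 2 - B ^ 2 = -(B ^ 2) + A * A := by ring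
        rw [e1]
        exact (IsCoprime.add_mul_left_left_iff).2 (hc1.symm.pow_left.neg_left)
      · have e1 : A ^ 2 - B ^ 2 = A ^ 2 + B * (-B) := by ring
        rw [e1]
        exact (IsCoprime.add_mul_left_left_iff).2 hc1.pow_left
    have h2 : IsCoprime ((A ^ 2 - B ^ 2) ^ 2) (A * B) := h1.pow_left
    rw [← hz, pow_two (A * B)] at h2
    exact (IsCoprime.pow_left_iff (by norm_num)).1 ((IsCoprime.add_mul_left_left_iff).1 h2)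
  obtain ⟨m, n, e1, e2, e3, e4, -, -⟩ := PythagoreanTriple.coprime_classification'
    (x := z) (y := A * B) (z := A ^ 2 - B ^ 2) (by unfold PythagoreanTriple; linear_combination hz)
    (Int.isCoprime_iff_gcd_eq_one.1 hcz) hzo hDpos
  exact sysG _ A B m n e3 (by rw [e2]; ring) hc1 (Int.isCoprime_iff_gcd_eq_one.2 e4)
    (mul_ne_zero hAne hBne) rfl

/-- five sixth powers of numbers in geometric progression never add up to a sixth power. -/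
theorem no_gp (a b c d e f : ℕ) (hb : 0 < b) (hc : 0 < c) (hd : 0 < d)
    (h : a ^ 6 + b ^ 6 + c ^ 6 + d ^ 6 + e ^ 6 = f ^ 6)
    (h1 : b ^ 2 = a * c) (h2 : c ^ 2 = b * d) (h3 : d ^ 2 = c * e) : False := by
  obtain ⟨g, b', d', hg, hcop, rfl, rfl⟩ := Nat.exists_coprime' (m := b) (n := d)
    (Nat.gcd_pos_of_pos_left _ hb)
  have hb' : 0 < b' := Nat.pos_of_mul_pos_right hb |> fun h => by
    rcases Nat.eq_zero_or_pos b' with h0 | h0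
    · rw [h0] at hb; simp at hb
    · exact h0
  have hd' : 0 < d' := by
    rcases Nat.eq_zero_or_pos d' with h0 | h0
    · rw [h0] at hd; simp at hd
    · exact h0
  have hgc : g ∣ c := by
    have : g ^ 2 ∣ c ^ 2 := ⟨b' * d', by rw [h2]; ring⟩
    exact (Nat.pow_dvd_pow_iff (by norm_num)).1 this
  obtain ⟨c', rfl⟩ := hgc
  have hc' : c' ^ 2 = b' * d' := by
    have : g ^ 2 * c' ^ 2 = g ^ 2 * (b' * d') := by
      calc g ^ 2 * c' ^ 2 = (g * c') ^ 2 := by ring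
        _ = b' * g * (d' * g) := h2
        _ = g ^ 2 * (b' * d') := by ring
    exact Nat.eq_of_mul_eq_mul_left (by positivity) this
  have hcopZ : IsCoprime (b' : ℤ) (d' : ℤ) := Nat.isCoprime_iff_coprime.2 hcop
  have hcZ : (b' : ℤ) * (d' : ℤ) = (c' : ℤ) ^ 2 := by exact_mod_cast hc'.symm
  obtain ⟨u, hu0, hu⟩ := pow_of_coprime_nonneg _ _ _ hcopZ (by positivity) hcZ
  obtain ⟨v, hv0, hv⟩ := pow_of_coprime_nonneg _ _ _ hcopZ.symm (by positivity)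
    (by rw [mul_comm]; exact hcZ)
  have hune : u ≠ 0 := by
    rintro rfl
    have : (b' : ℤ) = 0 := by rw [hu]; ring
    have : b' = 0 := by exact_mod_cast this
    omega
  have hvne : v ≠ 0 := by
    rintro rfl
    have : (d' : ℤ) = 0 := by rw [hv]; ring
    have : d' = 0 := by exact_mod_cast this
    omega
  have huv : IsCoprime u v := by
    rw [hu, hv] at hcopZ
    exact (IsCoprime.pow_iff (by norm_num) (by norm_num)).1 hcopZ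
  -- the equation times c^6
  have hbig : ((f : ℤ) ^ 3 * ((g : ℤ) * c') ^ 3) ^ 2 = ((g : ℤ) ^ 6) ^ 2 *
      ((u ^ 3) ^ 8 + (u ^ 3) ^ 6 * (v ^ 3) ^ 2 + (u ^ 3) ^ 4 * (v ^ 3) ^ 4
        + (u ^ 3) ^ 2 * (v ^ 3) ^ 6 + (v ^ 3) ^ 8) := by
    have hZ : (a : ℤ) ^ 6 + ((b' : ℤ) * g) ^ 6 + ((g : ℤ) * c') ^ 6 + ((d' : ℤ) * g) ^ 6
        + (e : ℤ) ^ 6 = (f : ℤ) ^ 6 := by exact_mod_cast h
    have h1Z : ((b' : ℤ) * g) ^ 2 = a * (g * c') := by exact_mod_cast h1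
    have h3Z : ((d' : ℤ) * g) ^ 2 = (g * c') * e := by exact_mod_cast h3
    have hc2 : ((c' : ℤ)) ^ 2 = u ^ 2 * v ^ 2 := by rw [← hcZ, hu, hv]
    have hc6 : (c' : ℤ) ^ 6 = u ^ 6 * v ^ 6 := by
      calc (c' : ℤ) ^ 6 = ((c' : ℤ) ^ 2) ^ 3 := by ring
        _ = u ^ 6 * v ^ 6 := by rw [hc2]; ring
    calc ((f : ℤ) ^ 3 * ((g : ℤ) * c') ^ 3) ^ 2 = (f : ℤ) ^ 6 * ((g : ℤ) * c') ^ 6 := by ring
      _ = ((a : ℤ) ^ 6 + ((b' : ℤ) * g) ^ 6 + ((g : ℤ) * c') ^ 6 + ((d' : ℤ) * g) ^ 6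
        + (e : ℤ) ^ 6) * ((g : ℤ) * c') ^ 6 := by rw [hZ]
      _ = ((a : ℤ) * (g * c')) ^ 6 + ((b' : ℤ) * g) ^ 6 * ((g : ℤ) ^ 6 * (c' : ℤ) ^ 6)
          + ((g : ℤ) ^ 6 * (c' : ℤ) ^ 6) ^ 2 + ((d' : ℤ) * g) ^ 6 * ((g : ℤ) ^ 6 * (c' : ℤ) ^ 6)
          + (((g : ℤ) * c') * e) ^ 6 := by ring
      _ = (((b' : ℤ) * g) ^ 2) ^ 6 + ((b' : ℤ) * g) ^ 6 * ((g : ℤ) ^ 6 * (c' : ℤ) ^ 6)
          + ((g : ℤ) ^ 6 * (c' : ℤ) ^ 6) ^ 2 + ((d' : ℤ) * g) ^ 6 * ((g : ℤ) ^ 6 * (c' : ℤ) ^ 6)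
          + (((d' : ℤ) * g) ^ 2) ^ 6 := by rw [← h1Z, ← h3Z]
      _ = ((g : ℤ) ^ 6) ^ 2 *
      ((u ^ 3) ^ 8 + (u ^ 3) ^ 6 * (v ^ 3) ^ 2 + (u ^ 3) ^ 4 * (v ^ 3) ^ 4
        + (u ^ 3) ^ 2 * (v ^ 3) ^ 6 + (v ^ 3) ^ 8) := by rw [hc6, hu, hv]; ring
  have hgZ : (g : ℤ) ^ 6 ≠ 0 := by positivity
  have hdvd : (g : ℤ) ^ 6 ∣ (f : ℤ) ^ 3 * ((g : ℤ) * c') ^ 3 := by
    have : ((g : ℤ) ^ 6) ^ 2 ∣ ((f : ℤ) ^ 3 * ((g : ℤ) * c') ^ 3) ^ 2 := ⟨_, hbig⟩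
    exact (Int.pow_dvd_pow_iff (by norm_num)).1 this
  obtain ⟨z, hz⟩ := hdvd
  refine gp_core (u ^ 3) (v ^ 3) z (pow_ne_zero 3 hune) (pow_ne_zero 3 hvne) (huv.pow) ?_
  apply mul_left_cancel₀ (pow_ne_zero 2 hgZ)
  rw [← hbig, hz]; ring

end Pool.Agent.SixthPow
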