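import Pool.Agent.SixthPow.Patterns

set_option autoImplicit false

namespace Pool.Agent.SixthPow

theorem mod3_a (e t : ℕ) (h3e : 3 ∣ e) (h3t : ¬ 3 ∣ t) :
    ¬ 3 ∣ (e + t) ^ 2 + (e + t) * e + e ^ 2 ∧ ¬ 3 ∣ (e + t) * t + e ^ 2 := by
  obtain ⟨a, rfl⟩ := h3e
  have ht : t % 3 = 1 ∨ t % 3 = 2 := by omega
  rcases ht with ht | ht
  · obtain ⟨b, rfl⟩ : ∃ b, t = 3 * b + 1 := ⟨t / 3, by omega⟩
    constructor <;> (intro h; ring_nf at h; omega)
  · obtain ⟨b, rfl⟩ : ∃ b, t = 3 * b + 2 := ⟨t / 3, by omega⟩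
    constructor <;> (intro h; ring_nf at h; omega)

theorem mod3_b (e t : ℕ) (h3e : ¬ 3 ∣ e) (h3t : 3 ∣ t) :
    (∃ G, (e + t) ^ 2 + (e + t) * e + e ^ 2 = 3 * G ∧ ¬ 3 ∣ G) ∧ ¬ 3 ∣ (e + t) * t + e ^ 2 ∧
      ¬ 3 ∣ 2 * e + t := by
  obtain ⟨s, rfl⟩ := h3t
  have he : e % 3 = 1 ∨ e % 3 = 2 := by omega
  refine ⟨⟨e ^ 2 + 3 * e * s + 3 * s ^ 2, by ring, ?_⟩, ?_, by omega⟩
  · rcases he with he | he
    · obtain ⟨a, rfl⟩ : ∃ a, e = 3 * a + 1 := ⟨e / 3, by omega⟩
      intro h; ring_nf at h; omega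
    · obtain ⟨a, rfl⟩ : ∃ a, e = 3 * a + 2 := ⟨e / 3, by omega⟩
      intro h; ring_nf at h; omega
  · rcases he with he | he
    · obtain ⟨a, rfl⟩ : ∃ a, e = 3 * a + 1 := ⟨e / 3, by omega⟩
      intro h; ring_nf at h; omega
    · obtain ⟨a, rfl⟩ : ∃ a, e = 3 * a + 2 := ⟨e / 3, by omega⟩
      intro h; ring_nf at h; omega

theorem mod3_c (e t : ℕ) (h3e : ¬ 3 ∣ e) (h3t : 3 ∣ 2 * e + t) :
    (∃ G, (e + t) * t + e ^ 2 = 3 * G ∧ ¬ 3 ∣ G) ∧ ¬ 3 ∣ (e + t) ^ 2 + (e + t) * e + e ^ 2 ∧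
      ¬ 3 ∣ t := by
  have he : (e % 3 = 1 ∧ t % 3 = 1) ∨ (e % 3 = 2 ∧ t % 3 = 2) := by omega
  rcases he with ⟨he, ht⟩ | ⟨he, ht⟩
  · obtain ⟨a, rfl⟩ : ∃ a, e = 3 * a + 1 := ⟨e / 3, by omega⟩
    obtain ⟨b, rfl⟩ : ∃ b, t = 3 * b + 1 := ⟨t / 3, by omega⟩
    refine ⟨⟨3 * a * b + 3 * b ^ 2 + 3 * a ^ 2 + 3 * a + 3 * b + 1, by ring, ?_⟩, ?_, by omega⟩
    · intro h; ring_nf at h; omega
    · intro h; ring_nf at h; omega
  · obtain ⟨a, rfl⟩ : ∃ a, e = 3 * a + 2 := ⟨e / 3, by omega⟩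
    obtain ⟨b, rfl⟩ : ∃ b, t = 3 * b + 2 := ⟨t / 3, by omega⟩
    refine ⟨⟨3 * a * b + 3 * b ^ 2 + 3 * a ^ 2 + 6 * a + 6 * b + 4, by ring, ?_⟩, ?_, by omega⟩
    · intro h; ring_nf at h; omega
    · intro h; ring_nf at h; omega

theorem val_mul_small (q c G : ℕ) (hq : q.Prime) (hc : ¬ q ∣ c) (hc0 : c ≠ 0) (hG : G ≠ 0) :
    padicValNat q (c * G) = padicValNat q G := by
  have : Fact q.Prime := ⟨hq⟩
  rw [padicValNat.mul hc0 hG, padicValNat.eq_zero_of_not_dvd hc, zero_add]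

theorem not_dvd_three (q : ℕ) (hq : q.Prime) (hq3 : q ≠ 3) : ¬ q ∣ 3 := fun h =>
  hq3 ((Nat.prime_dvd_prime_iff_eq hq Nat.prime_three).1 h)

theorem not_dvd_two (q : ℕ) (hq : q.Prime) (hq2 : q ≠ 2) : ¬ q ∣ 2 := fun h =>
  hq2 ((Nat.prime_dvd_prime_iff_eq hq Nat.prime_two).1 h)

theorem odd34 (e t : ℕ) (hf2 : (e + t) % 2 = 1) :
    ((e + t) ^ 2 + (e + t) * e + e ^ 2) % 2 = 1 ∧ ((e + t) * t + e ^ 2) % 2 = 1 := by
  have he : (e % 2 = 0 ∧ t % 2 = 1) ∨ (e % 2 = 1 ∧ t % 2 = 0) := by omega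
  rcases he with ⟨he, ht⟩ | ⟨he, ht⟩
  · obtain ⟨a, rfl⟩ : ∃ a, e = 2 * a := ⟨e / 2, by omega⟩
    obtain ⟨b, rfl⟩ : ∃ b, t = 2 * b + 1 := ⟨t / 2, by omega⟩
    constructor <;> (ring_nf; omega)
  · obtain ⟨a, rfl⟩ : ∃ a, e = 2 * a + 1 := ⟨e / 2, by omega⟩
    obtain ⟨b, rfl⟩ : ∃ b, t = 2 * b := ⟨t / 2, by omega⟩
    constructor <;> (ring_nf; omega)

theorem fin1 (e t H : ℕ) (hH : 2 * e + t = 2 * H) (mH : H % 4 = 1) (h : 32 ∣ t) :
    (e + t) % 4 = 1 := by omega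

theorem fin2 (e t H : ℕ) (hH : t = 2 * H) (mH : H % 4 = 1) (h : 32 ∣ 2 * e + t) :
    (e + t) % 4 = 1 := by omega

theorem three_cases (e t : ℕ) (h3e : ¬ 3 ∣ e) (hf3 : ¬ 3 ∣ e + t) : 3 ∣ t ∨ 3 ∣ 2 * e + t := by
  have h1 : e % 3 = 1 ∨ e % 3 = 2 := by omega
  rcases h1 with h1 | h1 <;> omega

/-- Theorem B for a coprime pair `e < f = e + t`. -/
theorem patternB (e t : ℕ) (he : 0 < e) (ht : 0 < t) (hc : Nat.Coprime e t)
    (hf2 : (e + t) % 2 = 1) (hf3 : ¬ 3 ∣ e + t)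
    (hN : ∀ q : ℕ, q.Prime → q % 4 = 3 → q ≠ 3 → Even (padicValNat q
      (t * (2 * e + t) * ((e + t) ^ 2 + (e + t) * e + e ^ 2) * ((e + t) * t + e ^ 2))))
    (h64 : e % 2 = 1 →
      64 ∣ t * (2 * e + t) * ((e + t) ^ 2 + (e + t) * e + e ^ 2) * ((e + t) * t + e ^ 2))
    (h729 : ¬ 3 ∣ e →
      729 ∣ t * (2 * e + t) * ((e + t) ^ 2 + (e + t) * e + e ^ 2) * ((e + t) * t + e ^ 2)) :
    (e + t) % 4 = 1 ∧
      ((e % 2 = 1 ∧ ¬ 3 ∣ e ∧ (7776 ∣ t ∨ 7776 ∣ 2 * e + t)) ∨ 12 ∣ e) := by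
  obtain ⟨ho3, ho4⟩ := odd34 e t hf2
  have hsum : (e + t) ^ 2 + (e + t) * e + e ^ 2 + ((e + t) * t + e ^ 2) =
      2 * ((e + t) ^ 2 + e ^ 2) := by ring
  have hmod3 : ∃ r, (e + t) ^ 2 + (e + t) * e + e ^ 2 = r := ⟨_, rfl⟩
  have hE := fun q (hq : q.Prime) (hq4 : q % 4 = 3) (hq3 : q ≠ 3) =>
    even_vals e t q he ht hc hq (by rintro rfl; omega) hq3 (hN q hq hq4 hq3)
  set F3 : ℕ := (e + t) ^ 2 + (e + t) * e + e ^ 2 with hF3
  set F4 : ℕ := (e + t) * t + e ^ 2 with hF4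
  have hF30 : F3 ≠ 0 := by positivity
  have hF40 : F4 ≠ 0 := by positivity
  -- residue of a factor
  have hq3' : ∀ q : ℕ, q % 4 = 3 → q ≠ 2 := fun q h => by rintro rfl; omega
  by_cases h3e : 3 ∣ e
  · have h3t : ¬ 3 ∣ t := fun h => hf3 (dvd_add h3e h)
    obtain ⟨h33, h34⟩ := mod3_a e t h3e h3t
    have m3 := one_mod_four F3 ho3 h33 (fun q hq h4 h3 => (hE q hq h4 h3).2.2.1)
    have m4 := one_mod_four F4 ho4 h34 (fun q hq h4 h3 => (hE q hq h4 h3).2.2.2)
    by_cases he2 : e % 2 = 1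
    · exfalso
      obtain ⟨a, ha⟩ : ∃ a, e = 2 * a + 1 := ⟨e / 2, by omega⟩
      obtain ⟨b, hb⟩ : ∃ b, e + t = 2 * b + 1 := ⟨(e + t) / 2, by omega⟩
      rw [hb, ha] at hsum
      ring_nf at hsum
      omega
    · have hto : t % 2 = 1 := by omega
      have m1 := one_mod_four t hto h3t (fun q hq h4 h3 => (hE q hq h4 h3).1)
      have h4e : 4 ∣ e := by
        obtain ⟨a, ha⟩ : ∃ a, e = 2 * a := ⟨e / 2, by omega⟩
        obtain ⟨b, hb⟩ : ∃ b, t = 2 * b + 1 := ⟨t / 2, by omega⟩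
        have h5 : F3 = 4 * (b ^ 2 + b + 3 * a ^ 2 + 3 * a * b + a) + 2 * a + 1 := by
          rw [hF3, ha, hb]; ring
        omega
      refine ⟨by omega, Or.inr ?_⟩
      omega
  · have h3cases : 3 ∣ t ∨ 3 ∣ 2 * e + t := three_cases e t h3e hf3
    rcases h3cases with h3t | h3t
    · obtain ⟨⟨G, hG, h3G⟩, h34, h32⟩ := mod3_b e t h3e h3t
      rw [← hF3] at hG
      have hG0 : G ≠ 0 := by rintro rfl; exact hF30 (by rw [hG])
      have hGo : G % 2 = 1 := by omega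
      have mG := one_mod_four G hGo h3G (fun q hq h4 h3 => by
        have := (hE q hq h4 h3).2.2.1
        rw [hG, val_mul_small q 3 G hq (not_dvd_three q hq h3) (by norm_num) hG0] at this
        exact this)
      have m4 := one_mod_four F4 ho4 h34 (fun q hq h4 h3 => (hE q hq h4 h3).2.2.2)
      by_cases he2 : e % 2 = 1
      · -- e odd, prime to 3, 3 | t
        have ht2 : t % 2 = 0 := by omega
        have h4t : t % 4 = 0 := by
          obtain ⟨a, ha⟩ : ∃ a, e = 2 * a + 1 := ⟨e / 2, by omega⟩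
          obtain ⟨b, hb⟩ : ∃ b, t = 2 * b := ⟨t / 2, by omega⟩
          have h5 : F4 = 4 * (a * b + b ^ 2 + a ^ 2 + a) + 2 * b + 1 := by
            rw [hF4, ha, hb]; ring
          omega
        obtain ⟨H, hH⟩ : ∃ H, 2 * e + t = 2 * H := ⟨(2 * e + t) / 2, by omega⟩
        have hHo : H % 2 = 1 := by omega
        have h3H : ¬ 3 ∣ H := by
          intro h; apply h32; rw [hH]; exact Dvd.dvd.mul_left h 2
        have hH0 : H ≠ 0 := by rintro rfl; omega
        have mH := one_mod_four H hHo h3H (fun q hq h4 h3 => by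
          have := (hE q hq h4 h3).2.1
          rw [hH, val_mul_small q 2 H hq (not_dvd_two q hq (hq3' q h4)) (by norm_num) hH0] at this
          exact this)
        have h32t : 32 ∣ t := by
          have h5 := h64 he2
          rw [hH] at h5
          have h6 : 2 * 32 ∣ 2 * (t * (H * F3 * F4)) := by
            have e1 : 2 * (t * (H * F3 * F4)) = t * (2 * H) * F3 * F4 := by ring
            rw [e1]; exact h5
          have h7 : 32 ∣ t * (H * F3 * F4) := Nat.dvd_of_mul_dvd_mul_left (by norm_num) h6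
          have h8 : Nat.Coprime 32 (H * F3 * F4) := by
            have : Nat.Coprime 2 (H * F3 * F4) := by
              rw [Nat.coprime_two_left]
              exact ((Nat.odd_iff.2 hHo).mul (Nat.odd_iff.2 ho3)).mul (Nat.odd_iff.2 ho4)
            exact Nat.Coprime.pow_left 5 this
          exact h8.dvd_of_dvd_mul_right h7
        have h243t : 243 ∣ t := by
          have h5 := h729 h3e
          rw [hG] at h5
          have h6 : 3 * 243 ∣ 3 * (t * ((2 * e + t) * G * F4)) := by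
            have e1 : 3 * (t * ((2 * e + t) * G * F4)) = t * (2 * e + t) * (3 * G) * F4 := by ring
            rw [e1]; exact h5
          have h7 : 243 ∣ t * ((2 * e + t) * G * F4) := Nat.dvd_of_mul_dvd_mul_left (by norm_num) h6
          have h8 : Nat.Coprime 243 ((2 * e + t) * G * F4) := by
            have : Nat.Coprime 3 ((2 * e + t) * G * F4) := by
              rw [Nat.Prime.coprime_iff_not_dvd Nat.prime_three, Nat.prime_three.dvd_mul,
                Nat.prime_three.dvd_mul]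
              tauto
            exact Nat.Coprime.pow_left 5 this
          exact h8.dvd_of_dvd_mul_right h7
        have h7776 : 7776 ∣ t := by
          have : 32 * 243 ∣ t := Nat.Coprime.mul_dvd_of_dvd_of_dvd (by norm_num) h32t h243t
          exact this
        refine ⟨fin1 e t H hH mH h32t, Or.inl ⟨he2, h3e, Or.inl h7776⟩⟩
      · exfalso
        obtain ⟨a, ha⟩ : ∃ a, e = 2 * a := ⟨e / 2, by omega⟩
        obtain ⟨b, hb⟩ : ∃ b, e + t = 2 * b + 1 := ⟨(e + t) / 2, by omega⟩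
        rw [hb, ha] at hsum
        ring_nf at hsum
        omega
    · obtain ⟨⟨G, hG, h3G⟩, h33, h31⟩ := mod3_c e t h3e h3t
      rw [← hF4] at hG
      have hG0 : G ≠ 0 := by rintro rfl; exact hF40 (by rw [hG])
      have hGo : G % 2 = 1 := by omega
      have mG := one_mod_four G hGo h3G (fun q hq h4 h3 => by
        have := (hE q hq h4 h3).2.2.2
        rw [hG, val_mul_small q 3 G hq (not_dvd_three q hq h3) (by norm_num) hG0] at this
        exact this)
      have m3 := one_mod_four F3 ho3 h33 (fun q hq h4 h3 => (hE q hq h4 h3).2.2.1)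
      by_cases he2 : e % 2 = 1
      · have ht2 : t % 2 = 0 := by omega
        have h4t : t % 4 = 2 := by
          obtain ⟨a, ha⟩ : ∃ a, e = 2 * a + 1 := ⟨e / 2, by omega⟩
          obtain ⟨b, hb⟩ : ∃ b, t = 2 * b := ⟨t / 2, by omega⟩
          have h5 : F4 = 4 * (a * b + b ^ 2 + a ^ 2 + a) + 2 * b + 1 := by
            rw [hF4, ha, hb]; ring
          omega
        obtain ⟨H, hH⟩ : ∃ H, t = 2 * H := ⟨t / 2, by omega⟩
        have hHo : H % 2 = 1 := by omega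
        have h3H : ¬ 3 ∣ H := by
          intro h; apply h31; rw [hH]; exact Dvd.dvd.mul_left h 2
        have hH0 : H ≠ 0 := by rintro rfl; omega
        have mH := one_mod_four H hHo h3H (fun q hq h4 h3 => by
          have := (hE q hq h4 h3).1
          rw [hH, val_mul_small q 2 H hq (not_dvd_two q hq (hq3' q h4)) (by norm_num) hH0] at this
          exact this)
        have h32t : 32 ∣ 2 * e + t := by
          have h5 := h64 he2
          have h6 : 2 * 32 ∣ 2 * ((2 * e + t) * (H * F3 * F4)) := by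
            have e1 : 2 * ((2 * e + t) * (H * F3 * F4)) = t * (2 * e + t) * F3 * F4 := by
              calc 2 * ((2 * e + t) * (H * F3 * F4)) = (2 * H) * (2 * e + t) * F3 * F4 := by ring
                _ = t * (2 * e + t) * F3 * F4 := by rw [← hH]
            rw [e1]; exact h5
          have h7 : 32 ∣ (2 * e + t) * (H * F3 * F4) := Nat.dvd_of_mul_dvd_mul_left (by norm_num) h6
          have h8 : Nat.Coprime 32 (H * F3 * F4) := by
            have : Nat.Coprime 2 (H * F3 * F4) := by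
              rw [Nat.coprime_two_left]
              exact ((Nat.odd_iff.2 hHo).mul (Nat.odd_iff.2 ho3)).mul (Nat.odd_iff.2 ho4)
            exact Nat.Coprime.pow_left 5 this
          exact h8.dvd_of_dvd_mul_right h7
        have h243t : 243 ∣ 2 * e + t := by
          have h5 := h729 h3e
          rw [hG] at h5
          have h6 : 3 * 243 ∣ 3 * ((2 * e + t) * (t * F3 * G)) := by
            have e1 : 3 * ((2 * e + t) * (t * F3 * G)) = t * (2 * e + t) * F3 * (3 * G) := by ring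
            rw [e1]; exact h5
          have h7 : 243 ∣ (2 * e + t) * (t * F3 * G) := Nat.dvd_of_mul_dvd_mul_left (by norm_num) h6
          have h8 : Nat.Coprime 243 (t * F3 * G) := by
            have : Nat.Coprime 3 (t * F3 * G) := by
              rw [Nat.Prime.coprime_iff_not_dvd Nat.prime_three, Nat.prime_three.dvd_mul,
                Nat.prime_three.dvd_mul]
              tauto
            exact Nat.Coprime.pow_left 5 this
          exact h8.dvd_of_dvd_mul_right h7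
        have h7776 : 7776 ∣ 2 * e + t := by
          have : 32 * 243 ∣ 2 * e + t := Nat.Coprime.mul_dvd_of_dvd_of_dvd (by norm_num) h32t h243t
          exact this
        refine ⟨fin2 e t H hH mH h32t, Or.inl ⟨he2, h3e, Or.inr h7776⟩⟩
      · exfalso
        obtain ⟨a, ha⟩ : ∃ a, e = 2 * a := ⟨e / 2, by omega⟩
        obtain ⟨b, hb⟩ : ∃ b, e + t = 2 * b + 1 := ⟨(e + t) / 2, by omega⟩
        rw [hb, ha] at hsum
        ring_nf at hsum
        omega

end Pool.Agent.SixthPow
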