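import Pool.Agent.SixthPow.Primes

set_option autoImplicit false

namespace Pool.Agent.SixthPow

/-- at most one of the four factors is divisible by a prime `q ≠ 2, 3`, so an even total
valuation forces each of them to be even. -/
theorem even_vals (e t q : ℕ) (he : 0 < e) (ht : 0 < t) (hc : Nat.Coprime e t) (hq : q.Prime)
    (hq2 : q ≠ 2) (hq3 : q ≠ 3)
    (h : Even (padicValNat q (t * (2 * e + t) * ((e + t) ^ 2 + (e + t) * e + e ^ 2) * ((e + t) * t + e ^ 2)))) :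
    Even (padicValNat q t) ∧ Even (padicValNat q (2 * e + t)) ∧
      Even (padicValNat q ((e + t) ^ 2 + (e + t) * e + e ^ 2)) ∧
      Even (padicValNat q ((e + t) * t + e ^ 2)) := by
  have : Fact q.Prime := ⟨hq⟩
  set F3 : ℕ := (e + t) ^ 2 + (e + t) * e + e ^ 2 with hF3
  set F4 : ℕ := (e + t) * t + e ^ 2 with hF4
  have h1 : t ≠ 0 := ht.ne'
  have h2 : 2 * e + t ≠ 0 := by positivity
  have h3 : F3 ≠ 0 := by positivity
  have h4 : F4 ≠ 0 := by positivity
  have hez : ∀ x : ℕ, (q ∣ x ↔ (x : ZMod q) = 0) := fun x => (ZMod.natCast_eq_zero_iff x q).symm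
  have h3ne : (3 : ZMod q) ≠ 0 := by
    intro h3
    have h3' : ((3 : ℕ) : ZMod q) = 0 := by push_cast; exact h3
    exact hq3 ((Nat.prime_dvd_prime_iff_eq hq Nat.prime_three).1 ((hez 3).2 h3'))
  have h2ne : (2 : ZMod q) ≠ 0 := by
    intro h3
    have h3' : ((2 : ℕ) : ZMod q) = 0 := by push_cast; exact h3
    exact hq2 ((Nat.prime_dvd_prime_iff_eq hq Nat.prime_two).1 ((hez 2).2 h3'))
  have hnotz : ¬ ((e : ZMod q) = 0 ∧ (t : ZMod q) = 0) := by
    rw [← hez, ← hez]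
    rintro ⟨h1, h2⟩
    have := Nat.dvd_gcd h1 h2
    rw [hc] at this
    exact hq.one_lt.ne' (Nat.dvd_one.1 this)
  have c2 : ((2 * e + t : ℕ) : ZMod q) = 2 * e + t := by push_cast; ring
  have c3 : (F3 : ZMod q) = (e + t) ^ 2 + (e + t) * e + e ^ 2 := by rw [hF3]; push_cast; ring
  have c4 : (F4 : ZMod q) = (e + t) * t + e ^ 2 := by rw [hF4]; push_cast; ring
  have sq0 : ∀ x : ZMod q, x ^ 2 = 0 → x = 0 := fun x hx => pow_eq_zero_iff (by norm_num) |>.1 hx
  have p12 : ¬ (q ∣ t ∧ q ∣ 2 * e + t) := by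
    rw [hez, hez, c2]
    rintro ⟨g1, g2⟩
    apply hnotz
    refine ⟨?_, g1⟩
    rw [g1, add_zero] at g2
    exact (mul_eq_zero.1 g2).resolve_left h2ne
  have p13 : ¬ (q ∣ t ∧ q ∣ F3) := by
    rw [hez, hez, c3]
    rintro ⟨g1, g2⟩
    apply hnotz
    refine ⟨?_, g1⟩
    rw [g1] at g2
    have : (3 : ZMod q) * (e : ZMod q) ^ 2 = 0 := by linear_combination g2
    exact sq0 _ ((mul_eq_zero.1 this).resolve_left h3ne)
  have p14 : ¬ (q ∣ t ∧ q ∣ F4) := by
    rw [hez, hez, c4]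
    rintro ⟨g1, g2⟩
    apply hnotz
    refine ⟨?_, g1⟩
    rw [g1] at g2
    exact sq0 _ (by linear_combination g2)
  have p23 : ¬ (q ∣ 2 * e + t ∧ q ∣ F3) := by
    rw [hez, hez, c2, c3]
    rintro ⟨g1, g2⟩
    apply hnotz
    have ht' : (t : ZMod q) = -2 * e := by linear_combination g1
    rw [ht'] at g2
    have he0 : (e : ZMod q) = 0 := sq0 _ (by linear_combination g2)
    exact ⟨he0, by rw [ht', he0, mul_zero]⟩
  have p24 : ¬ (q ∣ 2 * e + t ∧ q ∣ F4) := by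
    rw [hez, hez, c2, c4]
    rintro ⟨g1, g2⟩
    apply hnotz
    have ht' : (t : ZMod q) = -2 * e := by linear_combination g1
    rw [ht'] at g2
    have : (3 : ZMod q) * (e : ZMod q) ^ 2 = 0 := by linear_combination g2
    have he0 : (e : ZMod q) = 0 := sq0 _ ((mul_eq_zero.1 this).resolve_left h3ne)
    exact ⟨he0, by rw [ht', he0, mul_zero]⟩
  have p34 : ¬ (q ∣ F3 ∧ q ∣ F4) := by
    rw [hez, hez, c3, c4]
    rintro ⟨g1, g2⟩
    apply hnotz
    have g3 : (2 : ZMod q) * (((e : ZMod q) + t) * e) = 0 := by linear_combination g1 - g2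
    have g4 := (mul_eq_zero.1 g3).resolve_left h2ne
    rcases mul_eq_zero.1 g4 with g | g
    · have ht' : (t : ZMod q) = -e := by linear_combination g
      rw [ht'] at g2
      have he0 : (e : ZMod q) = 0 := sq0 _ (by linear_combination g2)
      exact ⟨he0, by rw [ht', he0, neg_zero]⟩
    · rw [g] at g2
      exact ⟨g, sq0 _ (by linear_combination g2)⟩
  have hv : ∀ x y : ℕ, ¬ (q ∣ x ∧ q ∣ y) → padicValNat q x = 0 ∨ padicValNat q y = 0 := by
    intro x y hxy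
    by_cases hx : q ∣ x
    · right; exact padicValNat.eq_zero_of_not_dvd (fun hy => hxy ⟨hx, hy⟩)
    · left; exact padicValNat.eq_zero_of_not_dvd hx
  rw [padicValNat.mul (mul_ne_zero (mul_ne_zero h1 h2) h3) h4,
    padicValNat.mul (mul_ne_zero h1 h2) h3, padicValNat.mul h1 h2] at h
  have v12 := hv _ _ p12
  have v13 := hv _ _ p13
  have v14 := hv _ _ p14
  have v23 := hv _ _ p23
  have v24 := hv _ _ p24
  have v34 := hv _ _ p34
  have key : ∀ a b c d : ℕ, Even (a + b + c + d) → (a = 0 ∨ b = 0) → (a = 0 ∨ c = 0) →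
      (a = 0 ∨ d = 0) → (b = 0 ∨ c = 0) → (b = 0 ∨ d = 0) → (c = 0 ∨ d = 0) →
      Even a ∧ Even b ∧ Even c ∧ Even d := by
    intro a b c d h0 h1 h2 h3 h4 h5 h6
    simp only [Nat.even_iff] at *
    refine ⟨?_, ?_, ?_, ?_⟩ <;> omega
  exact key _ _ _ _ h v12 v13 v14 v23 v24 v34

/-- an odd number prime to 3 whose primes `3` modulo `4` all have even exponent is `1` mod `4`. -/
theorem one_mod_four (M : ℕ) (hM : M % 2 = 1) (h3 : ¬ 3 ∣ M)
    (h : ∀ q : ℕ, q.Prime → q % 4 = 3 → q ≠ 3 → Even (padicValNat q M)) : M % 4 = 1 := by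
  obtain ⟨x, y, hxy⟩ := (Nat.eq_sq_add_sq_iff (n := M)).2 (fun {q} hq hq4 =>
    h q (Nat.prime_of_mem_primeFactors hq) hq4 (by
      rintro rfl; exact h3 (Nat.dvd_of_mem_primeFactors hq)))
  have hsq : ∀ z : ℕ, z ^ 2 % 4 = 0 ∨ z ^ 2 % 4 = 1 := by
    intro z
    have : z % 4 = 0 ∨ z % 4 = 1 ∨ z % 4 = 2 ∨ z % 4 = 3 := by omega
    rcases this with h | h | h | h <;> rw [Nat.pow_mod, h] <;> norm_num
  rcases hsq x with h1 | h1 <;> rcases hsq y with h2 | h2 <;> omega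

end Pool.Agent.SixthPow
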