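import Pool.Agent.SixthPow.Quartic

set_option autoImplicit false

namespace Pool.Agent.SixthPow

/-- a prime `q ≠ 3` dividing `u² + uv + v²` divides both `u, v` or is `1` modulo `3`. -/
theorem prime_loesch (q : ℕ) (hq : q.Prime) (hq3 : q ≠ 3) (u v : ℤ)
    (h : (q : ℤ) ∣ u ^ 2 + u * v + v ^ 2) : ((q : ℤ) ∣ u ∧ (q : ℤ) ∣ v) ∨ q % 3 = 1 := by
  have : Fact q.Prime := ⟨hq⟩
  have : Fact (Nat.Prime 3) := ⟨Nat.prime_three⟩
  have hz : ((u : ZMod q)) ^ 2 + u * v + (v : ZMod q) ^ 2 = 0 := by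
    have := (ZMod.intCast_zmod_eq_zero_iff_dvd (u ^ 2 + u * v + v ^ 2) q).2 h
    push_cast at this
    exact this
  by_cases hv : (v : ZMod q) = 0
  · left
    have hu : (u : ZMod q) = 0 := by
      rw [hv] at hz
      have : (u : ZMod q) ^ 2 = 0 := by linear_combination hz
      exact pow_eq_zero_iff (by norm_num) |>.1 this
    exact ⟨(ZMod.intCast_zmod_eq_zero_iff_dvd _ _).1 hu, (ZMod.intCast_zmod_eq_zero_iff_dvd _ _).1 hv⟩
  · right
    set w : ZMod q := (u : ZMod q) / v with hw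
    have hw1 : w ^ 2 + w + 1 = 0 := by
      have : (v : ZMod q) ^ 2 * (w ^ 2 + w + 1) = 0 := by
        rw [← hz, hw]
        field_simp
      exact (mul_eq_zero.1 this).resolve_left (pow_ne_zero 2 hv)
    have hw3 : w ^ 3 = 1 := by linear_combination (w - 1) * hw1
    have hwne : w ≠ 1 := by
      intro h1
      rw [h1] at hw1
      have h3 : ((3 : ℕ) : ZMod q) = 0 := by push_cast; linear_combination hw1
      have h4 : q ∣ 3 := (ZMod.natCast_eq_zero_iff 3 q).1 h3
      exact hq3 ((Nat.prime_dvd_prime_iff_eq hq Nat.prime_three).1 h4)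
    have hord : orderOf w = 3 := orderOf_eq_prime hw3 hwne
    have hw0 : w ≠ 0 := by
      intro h0; rw [h0] at hw3; norm_num at hw3
    have hdvd : 3 ∣ q - 1 := by
      rw [← hord]
      exact ZMod.orderOf_dvd_card_sub_one hw0
    have : 2 ≤ q := hq.two_le
    omega

/-- the four factors of `(e+t)^6 - e^6`. -/
theorem four_factors (e t : ℕ) :
    t * (2 * e + t) * ((e + t) ^ 2 + (e + t) * e + e ^ 2) * ((e + t) * t + e ^ 2) + e ^ 6
      = (e + t) ^ 6 := by ring

/-- Theorem A for a coprime pair: `(e+t)^6 - e^6` has a prime `1` modulo `3` to an odd power. -/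
theorem primeA (e t : ℕ) (he : 0 < e) (ht : 0 < t) (hc : Nat.Coprime e t) :
    ∃ p : ℕ, p.Prime ∧ p % 3 = 1 ∧
      Odd (padicValNat p (t * (2 * e + t) * ((e + t) ^ 2 + (e + t) * e + e ^ 2) * ((e + t) * t + e ^ 2))) := by
  by_contra hno
  push_neg at hno
  set F3 : ℕ := (e + t) ^ 2 + (e + t) * e + e ^ 2 with hF3
  set F4 : ℕ := (e + t) * t + e ^ 2 with hF4
  have hF3pos : F3 ≠ 0 := by positivity
  have hF4pos : F4 ≠ 0 := by positivity
  have hQ0 : F3 * F4 ≠ 0 := mul_ne_zero hF3pos hF4pos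
  -- primes dividing F3*F4 are 3 or 1 mod 3 and do not divide t(2e+t)
  have hp : ∀ p : ℕ, p.Prime → p ≠ 3 → p ∣ F3 * F4 → p % 3 = 1 ∧ ¬ p ∣ t * (2 * e + t) := by
    intro p hp hp3 hd
    have hnot : ¬ ((p ∣ e) ∧ (p ∣ t)) := by
      rintro ⟨h1, h2⟩
      have := Nat.dvd_gcd h1 h2
      rw [hc] at this
      exact hp.one_lt.ne' (Nat.dvd_one.1 this)
    have : Fact p.Prime := ⟨hp⟩
    have hez : ∀ x : ℕ, ((x : ZMod p) = 0 ↔ p ∣ x) := fun x => ZMod.natCast_eq_zero_iff x p
    have hzQ : ((F3 : ZMod p)) * (F4 : ZMod p) = 0 := by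
      have := (hez (F3 * F4)).2 hd
      push_cast at this
      exact this
    have h3ne : (3 : ZMod p) ≠ 0 := by
      intro h3
      have h3' : ((3 : ℕ) : ZMod p) = 0 := by push_cast; exact h3
      exact hp3 ((Nat.prime_dvd_prime_iff_eq hp Nat.prime_three).1 ((hez 3).1 h3'))
    have hnotz : ¬ ((e : ZMod p) = 0 ∧ (t : ZMod p) = 0) := by
      rw [hez, hez]; exact hnot
    have hcast3 : (F3 : ZMod p) = (e + t) ^ 2 + (e + t) * e + e ^ 2 := by rw [hF3]; push_cast; ring
    have hcast4 : (F4 : ZMod p) = (e + t) * t + e ^ 2 := by rw [hF4]; push_cast; ring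
    constructor
    · rcases (hp.dvd_mul).1 hd with h | h
      · have h1 : (p : ℤ) ∣ ((e : ℤ) + t) ^ 2 + ((e : ℤ) + t) * e + (e : ℤ) ^ 2 := by
          have : ((F3 : ℕ) : ℤ) = ((e : ℤ) + t) ^ 2 + ((e : ℤ) + t) * e + (e : ℤ) ^ 2 := by
            rw [hF3]; push_cast; ring
          rw [← this]; exact_mod_cast h
        rcases prime_loesch p hp hp3 _ _ h1 with ⟨ha, hb⟩ | h2
        · exfalso
          have hb' : p ∣ e := by exact_mod_cast hb
          have ha' : p ∣ e + t := by exact_mod_cast ha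
          exact hnot ⟨hb', (Nat.dvd_add_right hb').1 ha'⟩
        · exact h2
      · have h1 : (p : ℤ) ∣ ((e : ℤ) + t) ^ 2 + ((e : ℤ) + t) * (-e) + (-(e : ℤ)) ^ 2 := by
          have : ((F4 : ℕ) : ℤ) = ((e : ℤ) + t) ^ 2 + ((e : ℤ) + t) * (-e) + (-(e : ℤ)) ^ 2 := by
            rw [hF4]; push_cast; ring
          rw [← this]; exact_mod_cast h
        rcases prime_loesch p hp hp3 _ _ h1 with ⟨ha, hb⟩ | h2
        · exfalso
          have hb' : p ∣ e := by
            have := (dvd_neg).1 hb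
            exact_mod_cast this
          have ha' : p ∣ e + t := by exact_mod_cast ha
          exact hnot ⟨hb', (Nat.dvd_add_right hb').1 ha'⟩
        · exact h2
    · intro h12
      have hz12 : (t : ZMod p) * (2 * e + t) = 0 := by
        have := (hez (t * (2 * e + t))).2 h12
        push_cast at this
        exact this
      apply hnotz
      rw [hcast3, hcast4] at hzQ
      have h3e : (3 : ZMod p) * (e : ZMod p) ^ 4 = 0 := by
        rcases mul_eq_zero.1 hz12 with h | h
        · rw [h] at hzQ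
          linear_combination hzQ
        · have ht' : (t : ZMod p) = -2 * e := by linear_combination h
          rw [ht'] at hzQ
          linear_combination hzQ
      have he0 : (e : ZMod p) = 0 :=
        pow_eq_zero_iff (by norm_num) |>.1 ((mul_eq_zero.1 h3e).resolve_left h3ne)
      refine ⟨he0, ?_⟩
      rw [he0] at hzQ
      have : (t : ZMod p) ^ 4 = 0 := by linear_combination hzQ
      exact pow_eq_zero_iff (by norm_num) |>.1 this
  obtain ⟨a, b, hab, hsf⟩ := Nat.sq_mul_squarefree (F3 * F4)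
  have ha0 : a ≠ 0 := by rintro rfl; rw [mul_zero] at hab; exact hQ0 hab.symm
  have hb0 : b ≠ 0 := by rintro rfl; rw [zero_pow (by norm_num), zero_mul] at hab; exact hQ0 hab.symm
  have honly : ∀ {d : ℕ}, d.Prime → d ∣ a → d = 3 := by
    intro p hpp hpa
    by_contra hp3
    have hpQ : p ∣ F3 * F4 := by rw [← hab]; exact Dvd.dvd.mul_left hpa _
    obtain ⟨h1, h2⟩ := hp p hpp hp3 hpQ
    have : Fact p.Prime := ⟨hpp⟩
    apply hno p hpp h1
    have ht12 : t * (2 * e + t) ≠ 0 := by positivity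
    have e1 : t * (2 * e + t) * F3 * F4 = (t * (2 * e + t)) * (F3 * F4) := by ring
    rw [e1, padicValNat.mul ht12 hQ0, padicValNat.eq_zero_of_not_dvd h2, zero_add, ← hab,
      padicValNat.mul (pow_ne_zero 2 hb0) ha0, padicValNat.pow]
    have ha1 : padicValNat p a = 1 := by
      have h3 : 1 ≤ padicValNat p a := one_le_padicValNat_of_dvd ha0 hpa
      have h4 : padicValNat p a < 2 := by
        by_contra h5
        have h6 : p ^ 2 ∣ a := (padicValNat_dvd_iff_le ha0).2 (by omega)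
        rw [pow_two] at h6
        exact hpp.one_lt.ne' (Nat.isUnit_iff.1 (hsf p h6))
      omega
    rw [ha1]
    exact ⟨padicValNat p b, by ring⟩
  have ha13 : a = 1 ∨ a = 3 := by
    have h1 := Nat.eq_prime_pow_of_unique_prime_dvd ha0 honly
    set j := a.primeFactorsList.length with hj
    have hj2 : j < 2 := by
      by_contra hge
      have h9 : 3 * 3 ∣ a := by
        rw [h1]
        have : (3 * 3 : ℕ) = 3 ^ 2 := by norm_num
        rw [this]
        exact pow_dvd_pow 3 (by omega)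
      have := Nat.isUnit_iff.1 (hsf 3 h9)
      omega
    interval_cases j
    · left; rw [h1]; norm_num
    · right; rw [h1]; norm_num
  have hcop : IsCoprime ((e : ℤ) + t) (e : ℤ) := by
    have h1 : IsCoprime (e : ℤ) (t : ℤ) := Nat.isCoprime_iff_coprime.2 hc
    obtain ⟨s, r, hsr⟩ := h1
    exact ⟨r, s - r, by rw [← hsr]; ring⟩
  have hQint : ((e : ℤ) + t) ^ 4 + ((e : ℤ) + t) ^ 2 * (e : ℤ) ^ 2 + (e : ℤ) ^ 4
      = ((F3 * F4 : ℕ) : ℤ) := by
    rw [hF3, hF4]; push_cast; ring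
  have hepos : (0 : ℤ) < e := by exact_mod_cast he
  have htpos : (0 : ℤ) < t := by exact_mod_cast ht
  rcases ha13 with rfl | rfl
  · have h1 : ((e : ℤ) + t) ^ 4 + ((e : ℤ) + t) ^ 2 * (e : ℤ) ^ 2 + (e : ℤ) ^ 4 = (b : ℤ) ^ 2 := by
      rw [hQint, ← hab]; push_cast; ring
    have h2 := pyth_one _ _ _ h1 hcop
    have : (0 : ℤ) < ((e : ℤ) + t) * e := by positivity
    omega
  · have h1 : ((e : ℤ) + t) ^ 4 + ((e : ℤ) + t) ^ 2 * (e : ℤ) ^ 2 + (e : ℤ) ^ 4 = 3 * (b : ℤ) ^ 2 := by
      rw [hQint, ← hab]; push_cast; ring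
    have h2 := pyth_three _ _ _ h1 hcop
    nlinarith

end Pool.Agent.SixthPow
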