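import Pool.Agent.SixthPow.PatternB
import Pool.Agent.SixthPow.PatternC
import Pool.Agent.SixthPow.GeomProg

set_option autoImplicit false

namespace Pool.Agent.SixthPow

theorem reduce (S e f : ℕ) (hS : 0 < S) (he : 0 < e) (h : S + e ^ 6 = f ^ 6) :
    ∃ e' t : ℕ, 0 < e' ∧ 0 < t ∧ Nat.Coprime e' t ∧ e = Nat.gcd e f * e' ∧
      f = Nat.gcd e f * (e' + t) ∧ 0 < Nat.gcd e f ∧
      S = Nat.gcd e f ^ 6 *
        (t * (2 * e' + t) * ((e' + t) ^ 2 + (e' + t) * e' + e' ^ 2) * ((e' + t) * t + e' ^ 2)) := by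
  have hef : e < f := lt_of_pow_lt_pow_left₀ 6 (Nat.zero_le f) (by omega)
  have hg : 0 < Nat.gcd e f := Nat.gcd_pos_of_pos_left _ he
  obtain ⟨e', he'⟩ := Nat.gcd_dvd_left e f
  obtain ⟨f', hf'⟩ := Nat.gcd_dvd_right e f
  set g := Nat.gcd e f with hgdef
  have hcop : Nat.Coprime e' f' := by
    have h1 := Nat.coprime_div_gcd_div_gcd hg
    have e1 : e / g = e' := Nat.div_eq_of_eq_mul_right hg he'
    have f1 : f / g = f' := Nat.div_eq_of_eq_mul_right hg hf'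
    rw [← hgdef, e1, f1] at h1
    exact h1
  have he'0 : 0 < e' := by
    rcases Nat.eq_zero_or_pos e' with h0 | h0
    · rw [h0, mul_zero] at he'; omega
    · exact h0
  have hlt : e' < f' := by
    have : g * e' < g * f' := by rw [← he', ← hf']; exact hef
    exact lt_of_mul_lt_mul_left this (Nat.zero_le g)
  obtain ⟨t, ht⟩ : ∃ t, f' = e' + t := ⟨f' - e', by omega⟩
  subst ht
  have ht0 : 0 < t := by omega
  refine ⟨e', t, he'0, ht0, ?_, he', hf', hg, ?_⟩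
  · rw [Nat.Coprime, Nat.gcd_self_add_right] at hcop
    exact hcop
  · have h2 := four_factors e' t
    have h3 : S + g ^ 6 * e' ^ 6 = g ^ 6 * (t * (2 * e' + t) *
        ((e' + t) ^ 2 + (e' + t) * e' + e' ^ 2) * ((e' + t) * t + e' ^ 2)) + g ^ 6 * e' ^ 6 := by
      rw [← mul_add, h2, ← mul_pow, ← mul_pow, ← he', ← hf']
      exact h
    omega

theorem val_red (q g N : ℕ) (hq : q.Prime) (hg : 0 < g) (hN : N ≠ 0) :
    padicValNat q (g ^ 6 * N) = 6 * padicValNat q g + padicValNat q N := by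
  have : Fact q.Prime := ⟨hq⟩
  rw [padicValNat.mul (pow_ne_zero 6 hg.ne') hN, padicValNat.pow]

theorem val_red_even (q g N : ℕ) (hq : q.Prime) (hg : 0 < g) (hN : N ≠ 0)
    (h : Even (padicValNat q (g ^ 6 * N))) : Even (padicValNat q N) := by
  rw [val_red q g N hq hg hN, Nat.even_iff] at h
  rw [Nat.even_iff]
  omega

theorem pow6_mod8 (x : ℕ) : (x % 2 = 0 ∧ x ^ 6 % 8 = 0) ∨ (x % 2 = 1 ∧ x ^ 6 % 8 = 1) := by
  have h : x % 8 = 0 ∨ x % 8 = 1 ∨ x % 8 = 2 ∨ x % 8 = 3 ∨ x % 8 = 4 ∨ x % 8 = 5 ∨ x % 8 = 6 ∨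
    x % 8 = 7 := by omega
  rcases h with h | h | h | h | h | h | h | h
  all_goals rw [Nat.pow_mod, h]
  all_goals norm_num
  all_goals omega

theorem pow6_mod9 (x : ℕ) : (x % 3 = 0 ∧ x ^ 6 % 9 = 0) ∨ (x % 3 ≠ 0 ∧ x ^ 6 % 9 = 1) := by
  have h : x % 9 = 0 ∨ x % 9 = 1 ∨ x % 9 = 2 ∨ x % 9 = 3 ∨ x % 9 = 4 ∨ x % 9 = 5 ∨ x % 9 = 6 ∨
    x % 9 = 7 ∨ x % 9 = 8 := by omega
  rcases h with h | h | h | h | h | h | h | h | h
  all_goals rw [Nat.pow_mod, h]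
  all_goals norm_num
  all_goals omega

/-- in a primitive solution `f` is odd, and if `e` is odd the other four terms are even. -/
theorem parity_facts (a b c d e f : ℕ) (h : a ^ 6 + b ^ 6 + c ^ 6 + d ^ 6 + e ^ 6 = f ^ 6)
    (hprim : ∀ k : ℕ, k ∣ a → k ∣ b → k ∣ c → k ∣ d → k ∣ e → k = 1) :
    f % 2 = 1 ∧ (e % 2 = 1 → a % 2 = 0 ∧ b % 2 = 0 ∧ c % 2 = 0 ∧ d % 2 = 0) := by
  have ha := pow6_mod8 a
  have hb := pow6_mod8 b
  have hc := pow6_mod8 c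
  have hd := pow6_mod8 d
  have he := pow6_mod8 e
  have hf := pow6_mod8 f
  have h2 : ¬ (a % 2 = 0 ∧ b % 2 = 0 ∧ c % 2 = 0 ∧ d % 2 = 0 ∧ e % 2 = 0) := by
    rintro ⟨h1, h2, h3, h4, h5⟩
    have := hprim 2 (Nat.dvd_of_mod_eq_zero h1) (Nat.dvd_of_mod_eq_zero h2)
      (Nat.dvd_of_mod_eq_zero h3) (Nat.dvd_of_mod_eq_zero h4) (Nat.dvd_of_mod_eq_zero h5)
    omega
  generalize a ^ 6 = A at *
  generalize b ^ 6 = B at *
  generalize c ^ 6 = C at *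
  generalize d ^ 6 = D at *
  generalize e ^ 6 = E at *
  generalize f ^ 6 = F at *
  clear hprim
  constructor
  · omega
  · intro h5
    omega

theorem three_facts (a b c d e f : ℕ) (h : a ^ 6 + b ^ 6 + c ^ 6 + d ^ 6 + e ^ 6 = f ^ 6)
    (hprim : ∀ k : ℕ, k ∣ a → k ∣ b → k ∣ c → k ∣ d → k ∣ e → k = 1) :
    f % 3 ≠ 0 ∧ (e % 3 ≠ 0 → a % 3 = 0 ∧ b % 3 = 0 ∧ c % 3 = 0 ∧ d % 3 = 0) := by
  have ha := pow6_mod9 a
  have hb := pow6_mod9 b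
  have hc := pow6_mod9 c
  have hd := pow6_mod9 d
  have he := pow6_mod9 e
  have hf := pow6_mod9 f
  have h2 : ¬ (a % 3 = 0 ∧ b % 3 = 0 ∧ c % 3 = 0 ∧ d % 3 = 0 ∧ e % 3 = 0) := by
    rintro ⟨h1, h2, h3, h4, h5⟩
    have := hprim 3 (Nat.dvd_of_mod_eq_zero h1) (Nat.dvd_of_mod_eq_zero h2)
      (Nat.dvd_of_mod_eq_zero h3) (Nat.dvd_of_mod_eq_zero h4) (Nat.dvd_of_mod_eq_zero h5)
    omega
  generalize a ^ 6 = A at *
  generalize b ^ 6 = B at *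
  generalize c ^ 6 = C at *
  generalize d ^ 6 = D at *
  generalize e ^ 6 = E at *
  generalize f ^ 6 = F at *
  clear hprim
  constructor
  · omega
  · intro h5
    omega

theorem dvd_sum6 (k a b c d : ℕ) (ha : k ∣ a) (hb : k ∣ b) (hc : k ∣ c) (hd : k ∣ d) :
    k ^ 6 ∣ a ^ 6 + b ^ 6 + c ^ 6 + d ^ 6 :=
  dvd_add (dvd_add (dvd_add (pow_dvd_pow_of_dvd ha 6) (pow_dvd_pow_of_dvd hb 6))
    (pow_dvd_pow_of_dvd hc 6)) (pow_dvd_pow_of_dvd hd 6)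

/-- a prime `3` modulo `4` dividing `x⁶ + y⁶` divides both. -/
theorem prime_sum6 (q x y : ℕ) (hq : q.Prime) (hq4 : q % 4 = 3) (h : q ∣ x ^ 6 + y ^ 6) :
    q ∣ x ∧ q ∣ y := by
  have : Fact q.Prime := ⟨hq⟩
  have hno : ¬ IsSquare (-1 : ZMod q) := by
    rw [ZMod.exists_sq_eq_neg_one_iff]
    exact fun h => h hq4
  have hz : (x : ZMod q) ^ 6 + (y : ZMod q) ^ 6 = 0 := by
    have := (ZMod.natCast_eq_zero_iff (x ^ 6 + y ^ 6) q).2 h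
    push_cast at this
    exact this
  have hy : (y : ZMod q) = 0 := by
    by_contra hy
    apply hno
    refine ⟨(x : ZMod q) ^ 3 / (y : ZMod q) ^ 3, ?_⟩
    field_simp
    linear_combination -hz
  have hx : (x : ZMod q) = 0 := by
    rw [hy] at hz
    exact pow_eq_zero_iff (by norm_num : (6 : ℕ) ≠ 0) |>.1 (by linear_combination hz)
  exact ⟨(ZMod.natCast_eq_zero_iff _ _).1 hx, (ZMod.natCast_eq_zero_iff _ _).1 hy⟩

theorem prime_prop (q a b c d : ℕ) (hq : q.Prime) (hq4 : q % 4 = 3) (hp : a * d = b * c)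
    (h : q ∣ a ^ 6 + b ^ 6 + c ^ 6 + d ^ 6) : q ∣ a ∧ q ∣ b ∧ q ∣ c ∧ q ∣ d := by
  have h1 : q ∣ (a ^ 6 + b ^ 6) * (a ^ 6 + c ^ 6) := by
    have e1 : (a ^ 6 + b ^ 6) * (a ^ 6 + c ^ 6) = a ^ 6 * (a ^ 6 + b ^ 6 + c ^ 6 + d ^ 6) := by
      have e2 : b ^ 6 * c ^ 6 = a ^ 6 * d ^ 6 := by rw [← mul_pow, ← mul_pow, hp]
      calc (a ^ 6 + b ^ 6) * (a ^ 6 + c ^ 6) = a ^ 6 * (a ^ 6 + b ^ 6 + c ^ 6) + b ^ 6 * c ^ 6 := by ring
        _ = a ^ 6 * (a ^ 6 + b ^ 6 + c ^ 6 + d ^ 6) := by rw [e2]; ring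
    rw [e1]
    exact Dvd.dvd.mul_left h _
  rcases (hq.dvd_mul).1 h1 with h2 | h2
  · obtain ⟨ha, hb⟩ := prime_sum6 q a b hq hq4 h2
    have h3 : q ∣ c ^ 6 + d ^ 6 := by
      have e1 : a ^ 6 + b ^ 6 + c ^ 6 + d ^ 6 = (a ^ 6 + b ^ 6) + (c ^ 6 + d ^ 6) := by ring
      rw [e1] at h
      exact (Nat.dvd_add_right h2).1 h
    obtain ⟨hc, hd⟩ := prime_sum6 q c d hq hq4 h3
    exact ⟨ha, hb, hc, hd⟩
  · obtain ⟨ha, hc⟩ := prime_sum6 q a c hq hq4 h2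
    have h3 : q ∣ b ^ 6 + d ^ 6 := by
      have e1 : a ^ 6 + b ^ 6 + c ^ 6 + d ^ 6 = (a ^ 6 + c ^ 6) + (b ^ 6 + d ^ 6) := by ring
      rw [e1] at h
      exact (Nat.dvd_add_right h2).1 h
    obtain ⟨hb, hd⟩ := prime_sum6 q b d hq hq4 h3
    exact ⟨ha, hb, hc, hd⟩

theorem sum_sq_prop (a b c d : ℕ) (hp : a * d = b * c) :
    ∃ x y : ℕ, a ^ 6 + b ^ 6 + c ^ 6 + d ^ 6 = x ^ 2 + y ^ 2 := by
  refine ⟨((a : ℤ) ^ 3 - (d : ℤ) ^ 3).natAbs, b ^ 3 + c ^ 3, ?_⟩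
  have hpZ : (a : ℤ) * d = b * c := by exact_mod_cast hp
  have h3 : (a : ℤ) ^ 3 * (d : ℤ) ^ 3 = (b : ℤ) ^ 3 * (c : ℤ) ^ 3 := by
    rw [← mul_pow, ← mul_pow, hpZ]
  zify
  rw [sq_abs]
  linear_combination 2 * h3

end Pool.Agent.SixthPow
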