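import Pool.Agent.SixthPow.DescK

set_option autoImplicit false

namespace Pool.Agent.SixthPow

/-- from the four numbers to the smaller solution. -/
theorem coreK (a b c d : ℤ) (h : c ^ 2 * (d ^ 2 + 27 * a ^ 2) = b ^ 2 * (d ^ 2 + 3 * a ^ 2))
    (hbc : IsCoprime b c) (had : IsCoprime a d) (hb : b ≠ 0) (ha : a ≠ 0) (h3 : ¬ (3 : ℤ) ∣ d)
    (hp1 : (a * b + c * d) % 2 = 1) (hp2 : (a * c + b * d) % 2 = 1) :
    d ^ 2 + 3 * a ^ 2 = c ^ 2 ∧ d ^ 2 + 27 * a ^ 2 = b ^ 2 ∧ (d + a) % 2 = 1 := by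
  have hbc2 : IsCoprime (b ^ 2) (c ^ 2) := hbc.pow
  obtain ⟨k, hk⟩ : b ^ 2 ∣ d ^ 2 + 27 * a ^ 2 := hbc2.dvd_of_dvd_mul_left ⟨_, h⟩
  have hk2 : d ^ 2 + 3 * a ^ 2 = c ^ 2 * k := by
    apply mul_left_cancel₀ (pow_ne_zero 2 hb)
    rw [← h, hk]; ring
  have hk24 : k ∣ 24 := by
    obtain ⟨s, t, hst⟩ : IsCoprime (a ^ 2) (d ^ 2) := had.pow
    have e1 : (24 : ℤ) = k * (s * (b ^ 2 - c ^ 2) + 3 * t * (9 * c ^ 2 - b ^ 2)) := by
      have e2 : k * (b ^ 2 - c ^ 2) = 24 * a ^ 2 := by linear_combination hk2 - hk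
      have e3 : k * (9 * c ^ 2 - b ^ 2) = 8 * d ^ 2 := by linear_combination hk - 9 * hk2
      linear_combination -24 * hst - s * e2 - 3 * t * e3
    exact ⟨_, e1⟩
  have hk3 : ¬ (3 : ℤ) ∣ k := by
    intro h4
    have h5 : (3 : ℤ) ∣ d ^ 2 := by
      have h6 : d ^ 2 = c ^ 2 * k - 3 * a ^ 2 := by linarith
      rw [h6]
      exact dvd_sub (Dvd.dvd.mul_left h4 _) (Dvd.intro _ rfl)
    exact h3 (Int.prime_three.dvd_of_dvd_pow h5)
  have hkpos : 0 < k := by
    have h5 : 0 < d ^ 2 + 27 * a ^ 2 := by positivity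
    rw [hk] at h5
    exact (mul_pos_iff_of_pos_left (by positivity)).1 h5
  have hkle : k ≤ 24 := Int.le_of_dvd (by norm_num) hk24
  have hkodd : (d + a) % 2 = 1 ∧ k % 2 = 1 := by
    rcases Int.emod_two_eq_zero_or_one a with ha2 | ha2 <;>
      rcases Int.emod_two_eq_zero_or_one d with hd2 | hd2
    · exfalso
      have h2 : (2 : ℤ) ∣ 1 := by
        obtain ⟨s, t, hst⟩ := had
        rw [← hst]
        exact dvd_add (Dvd.dvd.mul_left (by omega) s) (Dvd.dvd.mul_left (by omega) t)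
      omega
    · refine ⟨by omega, ?_⟩
      by_contra hke
      obtain ⟨k', hk'⟩ : ∃ k', k = 2 * k' := ⟨k / 2, by omega⟩
      obtain ⟨a', ha'⟩ : ∃ a', a = 2 * a' := ⟨a / 2, by omega⟩
      obtain ⟨kd, hkd⟩ := odd_sq8 d hd2
      have : 8 * kd + 1 + 3 * (2 * a') ^ 2 = 2 * (c ^ 2 * k') := by rw [← hkd, ← ha', hk2, hk']; ring
      ring_nf at this
      omega
    · refine ⟨by omega, ?_⟩
      by_contra hke
      obtain ⟨k', hk'⟩ : ∃ k', k = 2 * k' := ⟨k / 2, by omega⟩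
      obtain ⟨d', hd'⟩ : ∃ d', d = 2 * d' := ⟨d / 2, by omega⟩
      obtain ⟨ka, hka⟩ := odd_sq8 a ha2
      have : (2 * d') ^ 2 + 3 * (8 * ka + 1) = 2 * (c ^ 2 * k') := by rw [← hka, ← hd', hk2, hk']; ring
      ring_nf at this
      omega
    · exfalso
      obtain ⟨ka, hka⟩ := odd_sq8 a ha2
      obtain ⟨kd, hkd⟩ := odd_sq8 d hd2
      rw [hka, hkd] at hk hk2
      rcases Int.emod_two_eq_zero_or_one b with hb2 | hb2 <;>
        rcases Int.emod_two_eq_zero_or_one c with hc2 | hc2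
      · rw [Int.add_emod, Int.mul_emod, Int.mul_emod c, hb2, hc2] at hp1
        simp at hp1
      · obtain ⟨b', rfl⟩ : ∃ b', b = 2 * b' := ⟨b / 2, by omega⟩
        obtain ⟨kc, hkc⟩ := odd_sq8 c hc2
        rw [hkc] at hk2
        have e1 : 8 * kd + 1 + 27 * (8 * ka + 1) = 4 * (b' ^ 2 * k) := by rw [hk]; ring
        rcases Int.emod_two_eq_zero_or_one k with hke | hke
        · obtain ⟨k', rfl⟩ : ∃ k', k = 2 * k' := ⟨k / 2, by omega⟩
          have e2 : b' ^ 2 * (2 * k') = 2 * (b' ^ 2 * k') := by ring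
          rw [e2] at e1
          omega
        · obtain ⟨k', rfl⟩ : ∃ k', k = 2 * k' + 1 := ⟨k / 2, by omega⟩
          ring_nf at hk2
          omega
      · obtain ⟨c', rfl⟩ : ∃ c', c = 2 * c' := ⟨c / 2, by omega⟩
        obtain ⟨kb, hkb⟩ := odd_sq8 b hb2
        rw [hkb] at hk
        have e1 : 8 * kd + 1 + 3 * (8 * ka + 1) = 4 * (c' ^ 2 * k) := by rw [hk2]; ring
        rcases Int.emod_two_eq_zero_or_one k with hke | hke
        · obtain ⟨k', rfl⟩ : ∃ k', k = 2 * k' := ⟨k / 2, by omega⟩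
          have e2 : c' ^ 2 * (2 * k') = 2 * (c' ^ 2 * k') := by ring
          rw [e2] at e1
          omega
        · obtain ⟨k', rfl⟩ : ∃ k', k = 2 * k' + 1 := ⟨k / 2, by omega⟩
          ring_nf at hk
          omega
      · rw [Int.add_emod, Int.mul_emod, Int.mul_emod c, ha2, hb2, hc2, hd2] at hp1
        simp at hp1
  have hk1 : k = 1 := by
    obtain ⟨h5, h6⟩ := hkodd
    interval_cases k <;> omega
  subst hk1
  exact ⟨by rw [hk2]; ring, by rw [hk]; ring, hkodd.1⟩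

theorem coprime_six (p : ℤ) (h2 : p % 2 = 1) (h3 : ¬ (3 : ℤ) ∣ p) : IsCoprime (12 : ℤ) p := by
  have e2 : IsCoprime (2 : ℤ) p := (Prime.coprime_iff_not_dvd Int.prime_two).2 (by omega)
  have e3 : IsCoprime (3 : ℤ) p := (Prime.coprime_iff_not_dvd Int.prime_three).2 h3
  have : (12 : ℤ) = 2 * 2 * 3 := by norm_num
  rw [this]
  exact (e2.mul_left e2).mul_left e3

theorem sysK (N : ℕ) : ∀ p r A B : ℤ, p ^ 2 + 3 * r ^ 2 = A ^ 2 → p ^ 2 + 27 * r ^ 2 = B ^ 2 →
    IsCoprime p r → ¬ (3 : ℤ) ∣ p → (p + r) % 2 = 1 → r ≠ 0 → r.natAbs = N → False := by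
  induction N using Nat.strong_induction_on with
  | _ N ih =>
    intro p r A B h1 h2 hpr h3 hpar hr hN
    have hre : r % 2 = 0 := by
      by_contra h
      obtain ⟨k, hk⟩ := odd_sq8 r (by omega)
      obtain ⟨p', rfl⟩ : ∃ p', p = 2 * p' := ⟨p / 2, by omega⟩
      rw [hk] at h1
      rcases Int.emod_two_eq_zero_or_one A with hA | hA
      · obtain ⟨A', rfl⟩ : ∃ A', A = 2 * A' := ⟨A / 2, by omega⟩
        ring_nf at h1
        omega
      · obtain ⟨k', hk'⟩ := odd_sq8 A hA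
        rw [hk'] at h1
        ring_nf at h1
        omega
    have hpo : p % 2 = 1 := by omega
    obtain ⟨s, rfl⟩ : ∃ s, r = 2 * s := ⟨r / 2, by omega⟩
    have hs : s ≠ 0 := by rintro rfl; exact hr (by ring)
    have hps : IsCoprime s p := by
      exact (hpr.of_mul_right_right).symm
    have oddsq : ∀ C t : ℤ, p ^ 2 + t * (2 * s) ^ 2 = C ^ 2 → C % 2 = 1 := by
      intro C t hC
      by_contra hCe
      obtain ⟨C', rfl⟩ : ∃ C', C = 2 * C' := ⟨C / 2, by omega⟩
      obtain ⟨k, hk⟩ := odd_sq8 p hpo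
      rw [hk] at hC
      ring_nf at hC
      omega
    have hAo : A % 2 = 1 := oddsq A 3 h1
    have hBo : B % 2 = 1 := oddsq B 27 h2
    have h12p : IsCoprime (12 : ℤ) p := coprime_six p hpo h3
    have h9p : IsCoprime (9 : ℤ) p := by
      have e3 : IsCoprime (3 : ℤ) p := (Prime.coprime_iff_not_dvd Int.prime_three).2 h3
      have : (9 : ℤ) = 3 * 3 := by norm_num
      rw [this]; exact e3.mul_left e3
    have hAp : IsCoprime A p := by
      have e1 : IsCoprime (12 * s ^ 2) p := h12p.mul_left hps.pow_left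
      have e2 : IsCoprime (12 * s ^ 2 + p * p) p := (IsCoprime.add_mul_left_left_iff).2 e1
      have e3 : 12 * s ^ 2 + p * p = A ^ 2 := by rw [← h1]; ring
      rw [e3] at e2
      exact (IsCoprime.pow_left_iff (by norm_num)).1 e2
    have hBp : IsCoprime B p := by
      have e1 : IsCoprime (9 * (12 * s ^ 2)) p := h9p.mul_left (h12p.mul_left hps.pow_left)
      have e2 : IsCoprime (9 * (12 * s ^ 2) + p * p) p := (IsCoprime.add_mul_left_left_iff).2 e1
      have e3 : 9 * (12 * s ^ 2) + p * p = B ^ 2 := by rw [← h2]; ring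
      rw [e3] at e2
      exact (IsCoprime.pow_left_iff (by norm_num)).1 e2
    have hA0 : 0 < |A| := by rw [abs_pos]; rintro rfl; simp at hAo
    have hB0 : 0 < |B| := by rw [abs_pos]; rintro rfl; simp at hBo
    have habsA : |A| % 2 = 1 := by
      rcases abs_choice A with h | h <;> rw [h]
      · exact hAo
      · omega
    have habsB : |B| % 2 = 1 := by
      rcases abs_choice B with h | h <;> rw [h]
      · exact hBo
      · omega
    have hAp' : IsCoprime |A| p := by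
      rcases abs_choice A with h | h <;> rw [h]
      · exact hAp
      · exact hAp.neg_left
    have hBp' : IsCoprime |B| p := by
      rcases abs_choice B with h | h <;> rw [h]
      · exact hBp
      · exact hBp.neg_left
    obtain ⟨g, k, hg0, hk0, e1, e2, e3, e4⟩ := split12 p s |A| hA0 (by rw [sq_abs]; linarith) hAp' habsA hpo hs
    obtain ⟨G, K, hG0, hK0, f1, f2, f3, f4⟩ := split108 p s |B| hB0 (by rw [sq_abs]; linarith) hBp' habsB hpo hs
    have h3k : ¬ (3 : ℤ) ∣ k := by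
      intro h
      apply h3
      have hk2 : (3 : ℤ) ∣ k ^ 2 := dvd_pow h (by norm_num)
      rcases e2 with e2 | e2 <;> rw [e2]
      · exact dvd_sub hk2 (Dvd.intro _ rfl)
      · exact dvd_sub (Dvd.intro _ rfl) hk2
    have h3K : ¬ (3 : ℤ) ∣ K := by
      intro h
      apply h3
      have hk2 : (3 : ℤ) ∣ K ^ 2 := dvd_pow h (by norm_num)
      have hG2 : (3 : ℤ) ∣ 27 * G ^ 2 := ⟨9 * G ^ 2, by ring⟩
      rcases f2 with f2 | f2 <;> rw [f2]
      · exact dvd_sub hk2 hG2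
      · exact dvd_sub hG2 hk2
    have hk3 := not_three_dvd_sq k h3k
    have hK3 := not_three_dvd_sq K h3K
    have hEq : k ^ 2 - 3 * g ^ 2 = K ^ 2 - 27 * G ^ 2 := by
      rcases e2 with e2 | e2 <;> rcases f2 with f2 | f2
      · rw [← e2, ← f2]
      · exfalso
        have : k ^ 2 - 3 * g ^ 2 = 27 * G ^ 2 - K ^ 2 := by rw [← e2, ← f2]
        omega
      · exfalso
        have : 3 * g ^ 2 - k ^ 2 = K ^ 2 - 27 * G ^ 2 := by rw [← e2, ← f2]
        omega
      · have : 3 * g ^ 2 - k ^ 2 = 27 * G ^ 2 - K ^ 2 := by rw [← e2, ← f2]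
        linarith
    have hgk : g * k = G * K := by rw [e3, f3]
    have hgk0 : g * k ≠ 0 := by rw [e3]; exact abs_ne_zero.2 hs
    obtain ⟨a, b, c, d, rfl, rfl, rfl, rfl, hbc⟩ := four_numbers g k G K hgk (left_ne_zero_of_mul hgk0)
    have hab0 : a * b ≠ 0 := left_ne_zero_of_mul hgk0
    have hcd0 : c * d ≠ 0 := right_ne_zero_of_mul hgk0
    have had : IsCoprime a d := e4.of_mul_left_left.of_mul_right_right
    have h3d : ¬ (3 : ℤ) ∣ d := fun h => h3k (Dvd.dvd.mul_left h c)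
    have par : ∀ x y t C : ℤ, C % 2 = 1 → C = (2 * t + 1) * x ^ 2 + y ^ 2 → (x + y) % 2 = 1 := by
      intro x y t C hC hCe
      by_contra hxy
      obtain ⟨j, hj⟩ : ∃ j, x = 2 * j - y := ⟨(x + y) / 2, by omega⟩
      rw [hj] at hCe
      have : C = 2 * ((2 * t + 1) * (2 * j ^ 2 - 2 * j * y) + (t + 1) * y ^ 2) := by rw [hCe]; ring
      omega
    have hp1 : (a * b + c * d) % 2 = 1 := par (a * b) (c * d) 1 _ habsA (by rw [e1]; ring)
    have hp2 : (a * c + b * d) % 2 = 1 := par (a * c) (b * d) 13 _ habsB (by rw [f1]; ring)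
    obtain ⟨r1, r2, r3⟩ := coreK a b c d (by linear_combination hEq) hbc had
      (right_ne_zero_of_mul hab0) (left_ne_zero_of_mul hab0) h3d hp1 hp2
    have ha0 : a ≠ 0 := left_ne_zero_of_mul hab0
    have hlt : a.natAbs < N := by
      have e5 : |a| * (|b| * |c| * |d|) = |s| := by
        rw [← e3, ← abs_of_nonneg (mul_nonneg hg0 hk0)]
        simp only [abs_mul]; ring
      have hb1 : 1 ≤ |b| := Int.one_le_abs (right_ne_zero_of_mul hab0)
      have hc1 : 1 ≤ |c| := Int.one_le_abs (left_ne_zero_of_mul hcd0)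
      have hd1 : 1 ≤ |d| := Int.one_le_abs (right_ne_zero_of_mul hcd0)
      have hbc1 : 1 ≤ |b| * |c| := by nlinarith
      have hbcd1 : 1 ≤ |b| * |c| * |d| := by nlinarith
      have h5 : |a| ≤ |s| := by
        rw [← e5]
        nlinarith [abs_nonneg a]
      have hs1 : 1 ≤ |s| := Int.one_le_abs hs
      rw [← hN]
      have h6 : (a.natAbs : ℤ) < ((2 * s).natAbs : ℤ) := by
        rw [Int.natCast_natAbs, Int.natCast_natAbs, abs_mul]
        have : |(2 : ℤ)| = 2 := by norm_num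
        rw [this]
        linarith
      exact_mod_cast h6
    exact ih _ hlt d a c b r1 r2 had.symm h3d r3 ha0 rfl

end Pool.Agent.SixthPow
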